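import Mathlib

/-!
P325qz.Spec (MP_325f1f_lc, helper24): the spectral theorem for real symmetric matrices in plain
form.
-/

namespace P325qz

open Finset Real Matrix

/-- **Spectral theorem** for a real symmetric matrix, in terms of plain sums. -/
theorem spectral {V : Type*} [Fintype V] [DecidableEq V] (A : Matrix V V ℝ) (hA : A.IsSymm) :
    ∃ (φ : V → V → ℝ) (lam : V → ℝ),
      (∀ k l, ∑ x, φ k x * φ l x = if k = l then 1 else 0) ∧
      (∀ f : V → ℝ, ∑ k, (∑ x, φ k x * f x) ^ 2 = ∑ x, f x ^ 2) ∧
      (∀ k x, ∑ y, A x y * φ k y = lam k * φ k x) ∧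
      (∀ f : V → ℝ, ∑ x, ∑ y, f x * A x y * f y = ∑ k, lam k * (∑ x, φ k x * f x) ^ 2) := by
  have hH : A.IsHermitian := by
    rw [Matrix.IsHermitian, Matrix.conjTranspose_eq_transpose_of_trivial]
    exact hA
  set B := hH.eigenvectorBasis with hB
  set φ : V → V → ℝ := fun k => ⇑(B k) with hφ
  have hinner : ∀ (u v : EuclideanSpace ℝ V), inner ℝ u v = ∑ x, u x * v x := by
    intro u v
    rw [PiLp.inner_apply]
    refine Finset.sum_congr rfl fun x _ => ?_
    simp [mul_comm]
  have h1 : ∀ k l, ∑ x, φ k x * φ l x = if k = l then 1 else 0 := by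
    intro k l
    rw [← hinner (B k) (B l)]
    exact (orthonormal_iff_ite.1 B.orthonormal) k l
  have h2 : ∀ f : V → ℝ, ∑ k, (∑ x, φ k x * f x) ^ 2 = ∑ x, f x ^ 2 := by
    intro f
    have e1 := B.sum_sq_norm_inner_right (WithLp.toLp 2 f)
    rw [EuclideanSpace.norm_sq_eq] at e1
    simp only [Real.norm_eq_abs, sq_abs] at e1
    rw [← e1]
    refine Finset.sum_congr rfl fun k _ => ?_
    rw [hinner]
  have h3 : ∀ k x, ∑ y, A x y * φ k y = hH.eigenvalues k * φ k x := by
    intro k x
    have e1 := congrFun (hH.mulVec_eigenvectorBasis k) x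
    simpa [Matrix.mulVec, dotProduct] using e1
  refine ⟨φ, hH.eigenvalues, h1, h2, h3, ?_⟩
  intro f
  -- expansion of f in the basis
  set c : V → ℝ := fun k => ∑ x, φ k x * f x with hc
  have h4 : ∀ x, f x = ∑ k, c k * φ k x := by
    intro x
    have e1 := B.sum_repr' (WithLp.toLp 2 f)
    have e2 := congrArg (fun v : EuclideanSpace ℝ V => v x) e1
    simp only [WithLp.ofLp_sum, WithLp.ofLp_smul, Finset.sum_apply, Pi.smul_apply,
      smul_eq_mul] at e2
    rw [← e2]
    refine Finset.sum_congr rfl fun k _ => ?_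
    rw [hinner]
  have h5 : ∀ x, ∑ y, A x y * f y = ∑ k, c k * (hH.eigenvalues k * φ k x) := by
    intro x
    calc ∑ y, A x y * f y = ∑ y, ∑ k, c k * (A x y * φ k y) := by
          refine Finset.sum_congr rfl fun y _ => ?_
          rw [h4 y, Finset.mul_sum]
          exact Finset.sum_congr rfl fun k _ => by ring
      _ = ∑ k, c k * ∑ y, A x y * φ k y := by
          rw [Finset.sum_comm]
          exact Finset.sum_congr rfl fun k _ => by rw [Finset.mul_sum]
      _ = _ := Finset.sum_congr rfl fun k _ => by rw [h3]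
  calc ∑ x, ∑ y, f x * A x y * f y = ∑ x, f x * ∑ y, A x y * f y := by
        refine Finset.sum_congr rfl fun x _ => ?_
        rw [Finset.mul_sum]
        exact Finset.sum_congr rfl fun y _ => by ring
    _ = ∑ x, f x * ∑ k, c k * (hH.eigenvalues k * φ k x) :=
        Finset.sum_congr rfl fun x _ => by rw [h5]
    _ = ∑ k, hH.eigenvalues k * c k * ∑ x, φ k x * f x := by
        simp only [Finset.mul_sum]
        rw [Finset.sum_comm]
        exact Finset.sum_congr rfl fun k _ => Finset.sum_congr rfl fun x _ => by ring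
    _ = _ := by
        refine Finset.sum_congr rfl fun k _ => ?_
        simp only [hc]
        ring

end P325qz
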