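import Mathlib
import Pool.Agent.Lib.P325qz.Spec
import Pool.Agent.Lib.P325s.Decay
import Pool.Agent.Lib.P325s.WalkFacts

/-!
P325qz.Count (MP_325f1f_lc, helper24): a weighted graph that satisfies a Nash type inequality has
few small eigenvalues.
-/

namespace P325qz

open Finset Real Matrix
open Pool.Agent.Lib.P325s (walk lap lamMax walk_isSymm lap_quad trace_walk_le)

/-- The trace of a power of a symmetric matrix `1 - A / c` by eigenvalues, and the number of small
eigenvalues, in one statement. -/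
theorem trace_ge {T : Type} [Fintype T] [DecidableEq T] (A : Matrix T T ℝ) (hA : A.IsSymm)
    {η c : ℝ} (hc0 : 0 < c) (hηc : η ≤ c) (F : Submodule ℝ (T → ℝ))
    (hF : ∀ f ∈ F, f ≠ 0 → 0 < ∑ x, f x ^ 2 ∧
      ∑ x, ∑ y, f x * A x y * f y ≤ η * ∑ x, f x ^ 2) (J : ℕ) :
    (Module.finrank ℝ F : ℝ) * (1 - η / c) ^ (2 * J) ≤ ((1 - c⁻¹ • A) ^ (2 * J)).trace := by
  classical
  obtain ⟨φ, lam, hon, hpars, heig, hform⟩ := spectral A hA
  -- the trace
  set U : Matrix T T ℝ := Matrix.of φ with hU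
  have hUU : U * Uᵀ = 1 := by
    ext k l
    rw [Matrix.mul_apply, Matrix.one_apply]
    exact hon k l
  have hUU' : Uᵀ * U = 1 := mul_eq_one_comm.1 hUU
  have hpow : ∀ (n : ℕ) k, ((1 - c⁻¹ • A) ^ n) *ᵥ (φ k) = (1 - lam k / c) ^ n • φ k := by
    intro n k
    induction n with
    | zero => simp
    | succ n ih =>
      have h1 : (1 - c⁻¹ • A) *ᵥ (φ k) = (1 - lam k / c) • φ k := by
        rw [Matrix.sub_mulVec, Matrix.one_mulVec, Matrix.smul_mulVec]
        funext x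
        have h2 : (A *ᵥ φ k) x = lam k * φ k x := heig k x
        rw [Pi.sub_apply, Pi.smul_apply, Pi.smul_apply, h2, smul_eq_mul, smul_eq_mul]
        field_simp
      rw [pow_succ, ← Matrix.mulVec_mulVec, h1, Matrix.mulVec_smul, ih, smul_smul, pow_succ,
        mul_comm]
  have htr : ((1 - c⁻¹ • A) ^ (2 * J)).trace = ∑ k, (1 - lam k / c) ^ (2 * J) := by
    set P := (1 - c⁻¹ • A) ^ (2 * J) with hP
    have h1 : P.trace = (U * P * Uᵀ).trace := by
      rw [Matrix.trace_mul_comm (U * P) Uᵀ, ← Matrix.mul_assoc, hUU', Matrix.one_mul]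
    rw [h1]
    unfold Matrix.trace
    refine Finset.sum_congr rfl fun k _ => ?_
    rw [Matrix.diag_apply, Matrix.mul_assoc, Matrix.mul_apply]
    have h2 : ∀ x, (P * Uᵀ) x k = (1 - lam k / c) ^ (2 * J) * φ k x := by
      intro x
      have h4 := congrFun (hpow (2 * J) k) x
      rw [Matrix.mul_apply]
      exact h4
    rw [Finset.sum_congr rfl fun x _ => by rw [h2 x]]
    have h3 : ∑ x, U k x * ((1 - lam k / c) ^ (2 * J) * φ k x) =
        (1 - lam k / c) ^ (2 * J) * ∑ x, φ k x * φ k x := by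
      rw [Finset.mul_sum]
      refine Finset.sum_congr rfl fun x _ => ?_
      change φ k x * _ = _
      ring
    rw [h3, hon, if_pos rfl, mul_one]
  -- the number of small eigenvalues
  have hcount : Module.finrank ℝ F ≤ Fintype.card {k // lam k ≤ η} := by
    set G : F →ₗ[ℝ] ({k // lam k ≤ η} → ℝ) :=
      { toFun := fun f k => ∑ x, φ k.1 x * (f : T → ℝ) x
        map_add' := by
          intro f g
          funext k
          rw [Pi.add_apply, ← Finset.sum_add_distrib]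
          exact Finset.sum_congr rfl fun x _ => by
            rw [Submodule.coe_add, Pi.add_apply]; ring
        map_smul' := by
          intro a f
          funext k
          rw [Pi.smul_apply, RingHom.id_apply, smul_eq_mul, Finset.mul_sum]
          exact Finset.sum_congr rfl fun x _ => by
            rw [Submodule.coe_smul, Pi.smul_apply, smul_eq_mul]; ring } with hG
    have hinj : Function.Injective G := by
      rw [← LinearMap.ker_eq_bot, LinearMap.ker_eq_bot']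
      intro f hf
      by_contra hne
      have hne' : (f : T → ℝ) ≠ 0 := fun h => hne (Subtype.ext h)
      obtain ⟨h1, h2⟩ := hF f f.2 hne'
      have h3 : ∀ k, lam k ≤ η → ∑ x, φ k x * (f : T → ℝ) x = 0 := fun k hk =>
        congrFun hf ⟨k, hk⟩
      rw [hform, ← hpars (f : T → ℝ)] at h2
      rw [← hpars (f : T → ℝ)] at h1
      have h4 : ∑ k, η * (∑ x, φ k x * (f : T → ℝ) x) ^ 2 <
          ∑ k, lam k * (∑ x, φ k x * (f : T → ℝ) x) ^ 2 := by
        obtain ⟨k0, -, hk0⟩ := Finset.exists_ne_zero_of_sum_ne_zero h1.ne'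
        refine Finset.sum_lt_sum (fun k _ => ?_) ⟨k0, mem_univ _, ?_⟩
        · by_cases hk : lam k ≤ η
          · rw [h3 k hk]; simp
          · exact mul_le_mul_of_nonneg_right (not_le.1 hk).le (sq_nonneg _)
        · have hk : ¬ lam k0 ≤ η := fun hk => hk0 (by rw [h3 k0 hk]; simp)
          exact mul_lt_mul_of_pos_right (not_le.1 hk)
            (lt_of_le_of_ne (sq_nonneg _) (Ne.symm hk0))
      rw [← Finset.mul_sum] at h4
      linarith
    have := LinearMap.finrank_le_finrank_of_injective hinj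
    rwa [Module.finrank_fintype_fun_eq_card] at this
  rw [htr]
  have h0 : 0 ≤ 1 - η / c := by
    rw [sub_nonneg, div_le_one hc0]
    exact hηc
  calc (Module.finrank ℝ F : ℝ) * (1 - η / c) ^ (2 * J)
      ≤ (Fintype.card {k // lam k ≤ η} : ℝ) * (1 - η / c) ^ (2 * J) :=
        mul_le_mul_of_nonneg_right (by exact_mod_cast hcount) (pow_nonneg h0 _)
    _ = ∑ k ∈ univ.filter (fun k => lam k ≤ η), (1 - η / c) ^ (2 * J) := by
        rw [Finset.sum_const, nsmul_eq_mul, Fintype.card_subtype]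
    _ ≤ ∑ k ∈ univ.filter (fun k => lam k ≤ η), (1 - lam k / c) ^ (2 * J) := by
        refine Finset.sum_le_sum fun k hk => ?_
        rw [mem_filter] at hk
        refine pow_le_pow_left₀ h0 ?_ _
        have := div_le_div_of_nonneg_right hk.2 hc0.le
        linarith
    _ ≤ ∑ k, (1 - lam k / c) ^ (2 * J) := by
        refine Finset.sum_le_sum_of_subset_of_nonneg (filter_subset _ _) fun k _ _ => ?_
        rw [pow_mul]
        positivity

/-- **Counting small eigenvalues** from a Nash type inequality. -/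
theorem count_le {T ι : Type} [Fintype T] [DecidableEq T] [Nonempty T] [Fintype ι]
    (μ : T → ℝ) (s t : ι → T) (w : ι → ℝ) (lam : ℝ)
    (hμ : ∀ x, 0 < μ x) (hμ1 : ∑ x, μ x = 1) (hw : ∀ e, 0 ≤ w e) (hlam : 0 ≤ lam)
    (hnash : ∀ g : T → ℝ, (∀ x, 0 ≤ g x) → ∑ x, μ x * g x = 1 →
      lam * ((∑ x, μ x * g x ^ 2) * Real.log (∑ x, μ x * g x ^ 2)) ≤
        ∑ e, w e * (g (s e) - g (t e)) ^ 2)
    {η T0 : ℝ} (hT0 : 0 < T0) (F : Submodule ℝ (T → ℝ))
    (hF : ∀ f ∈ F, f ≠ 0 → ∑ e, w e * (f (s e) - f (t e)) ^ 2 ≤ η * ∑ x, μ x * f x ^ 2) :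
    (Module.finrank ℝ F : ℝ) ≤
      (Fintype.card T : ℝ) ^ Real.exp (-(2 * lam * T0)) * Real.exp (2 * T0 * η) := by
  classical
  -- the space in the normalised coordinates
  set D : (T → ℝ) ≃ₗ[ℝ] (T → ℝ) := LinearEquiv.piCongrRight fun x =>
    LinearEquiv.smulOfNeZero ℝ ℝ (√(μ x)) (Real.sqrt_pos.2 (hμ x)).ne' with hD
  have hDa : ∀ f x, D f x = √(μ x) * f x := fun f x => rfl
  set F' : Submodule ℝ (T → ℝ) := F.map (D : (T → ℝ) →ₗ[ℝ] (T → ℝ)) with hF'
  have hfr : Module.finrank ℝ F' = Module.finrank ℝ F := LinearEquiv.finrank_map_eq D F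
  have hA : (lap μ s t w).IsSymm := by
    apply Matrix.IsSymm.ext
    intro x y
    unfold Pool.Agent.Lib.P325s.lap
    exact Finset.sum_congr rfl fun e _ => by ring
  have hF2 : ∀ f ∈ F', f ≠ 0 → 0 < ∑ x, f x ^ 2 ∧
      ∑ x, ∑ y, f x * (lap μ s t w) x y * f y ≤ η * ∑ x, f x ^ 2 := by
    intro f hf hf0
    obtain ⟨g, hg, rfl⟩ := (Submodule.mem_map).1 hf
    have hg0 : g ≠ 0 := fun h => hf0 (by rw [h]; simp)
    constructor
    · by_contra hcon
      have h1 : ∑ x, ((D : (T → ℝ) →ₗ[ℝ] (T → ℝ)) g) x ^ 2 = 0 :=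
        le_antisymm (not_lt.1 hcon) (Finset.sum_nonneg fun x _ => sq_nonneg _)
      apply hf0
      funext x
      have := (Finset.sum_eq_zero_iff_of_nonneg fun x _ => sq_nonneg _).1 h1 x (mem_univ x)
      exact pow_eq_zero_iff two_ne_zero |>.1 this
    · have h1 := lap_quad μ s t w ((D : (T → ℝ) →ₗ[ℝ] (T → ℝ)) g)
      have h2 : ∑ x, ∑ y, ((D : (T → ℝ) →ₗ[ℝ] (T → ℝ)) g) x * (lap μ s t w) x y *
          ((D : (T → ℝ) →ₗ[ℝ] (T → ℝ)) g) y = ((D : (T → ℝ) →ₗ[ℝ] (T → ℝ)) g) ⬝ᵥ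
            (lap μ s t w *ᵥ ((D : (T → ℝ) →ₗ[ℝ] (T → ℝ)) g)) := by
        unfold dotProduct Matrix.mulVec dotProduct
        refine Finset.sum_congr rfl fun x _ => ?_
        rw [Finset.mul_sum]
        exact Finset.sum_congr rfl fun y _ => by ring
      rw [h2, h1]
      have h3 : ∀ x, ((D : (T → ℝ) →ₗ[ℝ] (T → ℝ)) g) x / √(μ x) = g x := by
        intro x
        have h4 := (Real.sqrt_pos.2 (hμ x)).ne'
        change √(μ x) * g x / √(μ x) = g x
        field_simp
      have h5 : ∀ x, ((D : (T → ℝ) →ₗ[ℝ] (T → ℝ)) g) x ^ 2 = μ x * g x ^ 2 := by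
        intro x
        change (√(μ x) * g x) ^ 2 = _
        rw [mul_pow, Real.sq_sqrt (hμ x).le]
      simp only [h3, h5]
      exact hF g hg hg0
  rw [← hfr]
  set d : ℝ := (Module.finrank ℝ F' : ℝ) with hd
  have hd0 : 0 ≤ d := Nat.cast_nonneg _
  set Λ : ℝ := lamMax μ s t w with hΛ
  have hcard : (0 : ℝ) < Fintype.card T := by exact_mod_cast Fintype.card_pos
  -- the limits
  have hg1 : Filter.Tendsto (fun n : ℕ => (1 + (-(T0 * η)) / (n : ℝ)) ^ n)
      Filter.atTop (nhds (Real.exp (-(T0 * η)))) :=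
    Real.tendsto_one_add_div_pow_exp _
  have hL : Filter.Tendsto (fun n : ℕ => d * ((1 + (-(T0 * η)) / (n : ℝ)) ^ n) ^ 2)
      Filter.atTop (nhds (d * Real.exp (-(T0 * η)) ^ 2)) :=
    (hg1.pow 2).const_mul d
  have hinv : Filter.Tendsto (fun n : ℕ => ((n : ℝ))⁻¹) Filter.atTop (nhds 0) :=
    tendsto_inv_atTop_nhds_zero_nat
  have hg2 : Filter.Tendsto (fun n : ℕ => (n : ℝ) *
      (-(2 * lam * T0 * (n : ℝ)⁻¹ * (1 - Λ * T0 / 2 * (n : ℝ)⁻¹))))
      Filter.atTop (nhds (-(2 * lam * T0))) := by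
    have h1 : Filter.Tendsto (fun n : ℕ => -(2 * lam * T0) * (1 - Λ * T0 / 2 * (n : ℝ)⁻¹))
        Filter.atTop (nhds (-(2 * lam * T0) * (1 - Λ * T0 / 2 * 0))) :=
      (tendsto_const_nhds.sub (hinv.const_mul _)).const_mul _
    rw [mul_zero, sub_zero, mul_one] at h1
    refine h1.congr' ?_
    filter_upwards [Filter.eventually_gt_atTop 0] with n hn
    have hn' : (n : ℝ) ≠ 0 := by exact_mod_cast hn.ne'
    field_simp
  have hθ := Real.tendsto_one_add_pow_exp_of_tendsto hg2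
  have hR : Filter.Tendsto (fun n : ℕ => (Fintype.card T : ℝ) ^
      ((1 + -(2 * lam * T0 * (n : ℝ)⁻¹ * (1 - Λ * T0 / 2 * (n : ℝ)⁻¹))) ^ n : ℝ))
      Filter.atTop (nhds ((Fintype.card T : ℝ) ^ Real.exp (-(2 * lam * T0)))) :=
    tendsto_const_nhds.rpow hθ (Or.inl hcard.ne')
  have hc : Filter.Tendsto (fun n : ℕ => (n : ℝ) / T0) Filter.atTop Filter.atTop :=
    tendsto_natCast_atTop_atTop.atTop_div_const hT0
  have hev : ∀ᶠ n : ℕ in Filter.atTop,
      d * ((1 + (-(T0 * η)) / (n : ℝ)) ^ n) ^ 2 ≤ (Fintype.card T : ℝ) ^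
      ((1 + -(2 * lam * T0 * (n : ℝ)⁻¹ * (1 - Λ * T0 / 2 * (n : ℝ)⁻¹))) ^ n : ℝ) := by
    filter_upwards [hc.eventually_ge_atTop Λ, hc.eventually_ge_atTop (2 * lam),
      hc.eventually_ge_atTop η, hc.eventually_gt_atTop 0, Filter.eventually_gt_atTop 0] with
      n h1 h2 h3 h4 h5
    have hn' : (n : ℝ) ≠ 0 := by exact_mod_cast h5.ne'
    have h6 := trace_walk_le μ s t w lam hμ hμ1 hw hlam hnash h4 h1 h2 n
    have h7 := trace_ge (lap μ s t w) hA h4 h3 F' hF2 n
    have e1 : 1 + (-(T0 * η)) / (n : ℝ) = 1 - η / ((n : ℝ) / T0) := by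
      field_simp
      try ring
    have e2 : 1 + -(2 * lam * T0 * (n : ℝ)⁻¹ * (1 - Λ * T0 / 2 * (n : ℝ)⁻¹)) =
        1 - 2 * lam / ((n : ℝ) / T0) * (1 - Λ / (2 * ((n : ℝ) / T0))) := by
      field_simp
      try ring
    rw [e1, e2, ← pow_mul, mul_comm n 2]
    exact h7.trans h6
  have hlim := le_of_tendsto_of_tendsto hL hR hev
  have hexp : Real.exp (-(T0 * η)) ^ 2 * Real.exp (2 * T0 * η) = 1 := by
    rw [← Real.exp_nat_mul, ← Real.exp_add, ← Real.exp_zero]
    congr 1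
    push_cast
    ring
  calc d = d * Real.exp (-(T0 * η)) ^ 2 * Real.exp (2 * T0 * η) := by
        rw [mul_assoc, hexp, mul_one]
    _ ≤ _ := mul_le_mul_of_nonneg_right hlim (Real.exp_pos _).le

end P325qz
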