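import Mathlib
import Pool.Agent.Lib.P325s.Decay
import Pool.Agent.Lib.P325qz.Count

/-!
P325qz.SetHeat (MP_325f1f_lc, helper24): a weighted graph in which
`energy ≥ b N (log N) ^ 2` has at most `exp (2 η T0 + 1 / (2 b T0))` eigenvalues below `η`.
-/

namespace P325qz

open Finset Real Matrix
open Pool.Agent.Lib.P325s (walk lap lamMax walk_isSymm lap_quad lap_sq_le)
open Pool.Agent.Lib.P325s.DecayAux

variable {T ι : Type} [Fintype T] [DecidableEq T] [Fintype ι]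

theorem uv_step_sq (μ : T → ℝ) (s t : ι → T) (w : ι → ℝ) (b : ℝ)
    (hμ : ∀ x, 0 < μ x) (hw : ∀ e, 0 ≤ w e)
    (hnash : ∀ g : T → ℝ, (∀ x, 0 ≤ g x) → ∑ x, μ x * g x = 1 →
      b * ((∑ x, μ x * g x ^ 2) * Real.log (∑ x, μ x * g x ^ 2) ^ 2) ≤
        ∑ e, w e * (g (s e) - g (t e)) ^ 2)
    {c : ℝ} (hc0 : 0 < c) (hc : lamMax μ s t w ≤ c) (x : T) (j : ℕ) :
    hv μ s t w c x (j + 1) ⬝ᵥ hv μ s t w c x (j + 1) ≤
      (hv μ s t w c x j ⬝ᵥ hv μ s t w c x j) * (1 - (2 * b / c * (1 - lamMax μ s t w / (2 * c)))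
        * Real.log (hv μ s t w c x j ⬝ᵥ hv μ s t w c x j) ^ 2) := by
  set h := hv μ s t w c x j with hh
  set u := h ⬝ᵥ h with hu
  set E := h ⬝ᵥ (lap μ s t w *ᵥ h) with hE
  have h0 : ∀ y, 0 ≤ h y := hv_nonneg μ s t w hμ hw hc0 hc x j
  have hsq : ∀ y, √(μ y) ≠ 0 := fun y => (Real.sqrt_pos.mpr (hμ y)).ne'
  have hms : ∀ y, μ y = √(μ y) * √(μ y) := fun y => (Real.mul_self_sqrt (hμ y).le).symm
  have hN := hnash (fun y => h y / √(μ y)) (fun y => div_nonneg (h0 y) (Real.sqrt_nonneg _)) (by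
    rw [← sum_hv μ s t w hμ c x j]
    refine Finset.sum_congr rfl fun y _ => ?_
    rw [← hh]
    have := hsq y
    calc μ y * (h y / √(μ y)) = √(μ y) * √(μ y) * (h y / √(μ y)) := by rw [← hms y]
      _ = √(μ y) * h y := by field_simp)
  have h2 : ∑ y, μ y * (h y / √(μ y)) ^ 2 = u := by
    rw [hu]
    unfold dotProduct
    refine Finset.sum_congr rfl fun y _ => ?_
    have := hsq y
    calc μ y * (h y / √(μ y)) ^ 2 = √(μ y) * √(μ y) * (h y / √(μ y)) ^ 2 := by rw [← hms y]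
      _ = h y * h y := by field_simp
  simp only [h2] at hN
  rw [← lap_quad μ s t w h, ← hE] at hN
  have h3 : hv μ s t w c x (j + 1) = h - c⁻¹ • (lap μ s t w *ᵥ h) := by
    rw [hv_succ, ← hh]
    unfold walk
    rw [Matrix.sub_mulVec, Matrix.one_mulVec, Matrix.smul_mulVec]
  have h4 : (h - c⁻¹ • (lap μ s t w *ᵥ h)) ⬝ᵥ (h - c⁻¹ • (lap μ s t w *ᵥ h)) =
      u - 2 * c⁻¹ * E + c⁻¹ * c⁻¹ * ((lap μ s t w *ᵥ h) ⬝ᵥ (lap μ s t w *ᵥ h)) := by
    rw [sub_dotProduct, dotProduct_sub, dotProduct_sub, smul_dotProduct, smul_dotProduct,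
      dotProduct_smul, dotProduct_smul, dotProduct_comm (lap μ s t w *ᵥ h) h]
    simp only [smul_eq_mul]
    rw [← hu, ← hE]
    ring
  have h5 := lap_sq_le μ s t w hμ hw h
  rw [← hE] at h5
  have hci : 0 < c⁻¹ := inv_pos.mpr hc0
  have h6 : c⁻¹ * c⁻¹ * ((lap μ s t w *ᵥ h) ⬝ᵥ (lap μ s t w *ᵥ h)) ≤
      c⁻¹ * c⁻¹ * (lamMax μ s t w * E) := mul_le_mul_of_nonneg_left h5 (by positivity)
  have h7 : 0 ≤ 2 / c * (1 - lamMax μ s t w / (2 * c)) := by
    refine mul_nonneg (by positivity) ?_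
    rw [sub_nonneg, div_le_one (by positivity)]
    linarith
  have h8 := mul_le_mul_of_nonneg_left hN h7
  rw [h3, h4]
  have h9 : u - 2 * c⁻¹ * E + c⁻¹ * c⁻¹ * (lamMax μ s t w * E) =
      u - 2 / c * (1 - lamMax μ s t w / (2 * c)) * E := by
    field_simp
    ring
  have h10 : u * (1 - (2 * b / c * (1 - lamMax μ s t w / (2 * c))) * Real.log u ^ 2) =
      u - 2 / c * (1 - lamMax μ s t w / (2 * c)) * (b * (u * Real.log u ^ 2)) := by
    ring
  rw [h10]
  linarith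

theorem trace_walk_le_sq (μ : T → ℝ) (s t : ι → T) (w : ι → ℝ) (b : ℝ)
    (hμ : ∀ x, 0 < μ x) (hμ1 : ∑ x, μ x = 1) (hw : ∀ e, 0 ≤ w e) (hb : 0 < b)
    (hnash : ∀ g : T → ℝ, (∀ x, 0 ≤ g x) → ∑ x, μ x * g x = 1 →
      b * ((∑ x, μ x * g x ^ 2) * Real.log (∑ x, μ x * g x ^ 2) ^ 2) ≤
        ∑ e, w e * (g (s e) - g (t e)) ^ 2)
    {c : ℝ} (hc0 : 0 < c) (hc : lamMax μ s t w ≤ c) {J : ℕ} (hJ : 0 < J) :
    ((walk μ s t w c) ^ (2 * J)).trace ≤
      Real.exp (1 / ((2 * b / c * (1 - lamMax μ s t w / (2 * c))) * J)) := by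
  set k : ℝ := 2 * b / c * (1 - lamMax μ s t w / (2 * c)) with hk
  have ha0 : 0 < 1 - lamMax μ s t w / (2 * c) := by
    rw [sub_pos, div_lt_one (by positivity)]
    linarith
  have hk0 : 0 < k := mul_pos (by positivity) ha0
  have hlog : ∀ x, ∀ j : ℕ, k * j * Real.log (hv μ s t w c x j ⬝ᵥ hv μ s t w c x j) ≤ 1 := by
    intro x j
    induction j with
    | zero => simp
    | succ j ih =>
      set u := hv μ s t w c x j ⬝ᵥ hv μ s t w c x j with hu
      set u' := hv μ s t w c x (j + 1) ⬝ᵥ hv μ s t w c x (j + 1) with hu'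
      have h1 : 1 ≤ u := uv_ge_one μ s t w hμ hμ1 c x j
      have h2 : 1 ≤ u' := uv_ge_one μ s t w hμ hμ1 c x (j + 1)
      have h3 : u' ≤ u * (1 - k * Real.log u ^ 2) := uv_step_sq μ s t w b hμ hw hnash hc0 hc x j
      have h4 : 1 - k * Real.log u ^ 2 ≤ Real.exp (-(k * Real.log u ^ 2)) := by
        have := Real.add_one_le_exp (-(k * Real.log u ^ 2))
        linarith
      have h5 : u' ≤ u * Real.exp (-(k * Real.log u ^ 2)) :=
        h3.trans (mul_le_mul_of_nonneg_left h4 (by linarith))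
      have h6 : Real.log u' ≤ Real.log u + -(k * Real.log u ^ 2) := by
        rw [← Real.log_exp (-(k * Real.log u ^ 2)), ← Real.log_mul (by linarith)
          (Real.exp_pos _).ne']
        exact Real.log_le_log (by linarith) h5
      have hz : 0 ≤ Real.log u := Real.log_nonneg h1
      have hz' : 0 ≤ Real.log u' := Real.log_nonneg h2
      set z := Real.log u with hzd
      set z' := Real.log u' with hzd'
      have h7 : z' ≤ z * (1 - k * z) := by
        have : z + -(k * z ^ 2) = z * (1 - k * z) := by ring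
        linarith
      push_cast
      rcases le_or_gt 0 (1 - k * z) with h8 | h8
      · have h9 : k * (j + 1) * z' ≤ k * (j + 1) * (z * (1 - k * z)) :=
          mul_le_mul_of_nonneg_left h7 (by positivity)
        have h10 : k * (j + 1) * (z * (1 - k * z)) ≤ (1 + k * z) * (1 - k * z) := by
          have : k * (j + 1) * (z * (1 - k * z)) = (k * j * z + k * z) * (1 - k * z) := by ring
          rw [this]
          exact mul_le_mul_of_nonneg_right (by linarith) h8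
        nlinarith [sq_nonneg (k * z)]
      · have h9 : z * (1 - k * z) ≤ 0 := mul_nonpos_of_nonneg_of_nonpos hz h8.le
        have h10 : z' = 0 := le_antisymm (by linarith) hz'
        rw [h10]
        simp
  have hJ' : (0 : ℝ) < J := by exact_mod_cast hJ
  unfold Matrix.trace
  calc ∑ x, ((walk μ s t w c) ^ (2 * J)).diag x ≤
      ∑ x, μ x * Real.exp (1 / (k * J)) := by
        refine Finset.sum_le_sum fun x _ => ?_
        rw [Matrix.diag_apply, trace_eq μ s t w hμ c J x]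
        refine mul_le_mul_of_nonneg_left ?_ (hμ x).le
        have h1 : 1 ≤ hv μ s t w c x J ⬝ᵥ hv μ s t w c x J := uv_ge_one μ s t w hμ hμ1 c x J
        rw [← Real.log_le_iff_le_exp (by linarith), le_div_iff₀ (by positivity)]
        have := hlog x J
        linarith
    _ = Real.exp (1 / (k * J)) := by
        rw [← Finset.sum_mul, hμ1, one_mul]

/-- **Counting small eigenvalues** from an inequality `energy ≥ b N (log N) ^ 2`. -/
theorem count_le_sq (μ : T → ℝ) (s t : ι → T) (w : ι → ℝ) (b : ℝ)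
    (hμ : ∀ x, 0 < μ x) (hμ1 : ∑ x, μ x = 1) (hw : ∀ e, 0 ≤ w e) (hb : 0 < b)
    (hnash : ∀ g : T → ℝ, (∀ x, 0 ≤ g x) → ∑ x, μ x * g x = 1 →
      b * ((∑ x, μ x * g x ^ 2) * Real.log (∑ x, μ x * g x ^ 2) ^ 2) ≤
        ∑ e, w e * (g (s e) - g (t e)) ^ 2)
    {η T0 : ℝ} (hT0 : 0 < T0) (F : Submodule ℝ (T → ℝ))
    (hF : ∀ f ∈ F, f ≠ 0 → ∑ e, w e * (f (s e) - f (t e)) ^ 2 ≤ η * ∑ x, μ x * f x ^ 2) :
    (Module.finrank ℝ F : ℝ) ≤ Real.exp (2 * T0 * η + 1 / (2 * b * T0)) := by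
  classical
  set D : (T → ℝ) ≃ₗ[ℝ] (T → ℝ) := LinearEquiv.piCongrRight fun x =>
    LinearEquiv.smulOfNeZero ℝ ℝ (√(μ x)) (Real.sqrt_pos.2 (hμ x)).ne' with hD
  set F' : Submodule ℝ (T → ℝ) := F.map (D : (T → ℝ) →ₗ[ℝ] (T → ℝ)) with hF'
  have hfr : Module.finrank ℝ F' = Module.finrank ℝ F := LinearEquiv.finrank_map_eq D F
  have hA : (lap μ s t w).IsSymm := by
    apply Matrix.IsSymm.ext
    intro x y
    unfold Pool.Agent.Lib.P325s.lap
    exact Finset.sum_congr rfl fun e _ => by ring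
  have hF2 : ∀ f ∈ F', f ≠ 0 → 0 < ∑ x, f x ^ 2 ∧
      ∑ x, ∑ y, f x * (lap μ s t w) x y * f y ≤ η * ∑ x, f x ^ 2 := by
    intro f hf hf0
    obtain ⟨g, hg, rfl⟩ := (Submodule.mem_map).1 hf
    have hg0 : g ≠ 0 := fun h => hf0 (by rw [h]; simp)
    constructor
    · by_contra hcon
      have h1 : ∑ x, ((D : (T → ℝ) →ₗ[ℝ] (T → ℝ)) g) x ^ 2 = 0 :=
        le_antisymm (not_lt.1 hcon) (Finset.sum_nonneg fun x _ => sq_nonneg _)
      apply hf0
      funext x
      have := (Finset.sum_eq_zero_iff_of_nonneg fun x _ => sq_nonneg _).1 h1 x (mem_univ x)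
      exact pow_eq_zero_iff two_ne_zero |>.1 this
    · have h1 := lap_quad μ s t w ((D : (T → ℝ) →ₗ[ℝ] (T → ℝ)) g)
      have h2 : ∑ x, ∑ y, ((D : (T → ℝ) →ₗ[ℝ] (T → ℝ)) g) x * (lap μ s t w) x y *
          ((D : (T → ℝ) →ₗ[ℝ] (T → ℝ)) g) y = ((D : (T → ℝ) →ₗ[ℝ] (T → ℝ)) g) ⬝ᵥ
            (lap μ s t w *ᵥ ((D : (T → ℝ) →ₗ[ℝ] (T → ℝ)) g)) := by
        unfold dotProduct Matrix.mulVec dotProduct
        refine Finset.sum_congr rfl fun x _ => ?_
        rw [Finset.mul_sum]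
        exact Finset.sum_congr rfl fun y _ => by ring
      rw [h2, h1]
      have h3 : ∀ x, ((D : (T → ℝ) →ₗ[ℝ] (T → ℝ)) g) x / √(μ x) = g x := by
        intro x
        have h4 := (Real.sqrt_pos.2 (hμ x)).ne'
        change √(μ x) * g x / √(μ x) = g x
        field_simp
      have h5 : ∀ x, ((D : (T → ℝ) →ₗ[ℝ] (T → ℝ)) g) x ^ 2 = μ x * g x ^ 2 := by
        intro x
        change (√(μ x) * g x) ^ 2 = _
        rw [mul_pow, Real.sq_sqrt (hμ x).le]
      simp only [h3, h5]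
      exact hF g hg hg0
  rw [← hfr]
  set d : ℝ := (Module.finrank ℝ F' : ℝ) with hd
  have hd0 : 0 ≤ d := Nat.cast_nonneg _
  set Λ : ℝ := lamMax μ s t w with hΛ
  have hg1 : Filter.Tendsto (fun n : ℕ => (1 + (-(T0 * η)) / (n : ℝ)) ^ n)
      Filter.atTop (nhds (Real.exp (-(T0 * η)))) :=
    Real.tendsto_one_add_div_pow_exp _
  have hL : Filter.Tendsto (fun n : ℕ => d * ((1 + (-(T0 * η)) / (n : ℝ)) ^ n) ^ 2)
      Filter.atTop (nhds (d * Real.exp (-(T0 * η)) ^ 2)) :=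
    (hg1.pow 2).const_mul d
  have hinv : Filter.Tendsto (fun n : ℕ => ((n : ℝ))⁻¹) Filter.atTop (nhds 0) :=
    tendsto_inv_atTop_nhds_zero_nat
  have hR : Filter.Tendsto (fun n : ℕ => Real.exp (1 / (2 * b * T0 * (1 - Λ * T0 / 2 * (n : ℝ)⁻¹))))
      Filter.atTop (nhds (Real.exp (1 / (2 * b * T0)))) := by
    refine (Real.continuous_exp.tendsto _).comp ?_
    have h1 : Filter.Tendsto (fun n : ℕ => 2 * b * T0 * (1 - Λ * T0 / 2 * (n : ℝ)⁻¹))
        Filter.atTop (nhds (2 * b * T0 * (1 - Λ * T0 / 2 * 0))) :=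
      (tendsto_const_nhds.sub (hinv.const_mul _)).const_mul _
    rw [mul_zero, sub_zero, mul_one] at h1
    exact Filter.Tendsto.div tendsto_const_nhds h1 (by positivity)
  have hc : Filter.Tendsto (fun n : ℕ => (n : ℝ) / T0) Filter.atTop Filter.atTop :=
    tendsto_natCast_atTop_atTop.atTop_div_const hT0
  have hev : ∀ᶠ n : ℕ in Filter.atTop,
      d * ((1 + (-(T0 * η)) / (n : ℝ)) ^ n) ^ 2 ≤
        Real.exp (1 / (2 * b * T0 * (1 - Λ * T0 / 2 * (n : ℝ)⁻¹))) := by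
    filter_upwards [hc.eventually_ge_atTop Λ,
      hc.eventually_ge_atTop η, hc.eventually_gt_atTop 0, Filter.eventually_gt_atTop 0] with
      n h1 h3 h4 h5
    have hn' : (n : ℝ) ≠ 0 := by exact_mod_cast h5.ne'
    have h6 := trace_walk_le_sq μ s t w b hμ hμ1 hw hb hnash h4 h1 h5
    have h7 := trace_ge (lap μ s t w) hA h4 h3 F' hF2 n
    have e1 : 1 + (-(T0 * η)) / (n : ℝ) = 1 - η / ((n : ℝ) / T0) := by
      field_simp
      try ring
    have e2 : 2 * b * T0 * (1 - Λ * T0 / 2 * (n : ℝ)⁻¹) =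
        (2 * b / ((n : ℝ) / T0) * (1 - Λ / (2 * ((n : ℝ) / T0)))) * n := by
      field_simp
      try ring
    rw [e1, e2, ← pow_mul, mul_comm n 2]
    exact h7.trans h6
  have hlim := le_of_tendsto_of_tendsto hL hR hev
  have hexp : Real.exp (-(T0 * η)) ^ 2 * Real.exp (2 * T0 * η) = 1 := by
    rw [← Real.exp_nat_mul, ← Real.exp_add, ← Real.exp_zero]
    congr 1
    push_cast
    ring
  calc d = d * Real.exp (-(T0 * η)) ^ 2 * Real.exp (2 * T0 * η) := by
        rw [mul_assoc, hexp, mul_one]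
    _ ≤ Real.exp (1 / (2 * b * T0)) * Real.exp (2 * T0 * η) :=
        mul_le_mul_of_nonneg_right hlim (Real.exp_pos _).le
    _ = _ := by rw [← Real.exp_add, add_comm]

end P325qz
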