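import Mathlib
import Pool.Agent.Lib.P325q.Defs
import Pool.Agent.Lib.P325s.FuncA

/-!
P325qz.SetNash (MP_325f1f_lc, helper24): a partition of the vertices into sets that minimises
`cut + lam * entropy`; its parts satisfy an isoperimetric inequality, hence
`energy ≥ (lam ^ 2 / 16) N (log N) ^ 2`.
-/

namespace P325qz

open Finset Real
open Pool.Agent.Lib.P325s (cutEn ent Psi)

variable {V ι : Type} [Fintype V] [DecidableEq V] [Fintype ι]

/-- The indicator function of a set. -/
noncomputable def ind (S : Finset V) (x : V) : ℝ := if x ∈ S then 1 else 0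

theorem ind_of_mem {S : Finset V} {x : V} (h : x ∈ S) : ind S x = 1 := if_pos h

theorem ind_of_not_mem {S : Finset V} {x : V} (h : x ∉ S) : ind S x = 0 := if_neg h

theorem ind_nonneg (S : Finset V) (x : V) : 0 ≤ ind S x := by
  unfold ind; split_ifs <;> norm_num

/-- the weight of the edges inside `A` between `S` and `A \ S` -/
theorem cut_split (s t : ι → V) (w : ι → ℝ) {S A : Finset V} (hS : S ⊆ A) :
    cutEn s t w (ind (A \ S)) + cutEn s t w (ind S) - cutEn s t w (ind A) =
      2 * ∑ e, w e * (if s e ∈ A ∧ t e ∈ A then |ind S (s e) - ind S (t e)| else 0) := by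
  unfold Pool.Agent.Lib.P325s.cutEn
  rw [← Finset.sum_add_distrib, ← Finset.sum_sub_distrib, Finset.mul_sum]
  refine Finset.sum_congr rfl fun e _ => ?_
  by_cases h1 : s e ∈ S <;> by_cases h2 : t e ∈ S <;> by_cases h3 : s e ∈ A <;>
    by_cases h4 : t e ∈ A
  all_goals
    first
    | exact absurd (hS h1) h3
    | exact absurd (hS h2) h4
    | simp [ind, h1, h2, h3, h4]
      try ring

theorem ent_split {p : V → ℝ} (hp : ∀ x, 0 ≤ p x) {S A : Finset V} (hS : S ⊆ A) :
    ent p (ind (A \ S)) + ent p (ind S) - ent p (ind A) ≤
      -((∑ x, p x * ind S x) * Real.log ((∑ x, p x * ind A x) / ∑ x, p x * ind S x)) := by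
  set b : ℝ := ∑ x, p x * ind S x with hb
  set m : ℝ := ∑ x, p x * ind A x with hm
  have hsub : ∀ x, ind (A \ S) x = ind A x - ind S x := by
    intro x
    by_cases h1 : x ∈ S
    · simp [ind, h1, hS h1]
    · by_cases h2 : x ∈ A <;> simp [ind, h1, h2]
  have hmb : ∑ x, p x * ind (A \ S) x = m - b := by
    simp only [hsub, mul_sub, Finset.sum_sub_distrib]
    rfl
  have hb0 : 0 ≤ b := Finset.sum_nonneg fun x _ => mul_nonneg (hp x) (ind_nonneg S x)
  have hmb0 : 0 ≤ m - b := by
    rw [← hmb]
    exact Finset.sum_nonneg fun x _ => mul_nonneg (hp x) (ind_nonneg _ x)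
  have h1 : ∀ x, Real.negMulLog (p x * ind (A \ S) x) + Real.negMulLog (p x * ind S x) -
      Real.negMulLog (p x * ind A x) = 0 := by
    intro x
    by_cases h1 : x ∈ S
    · simp [ind, h1, hS h1]
    · by_cases h2 : x ∈ A <;> simp [ind, h1, h2]
  have h2 : ent p (ind (A \ S)) + ent p (ind S) - ent p (ind A) =
      Real.negMulLog m - Real.negMulLog b - Real.negMulLog (m - b) := by
    unfold Pool.Agent.Lib.P325s.ent
    rw [hmb, ← hb, ← hm]
    have h3 : ∑ x, Real.negMulLog (p x * ind (A \ S) x) + ∑ x, Real.negMulLog (p x * ind S x) -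
        ∑ x, Real.negMulLog (p x * ind A x) = 0 := by
      rw [← Finset.sum_add_distrib, ← Finset.sum_sub_distrib]
      exact Finset.sum_eq_zero fun x _ => h1 x
    linarith
  rw [h2]
  rcases hb0.eq_or_lt with hb1 | hb1
  · rw [← hb1]
    simp
  · have hm0 : 0 < m := by linarith
    rw [Real.log_div hm0.ne' hb1.ne']
    unfold Real.negMulLog
    rcases hmb0.eq_or_lt with h4 | h4
    · have h5 : m = b := by linarith
      rw [h5]
      simp
    · have h5 : Real.log (m - b) ≤ Real.log m := Real.log_le_log h4 (by linarith)
      nlinarith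

/-- **Isoperimetric inequality**: layer cake form. -/
theorem layer (s t : ι → V) {w : ι → ℝ} (hw : ∀ e, 0 ≤ w e) {p : V → ℝ} (hp : ∀ x, 0 ≤ p x)
    {A : Finset V} {lam : ℝ} (hlam : 0 ≤ lam)
    (hiso : ∀ S ⊆ A, lam * ((∑ x, p x * ind S x) *
      Real.log ((∑ x, p x * ind A x) / ∑ x, p x * ind S x)) ≤
      2 * ∑ e, w e * (if s e ∈ A ∧ t e ∈ A then |ind S (s e) - ind S (t e)| else 0))
    (φ : V → ℝ) : ∀ (k : ℕ) (F : V → ℝ), (univ.filter fun x => F x ≠ 0).card ≤ k →
      (∀ x, 0 ≤ F x) → (∀ x, x ∉ A → F x = 0) →
      ∑ x, (if F x ≠ 0 then p x * Real.exp (φ x) else 0) ≤ ∑ x, p x * ind A x →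
      lam * ∑ x, p x * F x * φ x ≤
        2 * ∑ e, w e * (if s e ∈ A ∧ t e ∈ A then |F (s e) - F (t e)| else 0) := by
  set m : ℝ := ∑ x, p x * ind A x with hm
  have hm0 : 0 ≤ m := Finset.sum_nonneg fun x _ => mul_nonneg (hp x) (ind_nonneg _ x)
  intro k
  induction k with
  | zero =>
    intro F hF _ _ _
    have h1 : ∀ x, F x = 0 := by
      intro x
      by_contra hx
      have : x ∈ univ.filter fun x => F x ≠ 0 := by simp [hx]
      rw [Finset.card_eq_zero.1 (Nat.le_zero.1 hF)] at this
      simp at this
    simp [h1]
  | succ k ih =>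
    intro F hcard hF0 hFA hφ
    set S : Finset V := univ.filter fun x => F x ≠ 0 with hS
    have hSm : ∀ x, x ∈ S ↔ F x ≠ 0 := fun x => by simp [hS]
    have hSA : S ⊆ A := by
      intro x hx
      by_contra h
      exact (hSm x).1 hx (hFA x h)
    rcases S.eq_empty_or_nonempty with he | hne
    · have h1 : ∀ x, F x = 0 := by
        intro x
        by_contra hx
        have : x ∈ S := (hSm x).2 hx
        rw [he] at this
        simp at this
      simp [h1]
    · obtain ⟨x0, hx0, hmin⟩ := Finset.exists_min_image S F hne
      set τ : ℝ := F x0 with hτ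
      have hτ0 : 0 < τ := lt_of_le_of_ne (hF0 x0) (Ne.symm ((hSm x0).1 hx0))
      set F' : V → ℝ := fun x => F x - τ * ind S x with hF'
      have hin : ∀ x, x ∈ S → F' x = F x - τ := fun x hx => by
        simp only [hF', ind_of_mem hx, mul_one]
      have hout : ∀ x, x ∉ S → F' x = 0 ∧ F x = 0 := by
        intro x hx
        have h1 : F x = 0 := by
          by_contra h
          exact hx ((hSm x).2 h)
        exact ⟨by simp only [hF', ind_of_not_mem hx, h1]; ring, h1⟩
      have hF'0 : ∀ x, 0 ≤ F' x := by
        intro x
        by_cases hx : x ∈ S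
        · rw [hin x hx]
          have := hmin x hx
          linarith
        · rw [(hout x hx).1]
      have hcard' : (univ.filter fun x => F' x ≠ 0).card ≤ k := by
        have h1 : (univ.filter fun x => F' x ≠ 0) ⊂ S := by
          rw [Finset.ssubset_iff_of_subset]
          · refine ⟨x0, hx0, ?_⟩
            simp only [mem_filter, mem_univ, true_and, not_not]
            rw [hin x0 hx0]
            ring
          · intro x hx
            rw [mem_filter] at hx
            by_contra h
            exact hx.2 (hout x h).1
        have := Finset.card_lt_card h1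
        omega
      have hφ' : ∑ x, (if F' x ≠ 0 then p x * Real.exp (φ x) else 0) ≤ m := by
        refine le_trans (Finset.sum_le_sum fun x _ => ?_) hφ
        by_cases hx : x ∈ S
        · rw [if_pos ((hSm x).1 hx)]
          split_ifs
          · exact le_rfl
          · exact mul_nonneg (hp x) (Real.exp_pos _).le
        · rw [if_neg (not_not.2 (hout x hx).1), if_neg (not_not.2 (hout x hx).2)]
      have h1 := ih F' hcard' hF'0 (fun x hx => (hout x (fun h => hx (hSA h))).1) hφ'
      -- the layer
      have h2 := hiso S hSA
      set b : ℝ := ∑ x, p x * ind S x with hb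
      have hb0 : 0 ≤ b := Finset.sum_nonneg fun x _ => mul_nonneg (hp x) (ind_nonneg _ x)
      have h3 : ∑ x, p x * ind S x * φ x ≤ b * Real.log (m / b) := by
        rcases hb0.eq_or_lt with hb1 | hb1
        · have hz : ∀ x, p x * ind S x = 0 := fun x =>
            (Finset.sum_eq_zero_iff_of_nonneg fun x _ =>
              mul_nonneg (hp x) (ind_nonneg S x)).1 hb1.symm x (mem_univ x)
          rw [← hb1]
          simp [hz]
        · have hbm : b ≤ m := by
            refine Finset.sum_le_sum fun x _ => mul_le_mul_of_nonneg_left ?_ (hp x)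
            by_cases hx : x ∈ S
            · rw [ind_of_mem hx, ind_of_mem (hSA hx)]
            · rw [ind_of_not_mem hx]
              exact ind_nonneg _ _
          have hm1 : 0 < m := by linarith
          have h4 : ∑ x, p x * ind S x * φ x ≤ ∑ x, (p x * ind S x * (Real.log (m / b) - 1) +
              b / m * (if F x ≠ 0 then p x * Real.exp (φ x) else 0)) := by
            refine Finset.sum_le_sum fun x _ => ?_
            by_cases hx : x ∈ S
            · rw [ind_of_mem hx, if_pos ((hSm x).1 hx), mul_one]
              have h5 := Real.add_one_le_exp (φ x - Real.log (m / b))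
              rw [Real.exp_sub, Real.exp_log (by positivity)] at h5
              have h6 : φ x ≤ (Real.log (m / b) - 1) + Real.exp (φ x) / (m / b) := by linarith
              have h7 := mul_le_mul_of_nonneg_left h6 (hp x)
              refine h7.trans (le_of_eq ?_)
              field_simp
            · rw [ind_of_not_mem hx, if_neg (not_not.2 (hout x hx).2)]
              simp
          rw [Finset.sum_add_distrib, ← Finset.sum_mul, ← Finset.mul_sum, ← hb] at h4
          have h5 : b / m * ∑ x, (if F x ≠ 0 then p x * Real.exp (φ x) else 0) ≤ b / m * m :=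
            mul_le_mul_of_nonneg_left hφ (by positivity)
          have h6 : b / m * m = b := by field_simp
          rw [h6] at h5
          linarith
      have h4 : lam * ∑ x, p x * ind S x * φ x ≤
          2 * ∑ e, w e * (if s e ∈ A ∧ t e ∈ A then |ind S (s e) - ind S (t e)| else 0) :=
        (mul_le_mul_of_nonneg_left h3 hlam).trans h2
      have h5 : lam * ∑ x, p x * F x * φ x =
          lam * ∑ x, p x * F' x * φ x + τ * (lam * ∑ x, p x * ind S x * φ x) := by
        have h6 : ∑ x, p x * F x * φ x =
            ∑ x, p x * F' x * φ x + τ * ∑ x, p x * ind S x * φ x := by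
          rw [Finset.mul_sum, ← Finset.sum_add_distrib]
          refine Finset.sum_congr rfl fun x _ => ?_
          simp only [hF']
          ring
        rw [h6]
        ring
      have h6 : ∑ e, w e * (if s e ∈ A ∧ t e ∈ A then |F (s e) - F (t e)| else 0) =
          ∑ e, w e * (if s e ∈ A ∧ t e ∈ A then |F' (s e) - F' (t e)| else 0) +
          τ * ∑ e, w e * (if s e ∈ A ∧ t e ∈ A then |ind S (s e) - ind S (t e)| else 0) := by
        rw [Finset.mul_sum, ← Finset.sum_add_distrib]
        refine Finset.sum_congr rfl fun e _ => ?_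
        by_cases h7 : s e ∈ A ∧ t e ∈ A
        · rw [if_pos h7, if_pos h7, if_pos h7]
          have h8 : |F (s e) - F (t e)| = |F' (s e) - F' (t e)| +
              τ * |ind S (s e) - ind S (t e)| := by
            by_cases hs : s e ∈ S <;> by_cases ht : t e ∈ S
            · rw [hin _ hs, hin _ ht, ind_of_mem hs, ind_of_mem ht]
              simp
            · rw [hin _ hs, (hout _ ht).1, (hout _ ht).2, ind_of_mem hs, ind_of_not_mem ht]
              have := hmin _ hs
              simp only [sub_zero, abs_one, mul_one]
              rw [abs_of_nonneg (hF0 _), abs_of_nonneg (by linarith)]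
              ring
            · rw [hin _ ht, (hout _ hs).1, (hout _ hs).2, ind_of_mem ht, ind_of_not_mem hs]
              have := hmin _ ht
              simp only [zero_sub, abs_neg, abs_one, mul_one]
              rw [abs_of_nonneg (hF0 _), abs_of_nonneg (by linarith)]
              ring
            · rw [(hout _ hs).1, (hout _ hs).2, (hout _ ht).1, (hout _ ht).2,
                ind_of_not_mem hs, ind_of_not_mem ht]
              simp
          rw [h8]
          ring
        · rw [if_neg h7, if_neg h7, if_neg h7]
          ring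
      rw [h5, h6]
      have h7 := mul_le_mul_of_nonneg_left h4 hτ0.le
      linarith

end P325qz
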