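import Mathlib
import Pool.Agent.Lib.P325q.Defs
import Pool.Agent.Lib.P325qz.Spec

/-!
P325qz.Slow (MP_325f1f_lc, helper24): the space of the eigenvectors of a part with eigenvalue at
most `η` is slow, and it captures `1 - energy / (η mass)` of every function.
-/

namespace P325qz

open Finset Real Matrix
open Pool.Agent.Lib.P325q (density mass energy IsSlow)

theorem density_nonneg {V ι : Type} [DecidableEq V] [Fintype ι] (s t : ι → V) {w : ι → ℝ}
    (hw : ∀ e, 0 ≤ w e) (x : V) : 0 ≤ density s t w x := by
  unfold density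
  refine div_nonneg (Finset.sum_nonneg fun e _ => mul_nonneg (hw e) ?_) (by norm_num)
  split_ifs <;> norm_num

theorem density_pos {V ι : Type} [DecidableEq V] [Fintype ι] (s t : ι → V) {w : ι → ℝ}
    (hw : ∀ e, 0 ≤ w e) {e : ι} (he : 0 < w e) {x : V} (hx : s e = x ∨ t e = x) :
    0 < density s t w x := by
  unfold density
  refine div_pos (Finset.sum_pos' (fun e _ => mul_nonneg (hw e) ?_) ⟨e, mem_univ _, ?_⟩)
    (by norm_num)
  · split_ifs <;> norm_num
  · refine mul_pos he ?_
    rcases hx with h | h
    · rw [if_pos h]; split_ifs <;> norm_num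
    · rw [if_pos h]; split_ifs <;> norm_num

/-- **The slow space of a part.** -/
theorem exists_slow {V ι : Type} [Fintype V] [DecidableEq V] [Fintype ι] (s t : ι → V)
    {w : ι → ℝ} (hw : ∀ e, 0 ≤ w e) {σ : V → ℝ} (hσ : ∀ x, 0 ≤ σ x) {η : ℝ} (hη : 0 < η) :
    ∃ (R : ℕ) (F : Submodule ℝ (V → ℝ)) (h : Fin R → V → ℝ),
      Module.finrank ℝ F = R ∧ IsSlow s t w σ η F ∧
      (∀ g : V → ℝ, ∑ r, (∑ x, density s t w x * σ x * h r x * g x) ^ 2 ≤ mass s t w σ g) ∧
      (∀ g : V → ℝ, mass s t w σ g - energy s t w σ g / η ≤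
        ∑ r, (∑ x, density s t w x * σ x * h r x * g x) ^ 2) := by
  classical
  set m : V → ℝ := fun x => density s t w x * σ x with hm
  have hm0 : ∀ x, 0 ≤ m x := fun x => mul_nonneg (density_nonneg s t hw x) (hσ x)
  set q : V → ℝ := fun x => √(m x) with hq
  have hqq : ∀ x, q x * q x = m x := fun x => Real.mul_self_sqrt (hm0 x)
  have hq0 : ∀ x, m x ≠ 0 → q x ≠ 0 := fun x hx h => hx (by rw [← hqq x, h, mul_zero])
  have hqz : ∀ x, m x = 0 → q x = 0 := fun x hx => by simp only [hq, hx, Real.sqrt_zero]
  set c : ι → ℝ := fun e => w e * √(σ (s e) * σ (t e)) with hc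
  have hc0 : ∀ e, 0 ≤ c e := fun e => mul_nonneg (hw e) (Real.sqrt_nonneg _)
  have hcm : ∀ e, c e ≠ 0 → m (s e) ≠ 0 ∧ m (t e) ≠ 0 := by
    intro e he
    have hwe : w e ≠ 0 := left_ne_zero_of_mul he
    have hwe' : 0 < w e := lt_of_le_of_ne (hw e) (Ne.symm hwe)
    have hs : σ (s e) * σ (t e) ≠ 0 := fun h => right_ne_zero_of_mul he (by rw [h, Real.sqrt_zero])
    exact ⟨mul_ne_zero (density_pos s t hw hwe' (Or.inl rfl)).ne' (left_ne_zero_of_mul hs),
      mul_ne_zero (density_pos s t hw hwe' (Or.inr rfl)).ne' (right_ne_zero_of_mul hs)⟩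
  set D : ι → V → ℝ := fun e x =>
    (if s e = x then (q (s e))⁻¹ else 0) - (if t e = x then (q (t e))⁻¹ else 0) with hD
  have hDsum : ∀ e (f : V → ℝ), ∑ x, D e x * f x = (q (s e))⁻¹ * f (s e) - (q (t e))⁻¹ * f (t e) := by
    intro e f
    simp only [hD, sub_mul, Finset.sum_sub_distrib, ite_mul, zero_mul]
    simp
  set pen : V → ℝ := fun x => if m x = 0 then η + 1 else 0 with hpen
  have hpen0 : ∀ x, 0 ≤ pen x := fun x => by simp only [hpen]; split_ifs <;> linarith
  set A : Matrix V V ℝ := fun x y => ∑ e, c e * D e x * D e y + if x = y then pen x else 0 with hA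
  have hAs : A.IsSymm := by
    apply Matrix.IsSymm.ext
    intro x y
    simp only [hA]
    congr 1
    · exact Finset.sum_congr rfl fun e _ => by ring
    · by_cases h : x = y
      · rw [h]
      · rw [if_neg h, if_neg (Ne.symm h)]
  have hAf : ∀ (f : V → ℝ) x, ∑ y, A x y * f y =
      ∑ e, c e * D e x * (∑ y, D e y * f y) + pen x * f x := by
    intro f x
    simp only [hA, add_mul, Finset.sum_add_distrib]
    congr 1
    · simp only [Finset.sum_mul, Finset.mul_sum]
      rw [Finset.sum_comm]
      exact Finset.sum_congr rfl fun e _ => Finset.sum_congr rfl fun y _ => by ring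
    · simp
  have hquad : ∀ f : V → ℝ, ∑ x, ∑ y, f x * A x y * f y =
      ∑ e, c e * (∑ x, D e x * f x) ^ 2 + ∑ x, pen x * f x ^ 2 := by
    intro f
    have e1 : ∀ x, ∑ y, f x * A x y * f y = f x * ∑ y, A x y * f y := by
      intro x
      rw [Finset.mul_sum]
      exact Finset.sum_congr rfl fun y _ => by ring
    rw [Finset.sum_congr rfl fun x _ => e1 x]
    simp only [hAf, mul_add, Finset.sum_add_distrib]
    congr 1
    · simp only [Finset.mul_sum]
      rw [Finset.sum_comm]
      refine Finset.sum_congr rfl fun e _ => ?_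
      rw [sq, Finset.sum_mul_sum, Finset.mul_sum]
      refine Finset.sum_congr rfl fun x _ => ?_
      rw [Finset.mul_sum]
      exact Finset.sum_congr rfl fun y _ => by ring
    · exact Finset.sum_congr rfl fun x _ => by ring
  obtain ⟨φ, lam, hon, hpars, heig, hform⟩ := spectral A hAs
  have hlam0 : ∀ k, 0 ≤ lam k := by
    intro k
    have e1 := hform (φ k)
    rw [hquad] at e1
    simp only [hon] at e1
    have e2 : ∑ l, lam l * (if l = k then (1 : ℝ) else 0) ^ 2 = lam k := by simp
    rw [e2] at e1
    rw [← e1]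
    exact add_nonneg (Finset.sum_nonneg fun e _ => mul_nonneg (hc0 e) (sq_nonneg _))
      (Finset.sum_nonneg fun x _ => mul_nonneg (hpen0 x) (sq_nonneg _))
  -- slow eigenvectors vanish off the support
  have hoff : ∀ k x, lam k ≤ η → m x = 0 → φ k x = 0 := by
    intro k x hk hx
    have e1 := heig k x
    rw [hAf] at e1
    have e2 : ∑ e, c e * D e x * (∑ y, D e y * φ k y) = 0 := by
      refine Finset.sum_eq_zero fun e _ => ?_
      by_cases he : c e = 0
      · rw [he]; ring
      · have h1 := hcm e he
        have h2 : s e ≠ x := fun h => h1.1 (by rw [h]; exact hx)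
        have h3 : t e ≠ x := fun h => h1.2 (by rw [h]; exact hx)
        have h4 : D e x = 0 := by simp only [hD]; rw [if_neg h2, if_neg h3, sub_zero]
        rw [h4]; ring
    rw [e2, zero_add] at e1
    have h5 : pen x = η + 1 := by simp only [hpen]; rw [if_pos hx]
    rw [h5] at e1
    have h6 : (η + 1 - lam k) * φ k x = 0 := by linarith
    rcases mul_eq_zero.1 h6 with h | h
    · linarith
    · exact h
  -- energy of functions
  have henergy : ∀ g : V → ℝ, energy s t w σ g =
      ∑ k, lam k * (∑ x, φ k x * (q x * g x)) ^ 2 := by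
    intro g
    rw [← hform, hquad]
    have e1 : ∑ x, pen x * (q x * g x) ^ 2 = 0 := by
      refine Finset.sum_eq_zero fun x _ => ?_
      by_cases hx : m x = 0
      · rw [hqz x hx]; ring
      · simp only [hpen]; rw [if_neg hx, zero_mul]
    rw [e1, add_zero]
    unfold energy
    refine Finset.sum_congr rfl fun e _ => ?_
    rw [hDsum]
    by_cases he : c e = 0
    · rw [he, zero_mul, ← mul_assoc]
      change c e * _ = 0
      rw [he, zero_mul]
    · have h1 := hcm e he
      have h2 := hq0 _ h1.1
      have h3 := hq0 _ h1.2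
      rw [← mul_assoc]
      change c e * _ = _
      congr 2
      rw [inv_mul_cancel_left₀ h2, inv_mul_cancel_left₀ h3]
  have hmass : ∀ g : V → ℝ, mass s t w σ g = ∑ k, (∑ x, φ k x * (q x * g x)) ^ 2 := by
    intro g
    rw [hpars fun x => q x * g x]
    unfold mass
    refine Finset.sum_congr rfl fun x _ => ?_
    change m x * g x ^ 2 = _
    rw [← hqq x]
    ring
  -- the slow indices
  set R : ℕ := Fintype.card {k // lam k ≤ η} with hR
  set en : {k // lam k ≤ η} ≃ Fin R := Fintype.equivFin _ with hen
  set kk : Fin R → V := fun r => (en.symm r).1 with hkk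
  have hkk1 : ∀ r, lam (kk r) ≤ η := fun r => (en.symm r).2
  have hkinj : Function.Injective kk := fun r r' h => by
    exact en.symm.injective (Subtype.ext h)
  have hkey : ∀ (G : V → ℝ), ∑ r, G (kk r) = ∑ k, if lam k ≤ η then G k else 0 := by
    intro G
    rw [← Finset.sum_filter]
    rw [Equiv.sum_comp en.symm (fun k : {k // lam k ≤ η} => G k.1)]
    exact (Finset.sum_subtype (univ.filter fun k => lam k ≤ η) (by simp) G).symm
  set h : Fin R → V → ℝ := fun r x => φ (kk r) x / q x with hh
  have hLam : ∀ r (g : V → ℝ), ∑ x, density s t w x * σ x * h r x * g x =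
      ∑ x, φ (kk r) x * (q x * g x) := by
    intro r g
    refine Finset.sum_congr rfl fun x _ => ?_
    change m x * (φ (kk r) x / q x) * g x = _
    by_cases hx : m x = 0
    · rw [hx, hqz x hx]; ring
    · have h2 := hq0 x hx
      rw [← hqq x]
      field_simp
  have hqh : ∀ r x, q x * h r x = φ (kk r) x := by
    intro r x
    simp only [hh]
    by_cases hx : m x = 0
    · rw [hqz x hx, hoff _ x (hkk1 r) hx]; ring
    · have h2 := hq0 x hx
      field_simp
  -- functions in the span
  have hspan : ∀ a : Fin R → ℝ, ∀ x, q x * (∑ r, a r • h r) x = ∑ r, a r * φ (kk r) x := by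
    intro a x
    rw [Finset.sum_apply, Finset.mul_sum]
    refine Finset.sum_congr rfl fun r _ => ?_
    rw [Pi.smul_apply, smul_eq_mul, ← hqh r x]
    ring
  have hcoef : ∀ (a : Fin R → ℝ) k, ∑ x, φ k x * (q x * (∑ r, a r • h r) x) =
      ∑ r, a r * (if k = kk r then 1 else 0) := by
    intro a k
    simp only [hspan, Finset.mul_sum]
    rw [Finset.sum_comm]
    refine Finset.sum_congr rfl fun r _ => ?_
    rw [← hon, Finset.mul_sum]
    exact Finset.sum_congr rfl fun x _ => by ring
  have hli : LinearIndependent ℝ h := by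
    rw [Fintype.linearIndependent_iff]
    intro a ha r
    have e1 := hcoef a (kk r)
    rw [ha] at e1
    simp only [Pi.zero_apply, mul_zero, Finset.sum_const_zero] at e1
    have e2 : ∑ r', a r' * (if kk r = kk r' then (1 : ℝ) else 0) = a r := by
      rw [Finset.sum_eq_single r]
      · simp
      · intro r' _ hr'
        rw [if_neg fun hc => hr' (hkinj hc).symm, mul_zero]
      · intro hr; exact absurd (mem_univ r) hr
    rw [e2] at e1
    exact e1.symm
  refine ⟨R, Submodule.span ℝ (Set.range h), h, ?_, ?_, ?_, ?_⟩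
  · rw [finrank_span_eq_card hli, Fintype.card_fin]
  · intro f hf hf0
    obtain ⟨a, ha⟩ := (Submodule.mem_span_range_iff_exists_fun ℝ).1 hf
    have hb : ∀ k, (∑ x, φ k x * (q x * f x)) ≠ 0 → lam k ≤ η := by
      intro k hk
      rw [← ha, hcoef] at hk
      obtain ⟨r, -, hr⟩ := Finset.exists_ne_zero_of_sum_ne_zero hk
      by_cases h1 : k = kk r
      · rw [h1]; exact hkk1 r
      · rw [if_neg h1, mul_zero] at hr
        exact absurd rfl hr
    constructor
    · have h1 : 0 ≤ mass s t w σ f := by
        rw [hmass]; exact Finset.sum_nonneg fun k _ => sq_nonneg _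
      refine lt_of_le_of_ne h1 fun h2 => hf0 ?_
      -- mass zero forces f = 0
      have h3 : ∑ x, (q x * f x) ^ 2 = 0 := by
        rw [← hpars, ← hmass]; exact h2.symm
      have h4 : ∀ x, q x * f x = 0 := by
        intro x
        have := (Finset.sum_eq_zero_iff_of_nonneg fun x _ => sq_nonneg (q x * f x)).1 h3 x
          (mem_univ x)
        exact pow_eq_zero_iff (two_ne_zero) |>.1 this
      funext x
      by_cases hx : m x = 0
      · rw [← ha, Finset.sum_apply]
        refine Finset.sum_eq_zero fun r _ => ?_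
        rw [Pi.smul_apply, smul_eq_mul]
        simp only [hh]
        rw [hoff _ x (hkk1 r) hx, zero_div, mul_zero]
      · exact (mul_eq_zero.1 (h4 x)).resolve_left (hq0 x hx)
    · rw [henergy, hmass, Finset.mul_sum]
      refine Finset.sum_le_sum fun k _ => ?_
      by_cases h1 : (∑ x, φ k x * (q x * f x)) = 0
      · rw [h1]; simp
      · exact mul_le_mul_of_nonneg_right (hb k h1) (sq_nonneg _)
  · intro g
    rw [hmass]
    simp only [hLam]
    rw [hkey fun k => (∑ x, φ k x * (q x * g x)) ^ 2]
    refine Finset.sum_le_sum fun k _ => ?_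
    split_ifs
    · exact le_rfl
    · exact sq_nonneg _
  · intro g
    simp only [hLam]
    rw [hkey fun k => (∑ x, φ k x * (q x * g x)) ^ 2, hmass, henergy, Finset.sum_div,
      ← Finset.sum_sub_distrib]
    refine Finset.sum_le_sum fun k _ => ?_
    set z : ℝ := (∑ x, φ k x * (q x * g x)) ^ 2 with hz
    have hz0 : 0 ≤ z := sq_nonneg _
    split_ifs with h1
    · have : 0 ≤ lam k * z / η := div_nonneg (mul_nonneg (hlam0 k) hz0) hη.le
      linarith
    · rw [not_le] at h1
      have : z ≤ lam k * z / η := by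
        rw [le_div_iff₀ hη]
        nlinarith
      linarith

end P325qz
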