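import Mathlib
import Pool.Agent.Lib.P325q.Defs
import Pool.Agent.Lib.P325qz.Slow
import Pool.Agent.Lib.P325qz.Count
import Pool.Agent.Lib.P325s.Soft
import Pool.Agent.Lib.P325u.Part

/-!
P325qz.Upper24 (MP_325f1f_lc, helper24): the decomposition theorem with exponent
`x (1 + log (1 / x))`.
-/

namespace P325qz

open Finset Real
open Pool.Agent.Lib.P325q (density mass energy IsSlow IsFracPartition cutEnergy)
open Pool.Agent.Lib.P325s (soft_decomposition cutEn)
open Pool.Agent.Lib.P325u (nash_restrict sum_subtype_eq)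

/-- The number of small eigenvalues of a part that satisfies a Nash type inequality. -/
theorem part_count {V ι : Type} [Fintype V] [DecidableEq V] [Nonempty V] [Fintype ι]
    (s t : ι → V) (W : ι → ℝ) (hW : ∀ e, 0 ≤ W e) (p : V → ℝ) (hp : ∀ x, 0 ≤ p x)
    (hWp : ∀ e, W e ≠ 0 → 0 < p (s e) ∧ 0 < p (t e)) (ρ : V → ℝ) (hρ : ∀ x, 0 ≤ ρ x)
    (lam : ℝ) (hlam : 0 ≤ lam)
    (hnash : ∀ g : V → ℝ, (∀ x, 0 ≤ g x) → ∑ x, p x * ρ x * g x = ∑ x, p x * ρ x →
      lam * ((∑ x, p x * ρ x * g x ^ 2) *
        Real.log ((∑ x, p x * ρ x * g x ^ 2) / ∑ x, p x * ρ x)) ≤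
      ∑ e, W e * (√(ρ (s e) * ρ (t e)) * (g (s e) - g (t e)) ^ 2))
    {η T0 : ℝ} (hT0 : 0 < T0) (F : Submodule ℝ (V → ℝ))
    (hF : ∀ f ∈ F, f ≠ 0 → 0 < ∑ x, p x * ρ x * f x ^ 2 ∧
      ∑ e, W e * (√(ρ (s e) * ρ (t e)) * (f (s e) - f (t e)) ^ 2) ≤
        η * ∑ x, p x * ρ x * f x ^ 2) :
    (Module.finrank ℝ F : ℝ) ≤
      (Fintype.card V : ℝ) ^ Real.exp (-(2 * lam * T0)) * Real.exp (2 * T0 * η) := by
  classical
  have hmul : ∀ x, ¬ 0 < p x * ρ x → p x * ρ x = 0 := fun x h =>
    le_antisymm (not_lt.1 h) (mul_nonneg (hp x) (hρ x))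
  have hR0 : 0 ≤ (Fintype.card V : ℝ) ^ Real.exp (-(2 * lam * T0)) * Real.exp (2 * T0 * η) := by
    positivity
  rcases (Finset.sum_nonneg fun x (_ : x ∈ univ) => mul_nonneg (hp x) (hρ x)).eq_or_lt with
    hm | hm
  · -- no mass
    have hz : ∀ x, p x * ρ x = 0 := fun x =>
      (Finset.sum_eq_zero_iff_of_nonneg fun x _ => mul_nonneg (hp x) (hρ x)).1 hm.symm x
        (mem_univ x)
    have hbot : F = ⊥ := by
      rw [Submodule.eq_bot_iff]
      intro f hf
      by_contra hne
      have h1 := (hF f hf hne).1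
      simp only [hz, zero_mul, Finset.sum_const_zero] at h1
      exact lt_irrefl _ h1
    rw [hbot, finrank_bot]
    simpa using hR0
  · set m : ℝ := ∑ x, p x * ρ x with hmdef
    let T := {x : V // 0 < p x * ρ x}
    let ι' := {e : ι // 0 < p (s e) * ρ (s e) ∧ 0 < p (t e) * ρ (t e)}
    let μ : T → ℝ := fun x => p x * ρ x / m
    let s' : ι' → T := fun e => ⟨s e, e.2.1⟩
    let t' : ι' → T := fun e => ⟨t e, e.2.2⟩
    let w' : ι' → ℝ := fun e => W e * √(ρ (s e) * ρ (t e)) / m
    have hμpos : ∀ x, 0 < μ x := fun x => div_pos x.2 hm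
    have hμ1 : ∑ x, μ x = 1 := by
      have h1 := sum_subtype_eq (fun x => 0 < p x * ρ x) (fun x => p x * ρ x / m)
        (fun x h => by rw [hmul x h, zero_div])
      rw [← h1, ← Finset.sum_div, div_self hm.ne']
    have hTne : Nonempty T := by
      by_contra hne
      rw [not_nonempty_iff] at hne
      have : ∑ x, μ x = 0 := by
        rw [Finset.univ_eq_empty, Finset.sum_empty]
      rw [hμ1] at this
      exact one_ne_zero this
    have hw' : ∀ e, 0 ≤ w' e := fun e =>
      div_nonneg (mul_nonneg (hW _) (Real.sqrt_nonneg _)) hm.le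
    set r : (V → ℝ) →ₗ[ℝ] (T → ℝ) := LinearMap.funLeft ℝ ℝ (Subtype.val : T → V) with hr
    have hra : ∀ f (x : T), r f x = f x.1 := fun f x => rfl
    -- the two forms on the restricted functions
    have hmassr : ∀ f : V → ℝ, ∑ x, μ x * r f x ^ 2 = (∑ x, p x * ρ x * f x ^ 2) / m := by
      intro f
      rw [sum_subtype_eq (fun x => 0 < p x * ρ x) (fun x => p x * ρ x * f x ^ 2)
        (fun x h => by rw [hmul x h, zero_mul]), Finset.sum_div]
      refine Finset.sum_congr rfl fun x _ => ?_
      rw [hra]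
      change p x * ρ x / m * f x.1 ^ 2 = _
      ring
    have henr : ∀ f : V → ℝ, ∑ e, w' e * (r f (s' e) - r f (t' e)) ^ 2 =
        (∑ e, W e * (√(ρ (s e) * ρ (t e)) * (f (s e) - f (t e)) ^ 2)) / m := by
      intro f
      rw [sum_subtype_eq (fun e => 0 < p (s e) * ρ (s e) ∧ 0 < p (t e) * ρ (t e))
        (fun e => W e * (√(ρ (s e) * ρ (t e)) * (f (s e) - f (t e)) ^ 2)), Finset.sum_div]
      · refine Finset.sum_congr rfl fun e _ => ?_
        change W e * √(ρ (s e) * ρ (t e)) / m * (f (s e) - f (t e)) ^ 2 = _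
        ring
      · intro e he
        by_cases hWe : W e = 0
        · rw [hWe, zero_mul]
        · have h3 := hWp e hWe
          have h4 : ρ (s e) * ρ (t e) = 0 := by
            by_contra hne
            have h5 : ρ (s e) ≠ 0 := left_ne_zero_of_mul hne
            have h6 : ρ (t e) ≠ 0 := right_ne_zero_of_mul hne
            exact he ⟨mul_pos h3.1 (lt_of_le_of_ne (hρ _) (Ne.symm h5)),
              mul_pos h3.2 (lt_of_le_of_ne (hρ _) (Ne.symm h6))⟩
          rw [h4]
          simp
    have hinj : Function.Injective (r.domRestrict F) := by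
      rw [← LinearMap.ker_eq_bot, LinearMap.ker_eq_bot']
      intro f hf
      by_contra hne
      have hne' : (f : V → ℝ) ≠ 0 := fun h => hne (Subtype.ext h)
      have h1 := (hF f f.2 hne').1
      have h2 := hmassr (f : V → ℝ)
      have h3 : r (f : V → ℝ) = 0 := hf
      rw [h3] at h2
      simp only [Pi.zero_apply] at h2
      have h4 : (∑ x, p x * ρ x * (f : V → ℝ) x ^ 2) / m = 0 := by
        rw [← h2]; simp
      have h5 := div_pos h1 hm
      linarith
    have hfr : Module.finrank ℝ (LinearMap.range (r.domRestrict F)) = Module.finrank ℝ F :=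
      LinearMap.finrank_range_of_inj hinj
    have hcount := count_le μ s' t' w' lam hμpos hμ1 hw' hlam
      (fun g hg hg1 => nash_restrict s t W p ρ hρ hWp hp lam m hm rfl hnash g hg hg1)
      (η := η) hT0 (LinearMap.range (r.domRestrict F)) (by
        rintro g ⟨f, rfl⟩ hg0
        have hne' : (f : V → ℝ) ≠ 0 := by
          intro h
          apply hg0
          have : f = 0 := Subtype.ext h
          rw [this, map_zero]
        have h1 := (hF f f.2 hne').2
        change ∑ e, w' e * (r (f : V → ℝ) (s' e) - r (f : V → ℝ) (t' e)) ^ 2 ≤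
          η * ∑ x, μ x * r (f : V → ℝ) x ^ 2
        rw [henr, hmassr, ← mul_div_assoc]
        exact div_le_div_of_nonneg_right h1 hm.le)
    rw [hfr] at hcount
    refine hcount.trans (mul_le_mul_of_nonneg_right ?_ (Real.exp_pos _).le)
    refine Real.rpow_le_rpow (Nat.cast_nonneg _) ?_ (Real.exp_pos _).le
    exact_mod_cast Fintype.card_subtype_le _

theorem density_sum {V ι : Type} [Fintype V] [DecidableEq V] [Fintype ι] (s t : ι → V)
    (w : ι → ℝ) : ∑ x, density s t w x = ∑ e, w e := by
  unfold Pool.Agent.Lib.P325q.density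
  rw [← Finset.sum_div, Finset.sum_comm]
  have h1 : ∀ e, ∑ x, w e * ((if s e = x then (1 : ℝ) else 0) + (if t e = x then (1 : ℝ) else 0)) =
      2 * w e := by
    intro e
    rw [← Finset.mul_sum, Finset.sum_add_distrib]
    simp
    ring
  rw [Finset.sum_congr rfl fun e _ => h1 e, ← Finset.mul_sum]
  ring

/-- **The decomposition theorem.** -/
theorem upper {V ι : Type} [Fintype V] [DecidableEq V] [Fintype ι] (s t : ι → V) (w : ι → ℝ)
    (hw : ∀ e, 0 ≤ w e) (hw1 : ∑ e, w e = 1) {K : ℝ} (hK : 0 < K) :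
    ∃ (N : ℕ) (ρ : Fin N → V → ℝ), IsFracPartition ρ ∧ cutEnergy s t w ρ ≤ K ^ 2 ∧
      ∀ i, ∀ x : ℝ, 0 < x → x ≤ 1 → ∀ F : Submodule ℝ (V → ℝ),
        IsSlow s t w (ρ i) (x * K ^ 2) F →
        (Module.finrank ℝ F : ℝ) ≤ (Fintype.card V : ℝ) ^ (x * (1 + Real.log (1 / x))) := by
  classical
  have hp0 : ∀ x, 0 ≤ density s t w x := density_nonneg s t hw
  have hp1 : ∑ x, density s t w x = 1 := by rw [density_sum, hw1]
  have hVne : Nonempty V := by
    by_contra hne
    rw [not_nonempty_iff] at hne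
    have : ∑ x, density s t w x = 0 := by rw [Finset.univ_eq_empty, Finset.sum_empty]
    rw [hp1] at this
    exact one_ne_zero this
  have hfin : ∀ F : Submodule ℝ (V → ℝ), (Module.finrank ℝ F : ℝ) ≤ Fintype.card V := by
    intro F
    have h1 := Submodule.finrank_le F
    rw [Module.finrank_fintype_fun_eq_card] at h1
    exact_mod_cast h1
  set n : ℝ := (Fintype.card V : ℝ) with hn
  have hn1 : 1 ≤ n := by
    rw [hn]
    exact_mod_cast Fintype.card_pos
  have hn0 : 0 < n := by linarith
  rcases hn1.eq_or_lt with h1 | h1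
  · refine ⟨1, fun _ _ => 1, ⟨fun _ _ => zero_le_one, fun x => by simp⟩, ?_, ?_⟩
    · unfold Pool.Agent.Lib.P325q.cutEnergy
      simp
      positivity
    · intro i x _ _ F _
      rw [← h1, Real.one_rpow]
      rw [h1]
      exact hfin F
  · have hlog : 0 < Real.log n := Real.log_pos h1
    set lam : ℝ := K ^ 2 / Real.log n with hlam
    have hlam0 : 0 < lam := by positivity
    obtain ⟨N, ρ, hρ0, hρ1, hcut, hnash⟩ := soft_decomposition s t hw hp0 hlam0.le
      (fun _ => 1) (fun _ => zero_le_one)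
    refine ⟨N, ρ, ⟨hρ0, hρ1⟩, ?_, ?_⟩
    · have h2 : cutEn s t w (fun _ => 1) = 0 := by
        unfold Pool.Agent.Lib.P325s.cutEn
        simp
      rw [h2, zero_add] at hcut
      simp only [mul_one] at hcut
      rw [hp1, one_mul, ← hn] at hcut
      have h3 : lam * Real.log n = K ^ 2 := by
        rw [hlam]; field_simp
      rw [h3] at hcut
      exact hcut
    · intro i x hx0 hx1 F hF
      rcases hx1.eq_or_lt with hx | hx
      · rw [hx]
        simpa using hfin F
      · have hlx : 0 < -Real.log x := by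
          have := Real.log_neg hx0 hx
          linarith
        set T0 : ℝ := -Real.log x / (2 * lam) with hT0
        have hT00 : 0 < T0 := by positivity
        have hWp : ∀ e, w e ≠ 0 → 0 < density s t w (s e) ∧ 0 < density s t w (t e) := by
          intro e he
          have he' : 0 < w e := lt_of_le_of_ne (hw e) (Ne.symm he)
          exact ⟨density_pos s t hw he' (Or.inl rfl), density_pos s t hw he' (Or.inr rfl)⟩
        have h2 := part_count s t w hw (density s t w) hp0 hWp (ρ i) (hρ0 i) lam hlam0.le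
          (hnash i) (η := x * K ^ 2) hT00 F hF
        have hexp1 : Real.exp (-(2 * lam * T0)) = x := by
          have : -(2 * lam * T0) = Real.log x := by
            rw [hT0]; field_simp
          rw [this, Real.exp_log hx0]
        have hexp2 : Real.exp (2 * T0 * (x * K ^ 2)) = n ^ (x * (-Real.log x)) := by
          rw [Real.rpow_def_of_pos hn0]
          congr 1
          rw [hT0, hlam]
          field_simp
        rw [hexp1, hexp2, ← Real.rpow_add hn0] at h2
        have h3 : x + x * (-Real.log x) = x * (1 + Real.log (1 / x)) := by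
          rw [one_div, Real.log_inv]; ring
        rw [h3] at h2
        exact h2

end P325qz
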