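import Mathlib
import Pool.Agent.Lib.P325q.Defs
import Pool.Agent.Lib.P325s.FuncA
import Pool.Agent.Lib.P325u.Part
import Pool.Agent.Lib.P325qz.Slow
import Pool.Agent.Lib.P325qz.Upper
import Pool.Agent.Lib.P325qz.SetNash
import Pool.Agent.Lib.P325qz.SetHeat

/-!
P325qz.SetFin (MP_325f1f_lc, helper24): the decomposition theorem for partitions into sets, with
exponent `4 √x`.
-/

namespace P325qz

open Finset Real
open Pool.Agent.Lib.P325q (density mass energy IsSlow IsFracPartition cutEnergy)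
open Pool.Agent.Lib.P325s (cutEn ent Psi cutEn_nonneg ent_nonneg ent_le)
open Pool.Agent.Lib.P325u (sum_subtype_eq)

variable {V ι : Type} [Fintype V] [DecidableEq V] [Fintype ι]

/-- the density identity -/
theorem density_dot (s t : ι → V) (w : ι → ℝ) (f : V → ℝ) :
    ∑ e, w e * (f (s e) + f (t e)) = 2 * ∑ x, density s t w x * f x := by
  unfold Pool.Agent.Lib.P325q.density
  have h1 : ∀ x, (∑ e, w e * ((if s e = x then (1 : ℝ) else 0) + (if t e = x then (1 : ℝ) else 0))) /
      2 * f x = (∑ e, w e * ((if s e = x then f x else 0) + (if t e = x then f x else 0))) / 2 := by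
    intro x
    rw [div_mul_eq_mul_div, Finset.sum_mul]
    congr 1
    refine Finset.sum_congr rfl fun e _ => ?_
    rw [mul_assoc, add_mul, ite_mul, ite_mul, one_mul, zero_mul]
  rw [Finset.sum_congr rfl fun x _ => h1 x, ← Finset.sum_div, Finset.sum_comm]
  have h2 : ∀ e, ∑ x, w e * ((if s e = x then f x else 0) + (if t e = x then f x else 0)) =
      w e * (f (s e) + f (t e)) := by
    intro e
    rw [← Finset.mul_sum, Finset.sum_add_distrib]
    simp
  rw [Finset.sum_congr rfl fun e _ => h2 e]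
  ring

/-- **Nash inequality** from the isoperimetric inequality. -/
theorem nash_set (s t : ι → V) {w : ι → ℝ} (hw : ∀ e, 0 ≤ w e)
    {A : Finset V} {lam : ℝ} (hlam : 0 ≤ lam)
    (hiso : ∀ S ⊆ A, lam * ((∑ x, density s t w x * ind S x) *
      Real.log ((∑ x, density s t w x * ind A x) / ∑ x, density s t w x * ind S x)) ≤
      2 * ∑ e, w e * (if s e ∈ A ∧ t e ∈ A then |ind S (s e) - ind S (t e)| else 0))
    (g : V → ℝ) (hg : ∀ x, 0 ≤ g x)
    (hg1 : ∑ x, density s t w x * ind A x * g x = ∑ x, density s t w x * ind A x) :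
    lam ^ 2 / 16 * ((∑ x, density s t w x * ind A x * g x ^ 2) *
        Real.log ((∑ x, density s t w x * ind A x * g x ^ 2) /
          ∑ x, density s t w x * ind A x) ^ 2) ≤
      ∑ e, w e * (√(ind A (s e) * ind A (t e)) * (g (s e) - g (t e)) ^ 2) := by
  classical
  set p : V → ℝ := density s t w with hpd
  have hp : ∀ x, 0 ≤ p x := density_nonneg s t hw
  set m : ℝ := ∑ x, p x * ind A x with hm
  set Q : ℝ := ∑ x, p x * ind A x * g x ^ 2 with hQ
  have hm0 : 0 ≤ m := Finset.sum_nonneg fun x _ => mul_nonneg (hp x) (ind_nonneg _ x)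
  have hQ0 : 0 ≤ Q := Finset.sum_nonneg fun x _ =>
    mul_nonneg (mul_nonneg (hp x) (ind_nonneg _ x)) (sq_nonneg _)
  have hE0 : 0 ≤ ∑ e, w e * (√(ind A (s e) * ind A (t e)) * (g (s e) - g (t e)) ^ 2) :=
    Finset.sum_nonneg fun e _ => mul_nonneg (hw e) (mul_nonneg (Real.sqrt_nonneg _) (sq_nonneg _))
  rcases hQ0.eq_or_lt with hQ1 | hQ1
  · rw [← hQ1]
    simpa using hE0
  rcases hm0.eq_or_lt with hm1 | hm1
  · rw [← hm1]
    simpa using hE0
  set N : ℝ := Q / m with hN
  have hN0 : 0 < N := div_pos hQ1 hm1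
  -- `N ≥ 1`
  have hN1 : 1 ≤ N := by
    rw [hN, one_le_div hm1]
    have h1 : 0 ≤ ∑ x, p x * ind A x * (g x - 1) ^ 2 := Finset.sum_nonneg fun x _ =>
      mul_nonneg (mul_nonneg (hp x) (ind_nonneg _ x)) (sq_nonneg _)
    have h2 : ∑ x, p x * ind A x * (g x - 1) ^ 2 = Q - 2 * m + m := by
      have : ∀ x, p x * ind A x * (g x - 1) ^ 2 =
          p x * ind A x * g x ^ 2 - 2 * (p x * ind A x * g x) + p x * ind A x := fun x => by ring
      rw [Finset.sum_congr rfl fun x _ => this x, Finset.sum_add_distrib, Finset.sum_sub_distrib,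
        ← Finset.mul_sum, hg1]
    rw [h2] at h1
    linarith
  have hlN : 0 ≤ Real.log N := Real.log_nonneg hN1
  -- the layer cake
  set F : V → ℝ := fun x => ind A x * g x ^ 2 with hF
  have h1 := layer s t hw hp hlam hiso (fun x => Real.log (g x)) _ F le_rfl
    (fun x => mul_nonneg (ind_nonneg _ x) (sq_nonneg _))
    (fun x hx => by simp only [hF, ind_of_not_mem hx, zero_mul]) (by
      rw [← hm, ← hg1]
      refine Finset.sum_le_sum fun x _ => ?_
      by_cases hx : F x = 0
      · rw [if_neg (not_not.2 hx)]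
        exact mul_nonneg (mul_nonneg (hp x) (ind_nonneg _ x)) (hg x)
      · rw [if_pos hx]
        have h3 : ind A x ≠ 0 := left_ne_zero_of_mul hx
        have h4 : x ∈ A := by
          by_contra h
          exact h3 (ind_of_not_mem h)
        have h5 : g x ≠ 0 := fun h => hx (by simp only [hF, h]; ring)
        have h6 : 0 < g x := lt_of_le_of_ne (hg x) (Ne.symm h5)
        rw [ind_of_mem h4, mul_one, Real.exp_log h6])
  have h2 : Q * Real.log N ≤ ∑ x, p x * F x * Real.log (g x) := by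
    have h3 : ∑ x, (p x * ind A x * g x ^ 2 * Real.log N + p x * ind A x * g x ^ 2 -
        N * (p x * ind A x * g x)) ≤ ∑ x, p x * F x * Real.log (g x) := by
      refine Finset.sum_le_sum fun x _ => ?_
      rcases (hg x).eq_or_lt with h4 | h4
      · rw [← h4]
        simp
      · have h5 := Real.log_le_sub_one_of_pos (div_pos hN0 h4)
        rw [Real.log_div hN0.ne' h4.ne'] at h5
        have h6 : g x * Real.log N + g x - N ≤ g x * Real.log (g x) := by
          have h7 := mul_le_mul_of_nonneg_left h5 h4.le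
          have h8 : g x * (N / g x - 1) = N - g x := by field_simp
          rw [h8] at h7
          linarith
        have h7 : 0 ≤ p x * ind A x * g x :=
          mul_nonneg (mul_nonneg (hp x) (ind_nonneg _ x)) (hg x)
        have h8 := mul_le_mul_of_nonneg_left h6 h7
        simp only [hF]
        linarith
    rw [Finset.sum_sub_distrib, Finset.sum_add_distrib, ← Finset.sum_mul, ← Finset.mul_sum,
      hg1, ← hQ] at h3
    have h4 : N * m = Q := by rw [hN]; field_simp
    linarith
  set TV : ℝ := ∑ e, w e * (if s e ∈ A ∧ t e ∈ A then |F (s e) - F (t e)| else 0) with hTV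
  set E : ℝ := ∑ e, w e * (√(ind A (s e) * ind A (t e)) * (g (s e) - g (t e)) ^ 2) with hE
  have h3 : lam * (Q * Real.log N) ≤ 2 * TV :=
    (mul_le_mul_of_nonneg_left h2 hlam).trans h1
  -- Cauchy-Schwarz
  have h4 : TV ^ 2 ≤ E * (4 * Q) := by
    have h5 := Finset.sum_mul_sq_le_sq_mul_sq Finset.univ
      (fun e => √(w e) * (if s e ∈ A ∧ t e ∈ A then |g (s e) - g (t e)| else 0))
      (fun e => √(w e) * (if s e ∈ A ∧ t e ∈ A then g (s e) + g (t e) else 0))
    have h6 : ∑ e, √(w e) * (if s e ∈ A ∧ t e ∈ A then |g (s e) - g (t e)| else 0) *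
        (√(w e) * (if s e ∈ A ∧ t e ∈ A then g (s e) + g (t e) else 0)) = TV := by
      refine Finset.sum_congr rfl fun e _ => ?_
      by_cases h7 : s e ∈ A ∧ t e ∈ A
      · rw [if_pos h7, if_pos h7, if_pos h7]
        simp only [hF, ind_of_mem h7.1, ind_of_mem h7.2, one_mul]
        have h8 : g (s e) ^ 2 - g (t e) ^ 2 = (g (s e) - g (t e)) * (g (s e) + g (t e)) := by ring
        rw [h8, abs_mul, abs_of_nonneg (add_nonneg (hg (s e)) (hg (t e)))]
        calc √(w e) * |g (s e) - g (t e)| * (√(w e) * (g (s e) + g (t e))) =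
            √(w e) * √(w e) * (|g (s e) - g (t e)| * (g (s e) + g (t e))) := by ring
          _ = _ := by rw [Real.mul_self_sqrt (hw e)]
      · rw [if_neg h7, if_neg h7, if_neg h7]
        ring
    have h7 : ∑ e, (√(w e) * (if s e ∈ A ∧ t e ∈ A then |g (s e) - g (t e)| else 0)) ^ 2 = E := by
      refine Finset.sum_congr rfl fun e _ => ?_
      by_cases h7 : s e ∈ A ∧ t e ∈ A
      · rw [if_pos h7, mul_pow, Real.sq_sqrt (hw e), sq_abs, ind_of_mem h7.1, ind_of_mem h7.2]
        simp
      · rw [if_neg h7]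
        have h8 : ind A (s e) * ind A (t e) = 0 := by
          rcases not_and_or.1 h7 with h | h
          · rw [ind_of_not_mem h, zero_mul]
          · rw [ind_of_not_mem h, mul_zero]
        rw [h8]
        simp
    have h8 : ∑ e, (√(w e) * (if s e ∈ A ∧ t e ∈ A then g (s e) + g (t e) else 0)) ^ 2 ≤
        4 * Q := by
      calc ∑ e, (√(w e) * (if s e ∈ A ∧ t e ∈ A then g (s e) + g (t e) else 0)) ^ 2
          ≤ ∑ e, 2 * (w e * (F (s e) + F (t e))) := by
            refine Finset.sum_le_sum fun e _ => ?_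
            by_cases h9 : s e ∈ A ∧ t e ∈ A
            · rw [if_pos h9, mul_pow, Real.sq_sqrt (hw e)]
              simp only [hF, ind_of_mem h9.1, ind_of_mem h9.2, one_mul]
              have h10 : (g (s e) + g (t e)) ^ 2 ≤ 2 * (g (s e) ^ 2 + g (t e) ^ 2) := by
                nlinarith [sq_nonneg (g (s e) - g (t e))]
              have := mul_le_mul_of_nonneg_left h10 (hw e)
              linarith
            · rw [if_neg h9, mul_zero]
              have : 0 ≤ w e * (F (s e) + F (t e)) := mul_nonneg (hw e) (add_nonneg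
                (mul_nonneg (ind_nonneg _ _) (sq_nonneg _))
                (mul_nonneg (ind_nonneg _ _) (sq_nonneg _)))
              have h11 : (0 : ℝ) ^ 2 = 0 := by norm_num
              rw [h11]
              linarith
        _ = 4 * Q := by
            rw [← Finset.mul_sum, density_dot]
            have : ∑ x, density s t w x * F x = Q := by
              refine Finset.sum_congr rfl fun x _ => ?_
              simp only [hF]
              rw [← hpd]
              ring
            rw [this]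
            ring
    rw [h6, h7] at h5
    exact h5.trans (mul_le_mul_of_nonneg_left h8 hE0)
  have hTV0 : 0 ≤ TV := Finset.sum_nonneg fun e _ => mul_nonneg (hw e) (by
    split_ifs
    · exact abs_nonneg _
    · exact le_rfl)
  have h5 : (lam * (Q * Real.log N)) ^ 2 ≤ (2 * TV) ^ 2 :=
    pow_le_pow_left₀ (mul_nonneg hlam (mul_nonneg hQ0 hlN)) h3 2
  have h6 : Q * (lam ^ 2 / 16 * (Q * Real.log N ^ 2)) ≤ Q * E := by nlinarith
  exact le_of_mul_le_mul_left h6 hQ1

/-- Nash inequality with `(log N) ^ 2`, restricted to the vertices of the part. -/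
theorem nash_restrict_sq (s t : ι → V) (W : ι → ℝ)
    (p : V → ℝ) (ρ : V → ℝ) (hρ : ∀ x, 0 ≤ ρ x)
    (hWp : ∀ e, W e ≠ 0 → 0 < p (s e) ∧ 0 < p (t e)) (hp : ∀ x, 0 ≤ p x)
    (lam m : ℝ) (hm : 0 < m) (hmdef : ∑ x, p x * ρ x = m)
    (hnash : ∀ g : V → ℝ, (∀ x, 0 ≤ g x) → ∑ x, p x * ρ x * g x = ∑ x, p x * ρ x →
      lam * ((∑ x, p x * ρ x * g x ^ 2) *
        Real.log ((∑ x, p x * ρ x * g x ^ 2) / ∑ x, p x * ρ x) ^ 2) ≤
      ∑ e, W e * (√(ρ (s e) * ρ (t e)) * (g (s e) - g (t e)) ^ 2))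
    (g : {x : V // 0 < p x * ρ x} → ℝ) (hg : ∀ x, 0 ≤ g x)
    (hg1 : ∑ x : {x : V // 0 < p x * ρ x}, p x * ρ x / m * g x = 1) :
    lam * ((∑ x : {x : V // 0 < p x * ρ x}, p x * ρ x / m * g x ^ 2) *
      Real.log (∑ x : {x : V // 0 < p x * ρ x}, p x * ρ x / m * g x ^ 2) ^ 2) ≤
    ∑ e : {e : ι // 0 < p (s e) * ρ (s e) ∧ 0 < p (t e) * ρ (t e)},
      (W e * √(ρ (s e) * ρ (t e)) / m) * (g ⟨s e, e.2.1⟩ - g ⟨t e, e.2.2⟩) ^ 2 := by
  classical
  set G : V → ℝ := fun x => if h : 0 < p x * ρ x then g ⟨x, h⟩ else 0 with hG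
  have hG0 : ∀ x, 0 ≤ G x := by
    intro x
    simp only [hG]
    split_ifs with h
    · exact hg _
    · exact le_rfl
  have hsub : ∀ F : V → ℝ, (∀ x, ¬ 0 < p x * ρ x → F x = 0) →
      ∑ x, F x = ∑ x : {x : V // 0 < p x * ρ x}, F x := by
    intro F hF
    exact sum_subtype_eq (fun x => 0 < p x * ρ x) F hF
  have hmul : ∀ x, ¬ 0 < p x * ρ x → p x * ρ x = 0 := fun x h =>
    le_antisymm (not_lt.1 h) (mul_nonneg (hp x) (hρ x))
  have hGval : ∀ x : {x : V // 0 < p x * ρ x}, G x = g x := by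
    intro x
    simp only [hG]
    rw [dif_pos x.2]
  have hS1 : ∑ x, p x * ρ x * G x = m := by
    rw [hsub (fun x => p x * ρ x * G x) (fun x h => by rw [hmul x h, zero_mul])]
    have h1 : ∑ x : {x : V // 0 < p x * ρ x}, p x * ρ x * G x =
        m * ∑ x : {x : V // 0 < p x * ρ x}, p x * ρ x / m * g x := by
      rw [Finset.mul_sum]
      apply Finset.sum_congr rfl
      intro x _
      rw [hGval]
      field_simp
    rw [h1, hg1, mul_one]
  have hS2 : ∑ x, p x * ρ x * G x ^ 2 =
      m * ∑ x : {x : V // 0 < p x * ρ x}, p x * ρ x / m * g x ^ 2 := by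
    rw [hsub (fun x => p x * ρ x * G x ^ 2) (fun x h => by rw [hmul x h, zero_mul])]
    rw [Finset.mul_sum]
    apply Finset.sum_congr rfl
    intro x _
    rw [hGval]
    field_simp
  have h := hnash G hG0 (by rw [hS1, hmdef])
  rw [hS2, hmdef] at h
  set N := ∑ x : {x : V // 0 < p x * ρ x}, p x * ρ x / m * g x ^ 2 with hN
  have h2 : m * N / m = N := by field_simp
  rw [h2] at h
  have hsub' : ∑ e, W e * (√(ρ (s e) * ρ (t e)) * (G (s e) - G (t e)) ^ 2) =
      m * ∑ e : {e : ι // 0 < p (s e) * ρ (s e) ∧ 0 < p (t e) * ρ (t e)},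
      (W e * √(ρ (s e) * ρ (t e)) / m) * (g ⟨s e, e.2.1⟩ - g ⟨t e, e.2.2⟩) ^ 2 := by
    rw [sum_subtype_eq (fun e => 0 < p (s e) * ρ (s e) ∧ 0 < p (t e) * ρ (t e))
      (fun e => W e * (√(ρ (s e) * ρ (t e)) * (G (s e) - G (t e)) ^ 2)), Finset.mul_sum]
    swap
    · intro e he
      by_cases hWe : W e = 0
      · rw [hWe, zero_mul]
      · have h3 := hWp e hWe
        have h4 : ρ (s e) * ρ (t e) = 0 := by
          by_contra hne
          have h5 : ρ (s e) ≠ 0 := left_ne_zero_of_mul hne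
          have h6 : ρ (t e) ≠ 0 := right_ne_zero_of_mul hne
          exact he ⟨mul_pos h3.1 (lt_of_le_of_ne (hρ _) (Ne.symm h5)),
            mul_pos h3.2 (lt_of_le_of_ne (hρ _) (Ne.symm h6))⟩
        rw [h4]
        simp
    apply Finset.sum_congr rfl
    intro e _
    have h8 := hGval ⟨s e, e.2.1⟩
    have h9 := hGval ⟨t e, e.2.2⟩
    simp only at h8 h9
    rw [h8, h9]
    field_simp
  rw [hsub'] at h
  have h3 : m * (lam * (N * Real.log N ^ 2)) ≤
      m * ∑ e : {e : ι // 0 < p (s e) * ρ (s e) ∧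
      0 < p (t e) * ρ (t e)}, (W e * √(ρ (s e) * ρ (t e)) / m) *
        (g ⟨s e, e.2.1⟩ - g ⟨t e, e.2.2⟩) ^ 2 := by
    calc m * (lam * (N * Real.log N ^ 2)) = lam * (m * N * Real.log N ^ 2) := by ring
      _ ≤ _ := h
  exact le_of_mul_le_mul_left h3 hm

/-- The number of small eigenvalues of a part with `energy ≥ lam N (log N) ^ 2`. -/
theorem part_count_sq [Nonempty V]
    (s t : ι → V) (W : ι → ℝ) (hW : ∀ e, 0 ≤ W e) (p : V → ℝ) (hp : ∀ x, 0 ≤ p x)
    (hWp : ∀ e, W e ≠ 0 → 0 < p (s e) ∧ 0 < p (t e)) (ρ : V → ℝ) (hρ : ∀ x, 0 ≤ ρ x)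
    (lam : ℝ) (hlam : 0 < lam)
    (hnash : ∀ g : V → ℝ, (∀ x, 0 ≤ g x) → ∑ x, p x * ρ x * g x = ∑ x, p x * ρ x →
      lam * ((∑ x, p x * ρ x * g x ^ 2) *
        Real.log ((∑ x, p x * ρ x * g x ^ 2) / ∑ x, p x * ρ x) ^ 2) ≤
      ∑ e, W e * (√(ρ (s e) * ρ (t e)) * (g (s e) - g (t e)) ^ 2))
    {η T0 : ℝ} (hT0 : 0 < T0) (F : Submodule ℝ (V → ℝ))
    (hF : ∀ f ∈ F, f ≠ 0 → 0 < ∑ x, p x * ρ x * f x ^ 2 ∧
      ∑ e, W e * (√(ρ (s e) * ρ (t e)) * (f (s e) - f (t e)) ^ 2) ≤
        η * ∑ x, p x * ρ x * f x ^ 2) :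
    (Module.finrank ℝ F : ℝ) ≤ Real.exp (2 * T0 * η + 1 / (2 * lam * T0)) := by
  classical
  have hmul : ∀ x, ¬ 0 < p x * ρ x → p x * ρ x = 0 := fun x h =>
    le_antisymm (not_lt.1 h) (mul_nonneg (hp x) (hρ x))
  rcases (Finset.sum_nonneg fun x (_ : x ∈ univ) => mul_nonneg (hp x) (hρ x)).eq_or_lt with
    hm | hm
  · -- no mass
    have hz : ∀ x, p x * ρ x = 0 := fun x =>
      (Finset.sum_eq_zero_iff_of_nonneg fun x _ => mul_nonneg (hp x) (hρ x)).1 hm.symm x
        (mem_univ x)
    have hbot : F = ⊥ := by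
      rw [Submodule.eq_bot_iff]
      intro f hf
      by_contra hne
      have h1 := (hF f hf hne).1
      simp only [hz, zero_mul, Finset.sum_const_zero] at h1
      exact lt_irrefl _ h1
    rw [hbot, finrank_bot]
    simpa using (Real.exp_pos _).le
  · set m : ℝ := ∑ x, p x * ρ x with hmdef
    let T := {x : V // 0 < p x * ρ x}
    let ι' := {e : ι // 0 < p (s e) * ρ (s e) ∧ 0 < p (t e) * ρ (t e)}
    let μ : T → ℝ := fun x => p x * ρ x / m
    let s' : ι' → T := fun e => ⟨s e, e.2.1⟩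
    let t' : ι' → T := fun e => ⟨t e, e.2.2⟩
    let w' : ι' → ℝ := fun e => W e * √(ρ (s e) * ρ (t e)) / m
    have hμpos : ∀ x, 0 < μ x := fun x => div_pos x.2 hm
    have hμ1 : ∑ x, μ x = 1 := by
      have h1 := sum_subtype_eq (fun x => 0 < p x * ρ x) (fun x => p x * ρ x / m)
        (fun x h => by rw [hmul x h, zero_div])
      rw [← h1, ← Finset.sum_div, div_self hm.ne']
    have hTne : Nonempty T := by
      by_contra hne
      rw [not_nonempty_iff] at hne
      have : ∑ x, μ x = 0 := by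
        rw [Finset.univ_eq_empty, Finset.sum_empty]
      rw [hμ1] at this
      exact one_ne_zero this
    have hw' : ∀ e, 0 ≤ w' e := fun e =>
      div_nonneg (mul_nonneg (hW _) (Real.sqrt_nonneg _)) hm.le
    set r : (V → ℝ) →ₗ[ℝ] (T → ℝ) := LinearMap.funLeft ℝ ℝ (Subtype.val : T → V) with hr
    have hra : ∀ f (x : T), r f x = f x.1 := fun f x => rfl
    have hmassr : ∀ f : V → ℝ, ∑ x, μ x * r f x ^ 2 = (∑ x, p x * ρ x * f x ^ 2) / m := by
      intro f
      rw [sum_subtype_eq (fun x => 0 < p x * ρ x) (fun x => p x * ρ x * f x ^ 2)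
        (fun x h => by rw [hmul x h, zero_mul]), Finset.sum_div]
      refine Finset.sum_congr rfl fun x _ => ?_
      rw [hra]
      change p x * ρ x / m * f x.1 ^ 2 = _
      ring
    have henr : ∀ f : V → ℝ, ∑ e, w' e * (r f (s' e) - r f (t' e)) ^ 2 =
        (∑ e, W e * (√(ρ (s e) * ρ (t e)) * (f (s e) - f (t e)) ^ 2)) / m := by
      intro f
      rw [sum_subtype_eq (fun e => 0 < p (s e) * ρ (s e) ∧ 0 < p (t e) * ρ (t e))
        (fun e => W e * (√(ρ (s e) * ρ (t e)) * (f (s e) - f (t e)) ^ 2)), Finset.sum_div]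
      · refine Finset.sum_congr rfl fun e _ => ?_
        change W e * √(ρ (s e) * ρ (t e)) / m * (f (s e) - f (t e)) ^ 2 = _
        ring
      · intro e he
        by_cases hWe : W e = 0
        · rw [hWe, zero_mul]
        · have h3 := hWp e hWe
          have h4 : ρ (s e) * ρ (t e) = 0 := by
            by_contra hne
            have h5 : ρ (s e) ≠ 0 := left_ne_zero_of_mul hne
            have h6 : ρ (t e) ≠ 0 := right_ne_zero_of_mul hne
            exact he ⟨mul_pos h3.1 (lt_of_le_of_ne (hρ _) (Ne.symm h5)),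
              mul_pos h3.2 (lt_of_le_of_ne (hρ _) (Ne.symm h6))⟩
          rw [h4]
          simp
    have hinj : Function.Injective (r.domRestrict F) := by
      rw [← LinearMap.ker_eq_bot, LinearMap.ker_eq_bot']
      intro f hf
      by_contra hne
      have hne' : (f : V → ℝ) ≠ 0 := fun h => hne (Subtype.ext h)
      have h1 := (hF f f.2 hne').1
      have h2 := hmassr (f : V → ℝ)
      have h3 : r (f : V → ℝ) = 0 := hf
      rw [h3] at h2
      simp only [Pi.zero_apply] at h2
      have h4 : (∑ x, p x * ρ x * (f : V → ℝ) x ^ 2) / m = 0 := by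
        rw [← h2]; simp
      have h5 := div_pos h1 hm
      linarith
    have hfr : Module.finrank ℝ (LinearMap.range (r.domRestrict F)) = Module.finrank ℝ F :=
      LinearMap.finrank_range_of_inj hinj
    have hcount := count_le_sq μ s' t' w' lam hμpos hμ1 hw' hlam
      (fun g hg hg1 => nash_restrict_sq s t W p ρ hρ hWp hp lam m hm rfl hnash g hg hg1)
      (η := η) hT0 (LinearMap.range (r.domRestrict F)) (by
        rintro g ⟨f, rfl⟩ hg0
        have hne' : (f : V → ℝ) ≠ 0 := by
          intro h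
          apply hg0
          have : f = 0 := Subtype.ext h
          rw [this, map_zero]
        have h1 := (hF f f.2 hne').2
        change ∑ e, w' e * (r (f : V → ℝ) (s' e) - r (f : V → ℝ) (t' e)) ^ 2 ≤
          η * ∑ x, μ x * r (f : V → ℝ) x ^ 2
        rw [henr, hmassr, ← mul_div_assoc]
        exact div_le_div_of_nonneg_right h1 hm.le)
    rw [hfr] at hcount
    exact hcount

end P325qz
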