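import Mathlib
import Pool.Agent.Lib.P325qz.SetFin

/-!
P325qz.SetUp (MP_325f1f_lc, helper24): **the decomposition theorem for partitions into sets**:
cut weight at most `κ`, every part has at most `n ^ (4 √x)` eigenvalues below `x κ ^ 2`.
-/

namespace P325qz

open Finset Real
open Pool.Agent.Lib.P325q (density mass energy IsSlow IsFracPartition cutEnergy)
open Pool.Agent.Lib.P325s (cutEn ent Psi cutEn_nonneg ent_nonneg ent_le)

variable {V ι : Type} [Fintype V] [DecidableEq V] [Fintype ι]

/-- a class of a colouring -/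
def cls {C : Type} [DecidableEq C] (P : V → C) (c : C) : Finset V := univ.filter fun x => P x = c

theorem mem_cls {C : Type} [DecidableEq C] (P : V → C) (c : C) (x : V) : x ∈ cls P c ↔ P x = c := by
  simp [cls]

theorem Psi_empty (s t : ι → V) (w : ι → ℝ) (p : V → ℝ) (lam : ℝ) :
    Psi s t w p lam (ind (∅ : Finset V)) = 0 := by
  unfold Pool.Agent.Lib.P325s.Psi Pool.Agent.Lib.P325s.cutEn Pool.Agent.Lib.P325s.ent
  simp [ind]

/-- The optimal colouring. -/
theorem exists_opt [Nonempty V] (s t : ι → V) {w : ι → ℝ} (hw : ∀ e, 0 ≤ w e) {p : V → ℝ}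
    (hp : ∀ x, 0 ≤ p x) {lam : ℝ} (hlam : 0 ≤ lam) :
    ∃ P : V → Fin (Fintype.card V + 1),
      ∑ c, cutEn s t w (ind (cls P c)) ≤ lam * ((∑ x, p x) * Real.log (Fintype.card V)) ∧
      ∀ c, ∀ S ⊆ cls P c, lam * ((∑ x, p x * ind S x) *
        Real.log ((∑ x, p x * ind (cls P c) x) / ∑ x, p x * ind S x)) ≤
        2 * ∑ e, w e * (if s e ∈ cls P c ∧ t e ∈ cls P c then
          |ind S (s e) - ind S (t e)| else 0) := by
  classical
  obtain ⟨P, hP⟩ := Finite.exists_min fun P : V → Fin (Fintype.card V + 1) =>
    ∑ c, Psi s t w p lam (ind (cls P c))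
  refine ⟨P, ?_, ?_⟩
  · have h1 := hP fun _ => 0
    have h2 : ∑ c, Psi s t w p lam (ind (cls (fun _ : V => (0 : Fin (Fintype.card V + 1))) c)) =
        Psi s t w p lam (ind (univ : Finset V)) := by
      rw [Finset.sum_eq_single (0 : Fin (Fintype.card V + 1))]
      · congr 2
        ext x
        simp [mem_cls]
      · intro c _ hc
        have : cls (fun _ : V => (0 : Fin (Fintype.card V + 1))) c = ∅ := by
          ext x
          simp [mem_cls, Ne.symm hc]
        rw [this, Psi_empty]
      · intro h
        exact absurd (mem_univ _) h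
    rw [h2] at h1
    have h3 : Psi s t w p lam (ind (univ : Finset V)) ≤
        lam * ((∑ x, p x) * Real.log (Fintype.card V)) := by
      unfold Pool.Agent.Lib.P325s.Psi
      have h4 : cutEn s t w (ind (univ : Finset V)) = 0 := by
        unfold Pool.Agent.Lib.P325s.cutEn
        simp [ind]
      rw [h4, zero_add]
      refine mul_le_mul_of_nonneg_left ?_ hlam
      have h5 := ent_le hp (ind_nonneg (univ : Finset V))
      have h6 : ∑ x, p x * ind (univ : Finset V) x = ∑ x, p x := by
        refine Finset.sum_congr rfl fun x _ => ?_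
        rw [ind_of_mem (mem_univ x), mul_one]
      rw [h6] at h5
      exact h5
    refine le_trans (Finset.sum_le_sum fun c _ => ?_) (h1.trans h3)
    unfold Pool.Agent.Lib.P325s.Psi
    have := mul_nonneg hlam (ent_nonneg hp (ind_nonneg (cls P c)))
    linarith
  · intro c S hS
    rcases S.eq_empty_or_nonempty with he | ⟨y, hy⟩
    · rw [he]
      simp [ind]
    set A := cls P c with hA
    obtain ⟨c', hc'⟩ : ∃ c', ∀ x, P x ≠ c' := by
      by_contra hcon
      push Not at hcon
      have h1 := Fintype.card_le_of_surjective P hcon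
      rw [Fintype.card_fin] at h1
      omega
    have hcc : c' ≠ c := fun h => hc' y (by rw [h]; exact (mem_cls P c y).1 (hS hy))
    set P' : V → Fin (Fintype.card V + 1) := fun x => if x ∈ S then c' else P x with hP'
    have h1 : cls P' c' = S := by
      ext x
      rw [mem_cls]
      by_cases hx : x ∈ S
      · simp [hP', hx]
      · simp [hP', hx, hc' x]
    have h2 : cls P' c = A \ S := by
      ext x
      rw [mem_cls, mem_sdiff, hA, mem_cls]
      by_cases hx : x ∈ S
      · simp [hP', hx, hcc]
      · simp [hP', hx]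
    have h3 : ∀ d, d ≠ c → d ≠ c' → cls P' d = cls P d := by
      intro d hd hd'
      ext x
      rw [mem_cls, mem_cls]
      by_cases hx : x ∈ S
      · have h4 : P x = c := (mem_cls P c x).1 (hS hx)
        simp [hP', hx, h4, Ne.symm hd, Ne.symm hd']
      · simp [hP', hx]
    have h4 : cls P c' = ∅ := by
      ext x
      simp [mem_cls, hc' x]
    have h5 := hP P'
    have h6 : ∑ d, (Psi s t w p lam (ind (cls P' d)) - Psi s t w p lam (ind (cls P d))) =
        (Psi s t w p lam (ind (cls P' c)) - Psi s t w p lam (ind (cls P c))) +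
        (Psi s t w p lam (ind (cls P' c')) - Psi s t w p lam (ind (cls P c'))) := by
      refine Fintype.sum_eq_add c c' (Ne.symm hcc) fun d hd => ?_
      rw [h3 d hd.1 hd.2, sub_self]
    rw [Finset.sum_sub_distrib, h1, h2, h4, Psi_empty, ← hA] at h6
    have h7 := cut_split s t w hS
    have h8 := mul_le_mul_of_nonneg_left (ent_split hp hS) hlam
    unfold Pool.Agent.Lib.P325s.Psi at h5 h6
    linarith

/-- **The decomposition theorem for sets.** -/
theorem upper_set (s t : ι → V) (w : ι → ℝ)
    (hw : ∀ e, 0 ≤ w e) (hw1 : ∑ e, w e = 1) {κ : ℝ} (hκ : 0 < κ) :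
    ∃ (N : ℕ) (ρ : Fin N → V → ℝ), IsFracPartition ρ ∧ (∀ i x, ρ i x = 0 ∨ ρ i x = 1) ∧
      cutEnergy s t w ρ ≤ 2 * κ ∧
      ∀ i, ∀ x : ℝ, 0 < x → ∀ F : Submodule ℝ (V → ℝ),
        IsSlow s t w (ρ i) (x * κ ^ 2) F →
        (Module.finrank ℝ F : ℝ) ≤ (Fintype.card V : ℝ) ^ (4 * √x) := by
  classical
  have hp0 : ∀ x, 0 ≤ density s t w x := density_nonneg s t hw
  have hp1 : ∑ x, density s t w x = 1 := by rw [density_sum, hw1]
  have hVne : Nonempty V := by
    by_contra hne
    rw [not_nonempty_iff] at hne
    have : ∑ x, density s t w x = 0 := by rw [Finset.univ_eq_empty, Finset.sum_empty]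
    rw [hp1] at this
    exact one_ne_zero this
  have hfin : ∀ F : Submodule ℝ (V → ℝ), (Module.finrank ℝ F : ℝ) ≤ Fintype.card V := by
    intro F
    have h1 := Submodule.finrank_le F
    rw [Module.finrank_fintype_fun_eq_card] at h1
    exact_mod_cast h1
  set n : ℝ := (Fintype.card V : ℝ) with hn
  have hn1 : 1 ≤ n := by
    rw [hn]
    exact_mod_cast Fintype.card_pos
  have hn0 : 0 < n := by linarith
  rcases hn1.eq_or_lt with h1 | h1
  · refine ⟨1, fun _ _ => 1, ⟨fun _ _ => zero_le_one, fun x => by simp⟩, fun _ _ => Or.inr rfl,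
      ?_, ?_⟩
    · unfold Pool.Agent.Lib.P325q.cutEnergy
      simp
      positivity
    · intro i x _ F _
      rw [← h1, Real.one_rpow]
      rw [h1]
      exact hfin F
  · have hlog : 0 < Real.log n := Real.log_pos h1
    set lam : ℝ := 2 * κ / Real.log n with hlam
    have hlam0 : 0 < lam := by positivity
    obtain ⟨P, hcut, hiso⟩ := exists_opt s t hw hp0 hlam0.le
    refine ⟨Fintype.card V + 1, fun c => ind (cls P c), ⟨fun c x => ind_nonneg _ x, ?_⟩, ?_, ?_, ?_⟩
    · intro x
      rw [Finset.sum_eq_single (P x)]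
      · exact ind_of_mem ((mem_cls P _ x).2 rfl)
      · intro c _ hc
        exact ind_of_not_mem fun h => hc ((mem_cls P _ x).1 h).symm
      · intro h
        exact absurd (mem_univ _) h
    · intro c x
      by_cases h : x ∈ cls P c
      · exact Or.inr (ind_of_mem h)
      · exact Or.inl (ind_of_not_mem h)
    · rw [hp1, one_mul, ← hn] at hcut
      have h3 : lam * Real.log n = 2 * κ := by
        rw [hlam]; field_simp
      rw [h3] at hcut
      exact hcut
    · intro c x hx0 F hF
      have hsx : 0 < √x := Real.sqrt_pos.2 hx0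
      set T0 : ℝ := Real.log n / (√x * κ ^ 2) with hT0
      have hT00 : 0 < T0 := by positivity
      have hWp : ∀ e, w e ≠ 0 → 0 < density s t w (s e) ∧ 0 < density s t w (t e) := by
        intro e he
        have he' : 0 < w e := lt_of_le_of_ne (hw e) (Ne.symm he)
        exact ⟨density_pos s t hw he' (Or.inl rfl), density_pos s t hw he' (Or.inr rfl)⟩
      have h2 := part_count_sq s t w hw (density s t w) hp0 hWp (ind (cls P c)) (ind_nonneg _)
        (lam ^ 2 / 16) (by positivity)
        (fun g hg hg1 => nash_set s t hw hlam0.le (hiso c) g hg hg1)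
        (η := x * κ ^ 2) hT00 F hF
      refine h2.trans (le_of_eq ?_)
      rw [Real.rpow_def_of_pos hn0]
      congr 1
      have hxx : x = √x * √x := (Real.mul_self_sqrt hx0.le).symm
      rw [hT0, hlam]
      set y : ℝ := √x with hy
      rw [hxx]
      field_simp
      ring

end P325qz
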