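import Mathlib

/-!
P325qz.Gibbs (MP_325f1f_lc, helper24): the relative entropy to the uniform law on a finite set,
the Gibbs variational inequality, and the disintegration of a law on `Fin (j + 1) → A` along the
first coordinate with the chain rule.
-/

namespace P325qz

open Finset Real

/-- relative entropy of `ν` with respect to the uniform law -/
noncomputable def Dkl {A : Type*} [Fintype A] (ν : A → ℝ) : ℝ :=
  ∑ a, ν a * Real.log (Fintype.card A * ν a)

/-- **Gibbs variational inequality**. -/
theorem gibbs {A : Type*} [Fintype A] [Nonempty A] (ν : A → ℝ) (h0 : ∀ a, 0 ≤ ν a)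
    (h1 : ∑ a, ν a = 1) (f : A → ℝ) {G : ℝ} (hG : 0 < G)
    (hf : ∑ a, exp (f a) ≤ Fintype.card A * G) :
    ∑ a, ν a * f a ≤ Dkl ν + log G := by
  have hN : (0 : ℝ) < Fintype.card A := by exact_mod_cast Fintype.card_pos
  have key : ∀ a, ν a * f a ≤ ν a * log (Fintype.card A * ν a) +
      (exp (f a) / (Fintype.card A * G) - ν a) + ν a * log G := by
    intro a
    rcases (h0 a).eq_or_lt with h | h
    · rw [← h]
      have : 0 ≤ exp (f a) / (Fintype.card A * G) := by positivity
      simpa using this
    · have h2 : log (exp (f a) / (Fintype.card A * G * ν a)) ≤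
          exp (f a) / (Fintype.card A * G * ν a) - 1 :=
        log_le_sub_one_of_pos (by positivity)
      rw [log_div (by positivity) (by positivity), log_exp, mul_right_comm,
        log_mul (by positivity) hG.ne'] at h2
      have h3 := mul_le_mul_of_nonneg_left h2 h.le
      have h4 : ν a * (exp (f a) / (Fintype.card A * ν a * G) - 1) =
          exp (f a) / (Fintype.card A * G) - ν a := by
        field_simp
      rw [h4] at h3
      linarith
  have h5 : ∑ a, (ν a * log (Fintype.card A * ν a) +
      (exp (f a) / (Fintype.card A * G) - ν a) + ν a * log G) =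
      Dkl ν + ((∑ a, exp (f a)) / (Fintype.card A * G) - 1) + log G := by
    rw [Finset.sum_add_distrib, Finset.sum_add_distrib, Finset.sum_sub_distrib,
      ← Finset.sum_div, ← Finset.sum_mul, h1, one_mul]
    rfl
  have h6 : (∑ a, exp (f a)) / (Fintype.card A * G) ≤ 1 := by
    rw [div_le_one (by positivity)]
    exact hf
  calc ∑ a, ν a * f a ≤ _ := Finset.sum_le_sum fun a _ => key a
    _ = _ := h5
    _ ≤ _ := by linarith

/-- sums over `Fin (j + 1) → A` along the first coordinate -/
theorem sum_cons {A M : Type*} [Fintype A] [AddCommMonoid M] {j : ℕ} (f : (Fin (j + 1) → A) → M) :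
    ∑ y, f y = ∑ a, ∑ y', f (Fin.cons a y') := by
  rw [← Fintype.sum_prod_type' (f := fun a y' => f (Fin.cons a y'))]
  exact (Equiv.sum_comp (Fin.consEquiv (fun _ : Fin (j + 1) => A)) f).symm

/-- **Disintegration and chain rule**. -/
theorem disint {A : Type*} [Fintype A] [Nonempty A] {j : ℕ} (μ : (Fin (j + 1) → A) → ℝ)
    (h0 : ∀ y, 0 ≤ μ y) (h1 : ∑ y, μ y = 1) :
    ∃ (ν : A → ℝ) (κ : A → (Fin j → A) → ℝ),
      (∀ a, 0 ≤ ν a) ∧ ∑ a, ν a = 1 ∧ (∀ a y, 0 ≤ κ a y) ∧ (∀ a, ∑ y, κ a y = 1) ∧
      (∀ a y, μ (Fin.cons a y) = ν a * κ a y) ∧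
      Dkl μ = Dkl ν + ∑ a, ν a * Dkl (κ a) := by
  classical
  set ν : A → ℝ := fun a => ∑ y, μ (Fin.cons a y) with hν
  set κ : A → (Fin j → A) → ℝ := fun a y =>
    if ν a = 0 then (Fintype.card (Fin j → A) : ℝ)⁻¹ else μ (Fin.cons a y) / ν a with hκ
  have hν0 : ∀ a, 0 ≤ ν a := fun a => Finset.sum_nonneg fun y _ => h0 _
  have hN : (0 : ℝ) < Fintype.card A := by exact_mod_cast Fintype.card_pos
  have hNj : (0 : ℝ) < Fintype.card (Fin j → A) := by exact_mod_cast Fintype.card_pos
  have hνs : ∑ a, ν a = 1 := by rw [← h1, sum_cons]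
  have hκ0 : ∀ a y, 0 ≤ κ a y := by
    intro a y
    simp only [hκ]
    split_ifs
    · positivity
    · exact div_nonneg (h0 _) (hν0 a)
  have hκs : ∀ a, ∑ y, κ a y = 1 := by
    intro a
    simp only [hκ]
    split_ifs with h
    · rw [Finset.sum_const, card_univ, nsmul_eq_mul, mul_inv_cancel₀ hNj.ne']
    · rw [← Finset.sum_div]
      exact div_self h
  have hfac : ∀ a y, μ (Fin.cons a y) = ν a * κ a y := by
    intro a y
    simp only [hκ]
    split_ifs with h
    · rw [h, zero_mul]
      exact (Finset.sum_eq_zero_iff_of_nonneg fun y _ => h0 _).1 h y (mem_univ _)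
    · field_simp
  refine ⟨ν, κ, hν0, hνs, hκ0, hκs, hfac, ?_⟩
  unfold Dkl
  rw [sum_cons]
  have hcard : (Fintype.card (Fin (j + 1) → A) : ℝ) =
      Fintype.card A * Fintype.card (Fin j → A) := by
    simp [pow_succ, mul_comm]
  have key : ∀ a, ∑ y, μ (Fin.cons a y) * log (Fintype.card (Fin (j + 1) → A) *
      μ (Fin.cons a y)) = ν a * log (Fintype.card A * ν a) +
        ν a * ∑ y, κ a y * log (Fintype.card (Fin j → A) * κ a y) := by
    intro a
    rcases (hν0 a).eq_or_lt with h | h
    · rw [← h]
      simp only [zero_mul, add_zero]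
      refine Finset.sum_eq_zero fun y _ => ?_
      rw [hfac a y, ← h]
      simp
    · have h2 : ∀ y, μ (Fin.cons a y) * log (Fintype.card (Fin (j + 1) → A) *
          μ (Fin.cons a y)) = κ a y * (ν a * log (Fintype.card A * ν a)) +
            ν a * (κ a y * log (Fintype.card (Fin j → A) * κ a y)) := by
        intro y
        rcases (hκ0 a y).eq_or_lt with h3 | h3
        · rw [hfac a y, ← h3]
          simp
        · rw [hfac a y, hcard]
          have : (Fintype.card A : ℝ) * Fintype.card (Fin j → A) * (ν a * κ a y) =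
              (Fintype.card A * ν a) * (Fintype.card (Fin j → A) * κ a y) := by ring
          rw [this, log_mul (by positivity) (by positivity)]
          ring
      rw [Finset.sum_congr rfl fun y _ => h2 y, Finset.sum_add_distrib, ← Finset.sum_mul, hκs a,
        ← Finset.mul_sum]
      ring
  rw [Finset.sum_congr rfl fun a _ => key a, Finset.sum_add_distrib]

end P325qz
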