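import Mathlib
import Pool.Agent.Lib.P325qz.Gibbs

/-!
P325qz.LogSob (MP_325f1f_lc, helper24): Gross's logarithmic Sobolev inequality on the hypercube,
unnormalised form.
-/

namespace P325qz

open Finset Real Set

theorem two_aux1 {u : ℝ} (hu0 : 0 ≤ u) (hu1 : u < 1) :
    (1 + u) * log (1 + u) - (1 - u) * log (1 - u) ≤ 2 * u := by
  set k : ℝ → ℝ := fun x => 2 * x - ((1 + x) * log (1 + x) - (1 - x) * log (1 - x)) with hk
  have hd : ∀ x ∈ Set.Icc (0 : ℝ) u, HasDerivAt k (-log (1 + x) - log (1 - x)) x := by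
    intro x hx
    have h1 : (1 + x) ≠ 0 := by linarith [hx.1]
    have h2 : (1 - x) ≠ 0 := by linarith [hx.2]
    have e1 : HasDerivAt (fun x : ℝ => 1 + x) 1 x := (hasDerivAt_id x).const_add 1
    have e2 : HasDerivAt (fun x : ℝ => 1 - x) (-1) x := (hasDerivAt_id x).const_sub 1
    have e3 := e1.mul (e1.log h1)
    have e4 := e2.mul (e2.log h2)
    have e5 := ((hasDerivAt_id x).const_mul 2).sub (e3.sub e4)
    refine e5.congr_deriv ?_
    field_simp
    ring
  have hmono : MonotoneOn k (Set.Icc 0 u) := by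
    apply monotoneOn_of_deriv_nonneg (convex_Icc 0 u)
    · exact fun x hx => (hd x hx).continuousAt.continuousWithinAt
    · intro x hx
      exact (hd x (interior_subset hx)).differentiableAt.differentiableWithinAt
    · intro x hx
      rw [interior_Icc] at hx
      rw [(hd x ⟨hx.1.le, hx.2.le⟩).deriv]
      have h1 : 0 < 1 + x := by linarith [hx.1]
      have h2 : 0 < 1 - x := by linarith [hx.2]
      have h3 : log (1 + x) + log (1 - x) ≤ 0 := by
        rw [← log_mul h1.ne' h2.ne']
        apply log_nonpos (by positivity)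
        nlinarith [hx.1]
      linarith
  have h := hmono (Set.left_mem_Icc.2 hu0) (Set.right_mem_Icc.2 hu0) hu0
  simp only [hk] at h
  simp at h
  linarith

theorem two_aux2 {u : ℝ} (hu0 : 0 ≤ u) (hu1 : u ≤ 1) :
    (1 + u) ^ 2 * log (1 + u) + (1 - u) ^ 2 * log (1 - u) ≤ 3 * u ^ 2 := by
  rcases hu1.eq_or_lt with h1 | h1
  · rw [h1]
    have := Real.log_two_lt_d9
    norm_num
    linarith
  set k : ℝ → ℝ := fun x => 3 * x ^ 2 - ((1 + x) ^ 2 * log (1 + x) + (1 - x) ^ 2 * log (1 - x))
    with hk
  have hd : ∀ x ∈ Set.Icc (0 : ℝ) u, HasDerivAt k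
      (2 * (2 * x - ((1 + x) * log (1 + x) - (1 - x) * log (1 - x)))) x := by
    intro x hx
    have h1 : (1 + x) ≠ 0 := by linarith [hx.1]
    have h2 : (1 - x) ≠ 0 := by linarith [hx.2]
    have e1 : HasDerivAt (fun x : ℝ => 1 + x) 1 x := (hasDerivAt_id x).const_add 1
    have e2 : HasDerivAt (fun x : ℝ => 1 - x) (-1) x := (hasDerivAt_id x).const_sub 1
    have e3 := (e1.pow 2).mul (e1.log h1)
    have e4 := (e2.pow 2).mul (e2.log h2)
    have e5 := (((hasDerivAt_id x).pow 2).const_mul 3).sub (e3.add e4)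
    refine e5.congr_deriv ?_
    simp only [id, Nat.cast_ofNat, Nat.add_one_sub_one, pow_one, Pi.pow_apply]
    field_simp
    ring
  have hmono : MonotoneOn k (Set.Icc 0 u) := by
    apply monotoneOn_of_deriv_nonneg (convex_Icc 0 u)
    · exact fun x hx => (hd x hx).continuousAt.continuousWithinAt
    · intro x hx
      exact (hd x (interior_subset hx)).differentiableAt.differentiableWithinAt
    · intro x hx
      rw [interior_Icc] at hx
      rw [(hd x ⟨hx.1.le, hx.2.le⟩).deriv]
      have := two_aux1 hx.1.le (hx.2.trans h1)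
      linarith
  have h := hmono (Set.left_mem_Icc.2 hu0) (Set.right_mem_Icc.2 hu0) hu0
  simp only [hk] at h
  simp at h
  linarith

/-- the elementary variational inequality -/
theorem ent_var {s t : ℝ} (hs : 0 ≤ s) (ht : 0 < t) : -(s * log s) ≤ t - s - s * log t := by
  rcases hs.eq_or_lt with h | h
  · rw [← h]; simpa using ht.le
  · have h1 := log_le_sub_one_of_pos (div_pos ht h)
    rw [log_div ht.ne' h.ne'] at h1
    have h2 := mul_le_mul_of_nonneg_left h1 h.le
    have h3 : s * (t / s - 1) = t - s := by field_simp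
    rw [h3] at h2
    linarith

/-- **Two point inequality** (Gross). -/
theorem two_point {a b : ℝ} (ha : 0 ≤ a) (hb : 0 ≤ b) :
    a ^ 2 * log (a ^ 2) + b ^ 2 * log (b ^ 2) - (a ^ 2 + b ^ 2) * log ((a ^ 2 + b ^ 2) / 2) ≤
      (a - b) ^ 2 := by
  -- reduce to b ≤ a
  wlog hab : b ≤ a generalizing a b
  · have := this hb ha (le_of_not_ge hab)
    rw [add_comm (b ^ 2) (a ^ 2)] at this
    linarith [sq_nonneg (a - b), sq_nonneg (b - a), this, show (a - b) ^ 2 = (b - a) ^ 2 by ring]
  rcases ha.eq_or_lt with h | hpos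
  · have hb0 : b = 0 := le_antisymm (by rw [h]; exact hab) hb
    rw [← h, hb0]
    simp
  set m : ℝ := (a + b) / 2 with hm
  have hm0 : 0 < m := by rw [hm]; linarith
  set u : ℝ := (a - b) / (a + b) with hu
  have hab0 : 0 < a + b := by linarith
  have hu0 : 0 ≤ u := div_nonneg (by linarith) hab0.le
  have hu1 : u ≤ 1 := by
    rw [hu, div_le_one hab0]
    linarith
  have ea : a = m * (1 + u) := by rw [hm, hu]; field_simp; ring
  have eb : b = m * (1 - u) := by rw [hm, hu]; field_simp; ring
  have h1 := ent_var (s := (a ^ 2 + b ^ 2) / 2) (t := m ^ 2) (by positivity) (by positivity)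
  have h2 := two_aux2 hu0 hu1
  have hla : a ^ 2 * log (a ^ 2) = a ^ 2 * (2 * log m + 2 * log (1 + u)) := by
    rw [log_pow, ea, log_mul hm0.ne' (by linarith)]
    push_cast
    ring
  have hlb : b ^ 2 * log (b ^ 2) = b ^ 2 * (2 * log m + 2 * log (1 - u)) := by
    rcases hb.eq_or_lt with h3 | h3
    · rw [← h3]; simp
    · have h4 : 0 < 1 - u := by
        by_contra hcon
        have h5 : 1 - u = 0 := le_antisymm (not_lt.1 hcon) (by linarith)
        rw [eb, h5, mul_zero] at h3
        exact lt_irrefl _ h3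
      rw [log_pow, eb, log_mul hm0.ne' h4.ne']
      push_cast
      ring
  have hlm : log (m ^ 2) = 2 * log m := by rw [log_pow]; push_cast; ring
  rw [hlm] at h1
  rw [hla, hlb]
  have h3 : a ^ 2 * (2 * log (1 + u)) + b ^ 2 * (2 * log (1 - u)) ≤ 6 * u ^ 2 * m ^ 2 := by
    have : a ^ 2 * (2 * log (1 + u)) + b ^ 2 * (2 * log (1 - u)) =
        2 * m ^ 2 * ((1 + u) ^ 2 * log (1 + u) + (1 - u) ^ 2 * log (1 - u)) := by
      rw [ea, eb]; ring
    rw [this]
    calc _ ≤ 2 * m ^ 2 * (3 * u ^ 2) := mul_le_mul_of_nonneg_left h2 (by positivity)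
      _ = _ := by ring
  have h4 : a ^ 2 + b ^ 2 = 2 * m ^ 2 * (1 + u ^ 2) := by rw [ea, eb]; ring
  have h5 : (a - b) ^ 2 = 4 * u ^ 2 * m ^ 2 := by rw [ea, eb]; ring
  rw [h5]
  nlinarith [h1, h3, h4]

/-- the vertex with one coordinate changed -/
def flip {m : ℕ} (x : Fin m → Bool) (i : Fin m) : Fin m → Bool := Function.update x i (!x i)

theorem flip_cons_zero {m : ℕ} (a : Bool) (x : Fin m → Bool) :
    flip (Fin.cons a x : Fin (m + 1) → Bool) 0 = Fin.cons (!a) x := by
  unfold flip
  rw [Fin.cons_zero, Fin.update_cons_zero]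

theorem flip_cons_succ {m : ℕ} (a : Bool) (x : Fin m → Bool) (i : Fin m) :
    flip (Fin.cons a x : Fin (m + 1) → Bool) i.succ = Fin.cons a (flip x i) := by
  unfold flip
  rw [Fin.cons_succ, Fin.cons_update]

/-- **Logarithmic Sobolev inequality** on the hypercube, unnormalised. -/
theorem logsob_cube : ∀ (m : ℕ) (F : (Fin m → Bool) → ℝ) (_ : ∀ x, 0 ≤ F x),
    ∑ x, F x * log (F x) - (∑ x, F x) * log ((∑ x, F x) / 2 ^ m) ≤
      1 / 2 * ∑ x, ∑ i, (√(F x) - √(F (flip x i))) ^ 2 := by
  intro m
  induction m with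
  | zero =>
    intro F hF
    simp
  | succ m ih =>
    intro F hF
    set G : Bool → (Fin m → Bool) → ℝ := fun a x => F (Fin.cons a x) with hG
    set T : Bool → ℝ := fun a => ∑ x, G a x with hT
    have hG0 : ∀ a x, 0 ≤ G a x := fun a x => hF _
    have hT0 : ∀ a, 0 ≤ T a := fun a => Finset.sum_nonneg fun x _ => hG0 a x
    have h1 := ih (G true) (hG0 true)
    have h2 := ih (G false) (hG0 false)
    -- the two point inequality for the masses
    have hP : (0 : ℝ) < 2 ^ m := by positivity
    have h3 := two_point (Real.sqrt_nonneg (T true / 2 ^ m)) (Real.sqrt_nonneg (T false / 2 ^ m))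
    rw [Real.sq_sqrt (div_nonneg (hT0 _) hP.le), Real.sq_sqrt (div_nonneg (hT0 _) hP.le)] at h3
    have h4 : (√(T true / 2 ^ m) - √(T false / 2 ^ m)) ^ 2 =
        (√(T true) - √(T false)) ^ 2 / 2 ^ m := by
      rw [Real.sqrt_div (hT0 _), Real.sqrt_div (hT0 _), ← sub_div, div_pow,
        Real.sq_sqrt hP.le]
    have h5 : (√(T true) - √(T false)) ^ 2 ≤ ∑ x, (√(G true x) - √(G false x)) ^ 2 := by
      have e1 : ∑ x, (√(G true x) - √(G false x)) ^ 2 =
          T true + T false - 2 * ∑ x, √(G true x) * √(G false x) := by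
        have : ∀ x, (√(G true x) - √(G false x)) ^ 2 =
            G true x + G false x - 2 * (√(G true x) * √(G false x)) := by
          intro x
          rw [sub_sq, Real.sq_sqrt (hG0 _ _), Real.sq_sqrt (hG0 _ _)]
          ring
        rw [Finset.sum_congr rfl fun x _ => this x, Finset.sum_sub_distrib,
          Finset.sum_add_distrib, ← Finset.mul_sum]
      have e2 : ∑ x, √(G true x) * √(G false x) ≤ √(T true) * √(T false) := by
        have := Finset.sum_mul_sq_le_sq_mul_sq univ (fun x => √(G true x)) fun x => √(G false x)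
        rw [Finset.sum_congr rfl fun x _ => Real.sq_sqrt (hG0 true x),
          Finset.sum_congr rfl fun x _ => Real.sq_sqrt (hG0 false x)] at this
        rw [← Real.sqrt_mul (hT0 _)]
        exact Real.le_sqrt_of_sq_le this
      rw [e1, sub_sq, Real.sq_sqrt (hT0 _), Real.sq_sqrt (hT0 _)]
      linarith
    -- the energy
    have h6 : ∑ x, ∑ i, (√(F x) - √(F (flip x i))) ^ 2 =
        (∑ x, ∑ i, (√(G true x) - √(G true (flip x i))) ^ 2 +
          ∑ x, ∑ i, (√(G false x) - √(G false (flip x i))) ^ 2) +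
        2 * ∑ x, (√(G true x) - √(G false x)) ^ 2 := by
      rw [sum_cons, Fintype.sum_bool]
      simp only [Fin.sum_univ_succ, flip_cons_zero, flip_cons_succ, Finset.sum_add_distrib,
        Bool.not_true, Bool.not_false]
      have : ∑ x, (√(F (Fin.cons false x)) - √(F (Fin.cons true x))) ^ 2 =
          ∑ x : Fin m → Bool, (√(F (Fin.cons true x)) - √(F (Fin.cons false x))) ^ 2 :=
        Finset.sum_congr rfl fun x _ => by ring
      rw [this]
      simp only [hG]
      ring
    -- the entropies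
    have h7 : ∑ x, F x * log (F x) = ∑ x, G true x * log (G true x) +
        ∑ x, G false x * log (G false x) := by
      rw [sum_cons, Fintype.sum_bool]
    have h8 : ∑ x, F x = T true + T false := by
      rw [sum_cons, Fintype.sum_bool]
    rw [h7, h8, h6]
    have h9 : (T true + T false) / 2 ^ (m + 1) = (T true / 2 ^ m + T false / 2 ^ m) / 2 := by
      rw [pow_succ]; field_simp
    rw [h9]
    rw [h4] at h3
    have h10 := mul_le_mul_of_nonneg_left h3 hP.le
    have h11 : 2 ^ m * (T true / 2 ^ m * log (T true / 2 ^ m) +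
        T false / 2 ^ m * log (T false / 2 ^ m) -
          (T true / 2 ^ m + T false / 2 ^ m) * log ((T true / 2 ^ m + T false / 2 ^ m) / 2)) =
        T true * log (T true / 2 ^ m) + T false * log (T false / 2 ^ m) -
          (T true + T false) * log ((T true / 2 ^ m + T false / 2 ^ m) / 2) := by
      field_simp
    have h12 : (2 : ℝ) ^ m * ((√(T true) - √(T false)) ^ 2 / 2 ^ m) =
        (√(T true) - √(T false)) ^ 2 := by
      field_simp
    rw [h11, h12] at h10
    linarith

/-- The relative entropy of a part of the hypercube of total mass `T`. -/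
theorem Dkl_part {m : ℕ} (F : (Fin m → Bool) → ℝ) (hF : ∀ x, 0 ≤ F x) (hT : 0 < ∑ x, F x) :
    (∑ x, F x) * Dkl (fun x => F x / ∑ x, F x) ≤
      1 / 2 * ∑ x, ∑ i, (√(F x) - √(F (flip x i))) ^ 2 := by
  refine le_trans (le_of_eq ?_) (logsob_cube m F hF)
  set T : ℝ := ∑ x, F x with hTd
  unfold Dkl
  rw [Finset.mul_sum]
  have hP : (0 : ℝ) < 2 ^ m := by positivity
  have h1 : ∀ x, T * (F x / T * log (Fintype.card (Fin m → Bool) * (F x / T))) =
      F x * log (F x) - F x * log (T / 2 ^ m) := by
    intro x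
    rcases (hF x).eq_or_lt with h | h
    · rw [← h]; simp
    · have e1 : (Fintype.card (Fin m → Bool) : ℝ) * (F x / T) = F x / (T / 2 ^ m) := by
        have : (Fintype.card (Fin m → Bool) : ℝ) = 2 ^ m := by simp
        rw [this]
        field_simp
      rw [e1, log_div h.ne' (by positivity)]
      field_simp
  rw [Finset.sum_congr rfl fun x _ => h1 x, Finset.sum_sub_distrib, ← Finset.sum_mul]

end P325qz
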