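import Mathlib

/-!
P325qz.Rad (MP_325f1f_lc, helper24): exponential moments of the squared length of an orthogonal
projection of a uniform sign vector:
`E exp (|Pi y|^2 / 4) <= 2 ^ (r / 2)` for a projection of rank `r`.
-/

namespace P325qz

open Finset Real MeasureTheory

/-- the sign of a Boolean -/
def sg (a : Bool) : ℝ := if a then 1 else -1

/-- the linear form with coefficients `c` on sign vectors -/
def lf {b : ℕ} (c : Fin b → ℝ) (y : Fin b → Bool) : ℝ := ∑ i, c i * sg (y i)

theorem sg_sq (a : Bool) : sg a ^ 2 = 1 := by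
  unfold sg; split_ifs <;> norm_num

theorem lf_add {b : ℕ} (c d : Fin b → ℝ) (t : ℝ) (y : Fin b → Bool) :
    lf (fun i => c i + t * d i) y = lf c y + t * lf d y := by
  unfold lf
  rw [Finset.mul_sum, ← Finset.sum_add_distrib]
  exact Finset.sum_congr rfl fun i _ => by ring

/-- a shifted Gaussian integral -/
theorem gauss_int {a : ℝ} (ha : 0 < a) (β : ℝ) :
    Integrable (fun t : ℝ => exp (-a * t ^ 2 + β * t)) ∧
      ∫ t : ℝ, exp (-a * t ^ 2 + β * t) = √(π / a) * exp (β ^ 2 / (4 * a)) := by
  have key : (fun t : ℝ => exp (-a * t ^ 2 + β * t)) =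
      fun t : ℝ => exp (β ^ 2 / (4 * a)) * exp (-a * (t - β / (2 * a)) ^ 2) := by
    funext t
    rw [← exp_add]
    congr 1
    field_simp
    ring
  have hI : Integrable (fun t : ℝ => exp (-a * t ^ 2)) := integrable_exp_neg_mul_sq ha
  constructor
  · rw [key]
    exact (hI.comp_sub_right (β / (2 * a))).const_mul _
  · rw [key, integral_const_mul]
    rw [integral_sub_right_eq_self (fun t : ℝ => exp (-a * t ^ 2)) (β / (2 * a))]
    rw [integral_gaussian]
    ring

/-- the moment generating function of a uniform sign vector -/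
theorem rad_mgf {b : ℕ} (c : Fin b → ℝ) :
    ∑ y : Fin b → Bool, exp (lf c y) ≤ 2 ^ b * exp ((∑ i, c i ^ 2) / 2) := by
  have h1 : ∑ y : Fin b → Bool, exp (lf c y) = ∏ i : Fin b, ∑ a : Bool, exp (c i * sg a) := by
    rw [Finset.prod_univ_sum]
    simp only [Fintype.piFinset_univ]
    refine Finset.sum_congr rfl fun y _ => ?_
    unfold lf
    rw [exp_sum]
  rw [h1]
  have h2 : ∀ i : Fin b, ∑ a : Bool, exp (c i * sg a) ≤ 2 * exp (c i ^ 2 / 2) := by
    intro i
    have := cosh_le_exp_half_sq (c i)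
    rw [cosh_eq] at this
    have h3 : ∑ a : Bool, exp (c i * sg a) = exp (c i) + exp (-(c i)) := by
      simp [sg]
    rw [h3]
    linarith
  calc ∏ i : Fin b, ∑ a : Bool, exp (c i * sg a)
      ≤ ∏ i : Fin b, (2 * exp (c i ^ 2 / 2)) :=
        Finset.prod_le_prod (fun i _ => Finset.sum_nonneg fun a _ => (exp_pos _).le)
          fun i _ => h2 i
    _ = 2 ^ b * exp ((∑ i, c i ^ 2) / 2) := by
        rw [Finset.prod_mul_distrib, ← exp_sum, Finset.sum_div]
        simp

/-- **Exponential moments of `|Pi y|^2`** for a uniform sign vector `y`, with a linear shift. -/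
theorem rad_shift {b : ℕ} : ∀ (r : ℕ) (u : Fin r → Fin b → ℝ)
    (_ : ∀ k l, ∑ i, u k i * u l i = if k = l then 1 else 0) (c : Fin b → ℝ),
    ∑ y : Fin b → Bool, exp ((∑ k, lf (u k) y ^ 2) / 4 + lf c y) ≤
      2 ^ b * (√2 ^ r * exp ((∑ i, c i ^ 2) / 2 + (∑ k, (∑ i, c i * u k i) ^ 2) / 2)) := by
  intro r
  induction r with
  | zero =>
    intro u _ c
    simpa using rad_mgf c
  | succ r ih =>
    intro u hu c
    set u' : Fin r → Fin b → ℝ := fun k => u k.castSucc with hu'
    set v : Fin b → ℝ := u (Fin.last r) with hv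
    have hu'o : ∀ k l, ∑ i, u' k i * u' l i = if k = l then 1 else 0 := by
      intro k l
      have := hu k.castSucc l.castSucc
      simpa [hu', Fin.castSucc_inj] using this
    have hvv : ∑ i, v i ^ 2 = 1 := by
      have := hu (Fin.last r) (Fin.last r)
      simp only [if_true] at this
      rw [← this]
      exact Finset.sum_congr rfl fun i _ => by rw [hv]; ring
    have hvu : ∀ k, ∑ i, v i * u' k i = 0 := by
      intro k
      have := hu (Fin.last r) k.castSucc
      rw [if_neg (Fin.castSucc_lt_last k).ne'] at this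
      exact this
    set s : ℝ := ∑ i, c i * v i with hs
    -- Hubbard-Stratonovich for the last vector
    have hHS : ∀ z : ℝ, exp (z ^ 2 / 4) = (√π)⁻¹ * ∫ t : ℝ, exp (-1 * t ^ 2 + z * t) := by
      intro z
      rw [(gauss_int one_pos z).2, div_one, mul_one]
      rw [← mul_assoc, inv_mul_cancel₀ (by positivity), one_mul]
    have hsum : ∀ y : Fin b → Bool, (∑ k, lf (u k) y ^ 2) / 4 + lf c y =
        ((∑ k, lf (u' k) y ^ 2) / 4 + lf c y) + lf v y ^ 2 / 4 := by
      intro y
      rw [Fin.sum_univ_castSucc]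
      simp only [hu', hv]
      ring
    have h1 : ∑ y : Fin b → Bool, exp ((∑ k, lf (u k) y ^ 2) / 4 + lf c y) =
        (√π)⁻¹ * ∫ t : ℝ, exp (-1 * t ^ 2) *
          ∑ y : Fin b → Bool, exp ((∑ k, lf (u' k) y ^ 2) / 4 + lf (fun i => c i + t * v i) y) := by
      have h2 : ∀ y : Fin b → Bool, exp ((∑ k, lf (u k) y ^ 2) / 4 + lf c y) =
          (√π)⁻¹ * ∫ t : ℝ, exp (-1 * t ^ 2) *
            exp ((∑ k, lf (u' k) y ^ 2) / 4 + lf (fun i => c i + t * v i) y) := by
        intro y
        rw [hsum y, exp_add, hHS (lf v y), mul_left_comm, ← integral_const_mul]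
        congr 1
        refine integral_congr_ae (Filter.Eventually.of_forall fun t => ?_)
        simp only
        rw [← exp_add, ← exp_add, lf_add]
        congr 1
        ring
      rw [Finset.sum_congr rfl fun y _ => h2 y, ← Finset.mul_sum, ← integral_finsetSum]
      · congr 1
        refine integral_congr_ae (Filter.Eventually.of_forall fun t => ?_)
        simp only
        rw [Finset.mul_sum]
      · intro y _
        have h3 := ((gauss_int one_pos (lf v y)).1).const_mul
          (exp ((∑ k, lf (u' k) y ^ 2) / 4 + lf c y))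
        refine h3.congr (Filter.Eventually.of_forall fun t => ?_)
        simp only
        rw [← exp_add, ← exp_add, lf_add]
        congr 1
        ring
    rw [h1]
    -- the bound inside the integral
    set A : ℝ := (∑ i, c i ^ 2) / 2 + (∑ k, (∑ i, c i * u' k i) ^ 2) / 2 with hA
    have hb : ∀ t : ℝ, exp (-1 * t ^ 2) *
          ∑ y : Fin b → Bool, exp ((∑ k, lf (u' k) y ^ 2) / 4 + lf (fun i => c i + t * v i) y) ≤
        (2 ^ b * √2 ^ r * exp A) * exp (-(1 / 2) * t ^ 2 + s * t) := by
      intro t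
      have h4 := ih u' hu'o (fun i => c i + t * v i)
      have h5 : (∑ i, (c i + t * v i) ^ 2) / 2 +
          (∑ k, (∑ i, (c i + t * v i) * u' k i) ^ 2) / 2 = A + (t ^ 2 / 2 + s * t) := by
        have e1 : ∑ i, (c i + t * v i) ^ 2 = ∑ i, c i ^ 2 + 2 * t * s + t ^ 2 := by
          have : ∀ i, (c i + t * v i) ^ 2 = c i ^ 2 + 2 * t * (c i * v i) + t ^ 2 * v i ^ 2 := by
            intro i; ring
          rw [Finset.sum_congr rfl fun i _ => this i, Finset.sum_add_distrib,
            Finset.sum_add_distrib, ← Finset.mul_sum, ← Finset.mul_sum, hvv, ← hs]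
          ring
        have e2 : ∀ k, ∑ i, (c i + t * v i) * u' k i = ∑ i, c i * u' k i := by
          intro k
          have : ∀ i, (c i + t * v i) * u' k i = c i * u' k i + t * (v i * u' k i) := by
            intro i; ring
          rw [Finset.sum_congr rfl fun i _ => this i, Finset.sum_add_distrib, ← Finset.mul_sum,
            hvu k]
          ring
        simp only [e2, e1]
        rw [hA]
        ring
      rw [h5] at h4
      calc exp (-1 * t ^ 2) *
            ∑ y : Fin b → Bool, exp ((∑ k, lf (u' k) y ^ 2) / 4 + lf (fun i => c i + t * v i) y)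
          ≤ exp (-1 * t ^ 2) * (2 ^ b * (√2 ^ r * exp (A + (t ^ 2 / 2 + s * t)))) :=
            mul_le_mul_of_nonneg_left h4 (exp_pos _).le
        _ = (2 ^ b * √2 ^ r * exp A) * exp (-(1 / 2) * t ^ 2 + s * t) := by
            rw [exp_add A]
            have : exp (-(1 / 2) * t ^ 2 + s * t) =
                exp (-1 * t ^ 2) * exp (t ^ 2 / 2 + s * t) := by
              rw [← exp_add]; congr 1; ring
            rw [this]
            ring
    have hint : Integrable (fun t : ℝ =>
        (2 ^ b * √2 ^ r * exp A) * exp (-(1 / 2) * t ^ 2 + s * t)) :=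
      ((gauss_int (by norm_num : (0 : ℝ) < 1 / 2) s).1).const_mul _
    have h6 : ∫ t : ℝ, exp (-1 * t ^ 2) *
          ∑ y : Fin b → Bool, exp ((∑ k, lf (u' k) y ^ 2) / 4 + lf (fun i => c i + t * v i) y) ≤
        ∫ t : ℝ, (2 ^ b * √2 ^ r * exp A) * exp (-(1 / 2) * t ^ 2 + s * t) := by
      refine integral_mono_of_nonneg (Filter.Eventually.of_forall fun t => ?_) hint
        (Filter.Eventually.of_forall hb)
      exact mul_nonneg (exp_pos _).le (Finset.sum_nonneg fun y _ => (exp_pos _).le)
    have h7 : ∫ t : ℝ, (2 ^ b * √2 ^ r * exp A) * exp (-(1 / 2) * t ^ 2 + s * t) =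
        (2 ^ b * √2 ^ r * exp A) * (√(2 * π) * exp (s ^ 2 / 2)) := by
      rw [integral_const_mul, (gauss_int (by norm_num : (0 : ℝ) < 1 / 2) s).2]
      congr 2
      · congr 1; ring
      · congr 1; ring
    have h8 : (√π)⁻¹ * √(2 * π) = √2 := by
      rw [Real.sqrt_mul (by norm_num)]
      field_simp
    have h9 : (∑ i, c i ^ 2) / 2 + (∑ k : Fin (r + 1), (∑ i, c i * u k i) ^ 2) / 2 =
        A + s ^ 2 / 2 := by
      rw [Fin.sum_univ_castSucc, hA]
      simp only [hu', hs, hv]
      ring
    calc (√π)⁻¹ * ∫ t : ℝ, exp (-1 * t ^ 2) *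
          ∑ y : Fin b → Bool, exp ((∑ k, lf (u' k) y ^ 2) / 4 + lf (fun i => c i + t * v i) y)
        ≤ (√π)⁻¹ * ((2 ^ b * √2 ^ r * exp A) * (√(2 * π) * exp (s ^ 2 / 2))) := by
          rw [← h7]
          exact mul_le_mul_of_nonneg_left h6 (by positivity)
      _ = 2 ^ b * (√2 ^ (r + 1) * exp ((∑ i, c i ^ 2) / 2 +
            (∑ k : Fin (r + 1), (∑ i, c i * u k i) ^ 2) / 2)) := by
          rw [h9, exp_add A]
          calc (√π)⁻¹ * ((2 ^ b * √2 ^ r * exp A) * (√(2 * π) * exp (s ^ 2 / 2)))
              = ((√π)⁻¹ * √(2 * π)) * (2 ^ b * √2 ^ r * exp A * exp (s ^ 2 / 2)) := by ring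
            _ = _ := by rw [h8]; ring

/-- **Exponential moments of `|Pi y|^2`** for a uniform sign vector `y`. -/
theorem rad {b r : ℕ} (u : Fin r → Fin b → ℝ)
    (hu : ∀ k l, ∑ i, u k i * u l i = if k = l then 1 else 0) :
    ∑ y : Fin b → Bool, exp ((∑ k, lf (u k) y ^ 2) / 4) ≤ 2 ^ b * √2 ^ r := by
  have h := rad_shift r u hu (fun _ => 0)
  simpa [lf] using h

end P325qz
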