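import Mathlib
import Pool.Agent.Lib.P325qz.Rad
import Pool.Agent.Lib.P325qz.Gibbs

/-!
P325qz.OneB (MP_325f1f_lc, helper24): one block.  For a law `ν` on sign vectors of length `b` and
`C > 0` the sign vector splits as `y = w true y + w false y` into orthogonal parts, the first in a
fixed space of dimension at most `b / C`, the second with all second moments at most `C`.
-/

namespace P325qz

open Finset Real

/-- projection to the span of an orthonormal family -/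
def pr {b r : ℕ} (u : Fin r → Fin b → ℝ) (x : Fin b → ℝ) : Fin b → ℝ :=
  ∑ k, (u k ⬝ᵥ x) • u k

theorem dot_pr {b r : ℕ} (u : Fin r → Fin b → ℝ) (c x : Fin b → ℝ) :
    c ⬝ᵥ pr u x = ∑ k, (u k ⬝ᵥ c) * (u k ⬝ᵥ x) := by
  unfold pr
  rw [dotProduct_sum]
  refine Finset.sum_congr rfl fun k _ => ?_
  rw [dotProduct_smul, smul_eq_mul, dotProduct_comm c (u k), mul_comm]

theorem dot_pr_comm {b r : ℕ} (u : Fin r → Fin b → ℝ) (c x : Fin b → ℝ) :
    c ⬝ᵥ pr u x = pr u c ⬝ᵥ x := by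
  rw [dotProduct_comm (pr u c) x, dot_pr, dot_pr]
  exact Finset.sum_congr rfl fun k _ => mul_comm _ _

theorem u_dot_pr {b r : ℕ} (u : Fin r → Fin b → ℝ)
    (hu : ∀ k l, u k ⬝ᵥ u l = if k = l then 1 else 0) (k : Fin r) (x : Fin b → ℝ) :
    u k ⬝ᵥ pr u x = u k ⬝ᵥ x := by
  rw [dot_pr]
  simp only [hu]
  simp

theorem pr_dot_pr {b r : ℕ} (u : Fin r → Fin b → ℝ)
    (hu : ∀ k l, u k ⬝ᵥ u l = if k = l then 1 else 0) (c x : Fin b → ℝ) :
    pr u c ⬝ᵥ pr u x = ∑ k, (u k ⬝ᵥ c) * (u k ⬝ᵥ x) := by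
  rw [dot_pr]
  refine Finset.sum_congr rfl fun k _ => ?_
  rw [u_dot_pr u hu]

theorem pr_dot_compl {b r : ℕ} (u : Fin r → Fin b → ℝ)
    (hu : ∀ k l, u k ⬝ᵥ u l = if k = l then 1 else 0) (x : Fin b → ℝ) :
    pr u x ⬝ᵥ (x - pr u x) = 0 := by
  rw [dotProduct_sub, pr_dot_pr u hu, dotProduct_comm, dot_pr, sub_self]

theorem compl_dot_compl {b r : ℕ} (u : Fin r → Fin b → ℝ)
    (hu : ∀ k l, u k ⬝ᵥ u l = if k = l then 1 else 0) (x : Fin b → ℝ) :
    pr u x ⬝ᵥ pr u x + (x - pr u x) ⬝ᵥ (x - pr u x) = x ⬝ᵥ x := by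
  have h := pr_dot_compl u hu x
  rw [dotProduct_sub] at h
  have h2 : (x - pr u x) ⬝ᵥ (x - pr u x) = x ⬝ᵥ x - pr u x ⬝ᵥ pr u x := by
    rw [sub_dotProduct, dotProduct_sub, dotProduct_sub, dotProduct_comm x (pr u x)]
    linarith
  rw [h2]
  ring

theorem bessel {b r : ℕ} (u : Fin r → Fin b → ℝ)
    (hu : ∀ k l, u k ⬝ᵥ u l = if k = l then 1 else 0) (x : Fin b → ℝ) :
    ∑ k, (u k ⬝ᵥ x) ^ 2 ≤ x ⬝ᵥ x := by
  have h := compl_dot_compl u hu x
  have h2 : 0 ≤ (x - pr u x) ⬝ᵥ (x - pr u x) :=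
    Finset.sum_nonneg fun i _ => mul_self_nonneg _
  have h3 : pr u x ⬝ᵥ pr u x = ∑ k, (u k ⬝ᵥ x) ^ 2 := by
    rw [pr_dot_pr u hu]
    exact Finset.sum_congr rfl fun k _ => (sq _).symm
  linarith

/-- the vector of signs -/
def sv {b : ℕ} (y : Fin b → Bool) : Fin b → ℝ := fun i => sg (y i)

theorem sv_dot {b : ℕ} (y : Fin b → Bool) : sv y ⬝ᵥ sv y = b := by
  unfold sv dotProduct
  rw [Finset.sum_congr rfl fun i _ => by rw [← sq, sg_sq]]
  simp

/-- a maximal orthonormal family of directions of large second moment -/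
theorem exists_family {b : ℕ} (ν : (Fin b → Bool) → ℝ) (h0 : ∀ y, 0 ≤ ν y) (h1 : ∑ y, ν y = 1)
    {C : ℝ} (hC : 0 < C) :
    ∃ (r : ℕ) (u : Fin r → Fin b → ℝ), (∀ k l, u k ⬝ᵥ u l = if k = l then 1 else 0) ∧
      r * C ≤ b ∧
      ∀ c : Fin b → ℝ, (∀ k, u k ⬝ᵥ c = 0) → ∑ y, ν y * (c ⬝ᵥ sv y) ^ 2 ≤ C * (c ⬝ᵥ c) := by
  set Good : ℕ → Prop := fun r => ∃ u : Fin r → Fin b → ℝ,
    (∀ k l, u k ⬝ᵥ u l = if k = l then 1 else 0) ∧ ∀ k, C < ∑ y, ν y * (u k ⬝ᵥ sv y) ^ 2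
    with hGood
  have hbd : ∀ r, Good r → r * C ≤ b := by
    rintro r ⟨u, hu, hk⟩
    calc (r : ℝ) * C = ∑ k : Fin r, C := by simp
      _ ≤ ∑ k : Fin r, ∑ y, ν y * (u k ⬝ᵥ sv y) ^ 2 := Finset.sum_le_sum fun k _ => (hk k).le
      _ = ∑ y, ν y * ∑ k, (u k ⬝ᵥ sv y) ^ 2 := by
          rw [Finset.sum_comm]
          exact Finset.sum_congr rfl fun y _ => by rw [Finset.mul_sum]
      _ ≤ ∑ y, ν y * b := by
          refine Finset.sum_le_sum fun y _ => mul_le_mul_of_nonneg_left ?_ (h0 y)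
          rw [← sv_dot y]
          exact bessel u hu _
      _ = b := by rw [← Finset.sum_mul, h1, one_mul]
  have hex : ∃ r, Good r ∧ ¬ Good (r + 1) := by
    by_contra hcon
    push Not at hcon
    have hall : ∀ r, Good r := by
      intro r
      induction r with
      | zero => exact ⟨Fin.elim0, fun k => k.elim0, fun k => k.elim0⟩
      | succ r ih => exact hcon r ih
    obtain ⟨r, hr⟩ := exists_nat_gt ((b : ℝ) / C)
    have := hbd r (hall r)
    rw [div_lt_iff₀ hC] at hr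
    linarith
  obtain ⟨r, hr, hnr⟩ := hex
  have hrb := hbd r hr
  obtain ⟨u, hu, hk⟩ := hr
  refine ⟨r, u, hu, hrb, fun c hc => ?_⟩
  have hcc : 0 ≤ c ⬝ᵥ c := Finset.sum_nonneg fun i _ => mul_self_nonneg _
  rcases hcc.eq_or_lt with h | h
  · have hc0 : c = 0 := by
      exact dotProduct_self_eq_zero.1 h.symm
    rw [hc0]
    simp
  · by_contra hcon
    push Not at hcon
    apply hnr
    set n : ℝ := √(c ⬝ᵥ c) with hn
    have hnpos : 0 < n := Real.sqrt_pos.2 h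
    have hnn : n * n = c ⬝ᵥ c := Real.mul_self_sqrt hcc
    refine ⟨Fin.snoc u (n⁻¹ • c), ?_, ?_⟩
    · intro k l
      refine Fin.lastCases ?_ (fun k => ?_) k
      · refine Fin.lastCases ?_ (fun l => ?_) l
        · simp only [Fin.snoc_last, if_true]
          rw [smul_dotProduct, dotProduct_smul, smul_eq_mul, smul_eq_mul, ← hnn]
          field_simp
        · simp only [Fin.snoc_last, Fin.snoc_castSucc]
          rw [if_neg (Fin.castSucc_lt_last l).ne', smul_dotProduct, dotProduct_comm, hc l,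
            smul_zero]
      · refine Fin.lastCases ?_ (fun l => ?_) l
        · simp only [Fin.snoc_last, Fin.snoc_castSucc]
          rw [if_neg (Fin.castSucc_lt_last k).ne, dotProduct_smul, hc k, smul_zero]
        · simp only [Fin.snoc_castSucc, Fin.castSucc_inj]
          exact hu k l
    · intro k
      refine Fin.lastCases ?_ (fun k => ?_) k
      · simp only [Fin.snoc_last]
        have h2 : ∀ y, ν y * (n⁻¹ • c ⬝ᵥ sv y) ^ 2 = (n * n)⁻¹ * (ν y * (c ⬝ᵥ sv y) ^ 2) := by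
          intro y
          rw [smul_dotProduct, smul_eq_mul]
          field_simp
        rw [Finset.sum_congr rfl fun y _ => h2 y, ← Finset.mul_sum, hnn, inv_mul_eq_div,
          lt_div_iff₀ h]
        exact hcon
      · simp only [Fin.snoc_castSucc]
        exact hk k

/-- **One block**: the splitting of a random sign vector. -/
theorem oneb {b : ℕ} (ν : (Fin b → Bool) → ℝ) (h0 : ∀ y, 0 ≤ ν y) (h1 : ∑ y, ν y = 1)
    {C : ℝ} (hC : 0 < C) :
    ∃ w : Bool → (Fin b → Bool) → Fin b → ℝ,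
      (∀ a i, w true a i + w false a i = sg (a i)) ∧
      (∀ a, ∑ i, w true a i * w false a i = 0) ∧
      (∀ a, ∑ i, w true a i ^ 2 + ∑ i, w false a i ^ 2 = b) ∧
      (∀ c : Fin b → ℝ, ∑ a, ν a * (∑ i, c i * w true a i) ^ 2 ≤ b * ∑ i, c i ^ 2) ∧
      (∀ c : Fin b → ℝ, ∑ a, ν a * (∑ i, c i * w false a i) ^ 2 ≤ C * ∑ i, c i ^ 2) ∧
      ∑ a, ν a * ∑ i, w true a i ^ 2 ≤ 4 * Dkl ν + 2 * log 2 * (b / C) := by
  obtain ⟨r, u, hu, hrb, hmax⟩ := exists_family ν h0 h1 hC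
  have hsq : ∀ x : Fin b → ℝ, ∑ i, x i ^ 2 = x ⬝ᵥ x := fun x =>
    Finset.sum_congr rfl fun i _ => sq _
  refine ⟨fun o a => if o then pr u (sv a) else sv a - pr u (sv a), ?_, ?_, ?_, ?_, ?_, ?_⟩
  · intro a i
    simp [sv]
  · intro a
    exact pr_dot_compl u hu (sv a)
  · intro a
    simp only [if_true, Bool.false_eq_true, if_false]
    rw [hsq, hsq, compl_dot_compl u hu, sv_dot]
  · intro c
    simp only [if_true]
    rw [hsq c]
    have h2 : ∀ a, (∑ i, c i * pr u (sv a) i) ^ 2 ≤ b * (c ⬝ᵥ c) := by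
      intro a
      have h3 : ∑ i, c i * pr u (sv a) i = c ⬝ᵥ pr u (sv a) := rfl
      rw [h3]
      have h4 : (c ⬝ᵥ pr u (sv a)) ^ 2 ≤ (c ⬝ᵥ c) * (pr u (sv a) ⬝ᵥ pr u (sv a)) := by
        have := Finset.sum_mul_sq_le_sq_mul_sq univ c (pr u (sv a))
        rw [hsq, hsq] at this
        exact this
      have h5 : pr u (sv a) ⬝ᵥ pr u (sv a) ≤ b := by
        have h6 := compl_dot_compl u hu (sv a)
        rw [sv_dot] at h6
        have h7 : 0 ≤ (sv a - pr u (sv a)) ⬝ᵥ (sv a - pr u (sv a)) :=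
          Finset.sum_nonneg fun i _ => mul_self_nonneg _
        linarith
      have h8 : 0 ≤ c ⬝ᵥ c := Finset.sum_nonneg fun i _ => mul_self_nonneg _
      calc (c ⬝ᵥ pr u (sv a)) ^ 2 ≤ _ := h4
        _ ≤ (c ⬝ᵥ c) * b := mul_le_mul_of_nonneg_left h5 h8
        _ = _ := mul_comm _ _
    calc ∑ a, ν a * (∑ i, c i * pr u (sv a) i) ^ 2 ≤ ∑ a, ν a * (b * (c ⬝ᵥ c)) :=
          Finset.sum_le_sum fun a _ => mul_le_mul_of_nonneg_left (h2 a) (h0 a)
      _ = _ := by rw [← Finset.sum_mul, h1, one_mul]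
  · intro c
    simp only [Bool.false_eq_true, if_false]
    rw [hsq c]
    have h2 : ∀ a, ∑ i, c i * (sv a - pr u (sv a)) i = (c - pr u c) ⬝ᵥ sv a := by
      intro a
      have h3 : ∑ i, c i * (sv a - pr u (sv a)) i = c ⬝ᵥ (sv a - pr u (sv a)) := rfl
      rw [h3, dotProduct_sub, sub_dotProduct, dot_pr_comm]
    rw [Finset.sum_congr rfl fun a _ => by rw [h2 a]]
    have h4 := hmax (c - pr u c) (fun k => by rw [dotProduct_sub, u_dot_pr u hu, sub_self])
    have h5 : (c - pr u c) ⬝ᵥ (c - pr u c) ≤ c ⬝ᵥ c := by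
      have h6 := compl_dot_compl u hu c
      have h7 : 0 ≤ pr u c ⬝ᵥ pr u c := Finset.sum_nonneg fun i _ => mul_self_nonneg _
      linarith
    exact h4.trans (mul_le_mul_of_nonneg_left h5 hC.le)
  · simp only [if_true]
    have h2 : ∀ a, ∑ i, pr u (sv a) i ^ 2 = 4 * ((∑ k, lf (u k) a ^ 2) / 4) := by
      intro a
      rw [hsq, pr_dot_pr u hu]
      have : ∀ k, (u k ⬝ᵥ sv a) * (u k ⬝ᵥ sv a) = lf (u k) a ^ 2 := fun k => (sq _).symm
      rw [Finset.sum_congr rfl fun k _ => this k]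
      ring
    have h3 : ∑ a, ν a * ∑ i, pr u (sv a) i ^ 2 =
        4 * ∑ a, ν a * ((∑ k, lf (u k) a ^ 2) / 4) := by
      rw [Finset.mul_sum]
      refine Finset.sum_congr rfl fun a _ => ?_
      rw [h2 a]
      ring
    rw [h3]
    have h4 := gibbs ν h0 h1 (fun a => (∑ k, lf (u k) a ^ 2) / 4) (G := √2 ^ r) (by positivity)
      (by simpa using rad u hu)
    have h5 : log (√2 ^ r) = r * log 2 / 2 := by
      rw [log_pow, log_sqrt (by norm_num)]
      ring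
    rw [h5] at h4
    have h6 : (r : ℝ) ≤ b / C := by
      rw [le_div_iff₀ hC]
      exact hrb
    have h7 : (r : ℝ) * log 2 ≤ b / C * log 2 :=
      mul_le_mul_of_nonneg_right h6 (log_nonneg (by norm_num))
    linarith

end P325qz
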