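import Mathlib
import Pool.Agent.Lib.P325qz.OneB

/-!
P325qz.Prod (MP_325f1f_lc, helper24): the splitting of the tensor product of `j` blocks of signs
for an arbitrary law: `∏ l, y_l (S l) = ∑ O, v O y S`, where `O` marks the blocks whose large part
is taken.
-/

namespace P325qz

open Finset Real

/-- the number of marked blocks -/
def cnt {j : ℕ} (O : Fin j → Bool) : ℝ := ∑ l, if O l then (1 : ℝ) else 0

theorem cnt_nonneg {j : ℕ} (O : Fin j → Bool) : 0 ≤ cnt O := by
  unfold cnt
  exact Finset.sum_nonneg fun l _ => by split_ifs <;> norm_num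

theorem cnt_cons {j : ℕ} (o : Bool) (O : Fin j → Bool) :
    cnt (Fin.cons o O : Fin (j + 1) → Bool) = (if o then 1 else 0) + cnt O := by
  unfold cnt
  rw [Fin.sum_univ_succ]
  simp

/-- **The splitting of the product of the blocks.** -/
theorem prodv {b : ℕ} {C : ℝ} (hC : 0 < C) : ∀ (j : ℕ) (μ : (Fin j → Fin b → Bool) → ℝ)
    (_ : ∀ y, 0 ≤ μ y) (_ : ∑ y, μ y = 1),
    ∃ v : (Fin j → Bool) → (Fin j → Fin b → Bool) → (Fin j → Fin b) → ℝ,
      (∀ y S, ∑ O, v O y S = ∏ l, sg (y l (S l))) ∧
      (∀ (O : Fin j → Bool) (a : (Fin j → Fin b) → ℝ),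
        ∑ y, μ y * (∑ S, a S * v O y S) ^ 2 ≤
          (∏ l, if O l then (b : ℝ) else C) * ∑ S, a S ^ 2) ∧
      (∀ O O' : Fin j → Bool, O ≠ O' → ∀ y, ∑ S, v O y S * v O' y S = 0) ∧
      (∀ y, ∑ O, ∑ S, v O y S ^ 2 = (b : ℝ) ^ j) ∧
      b * ∑ y, μ y * ∑ O, cnt O * ∑ S, v O y S ^ 2 ≤
        (b : ℝ) ^ j * (4 * Dkl μ + 2 * log 2 * (b * j / C)) := by
  intro j
  induction j with
  | zero =>
    intro μ h0 h1
    refine ⟨fun _ _ _ => 1, ?_, ?_, ?_, ?_, ?_⟩
    · intro y S
      simp
    · intro O a
      rw [← Finset.sum_mul, h1]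
      simp
    · intro O O' hO
      exact absurd (Subsingleton.elim O O') hO
    · intro y
      simp
    · have h2 : ∀ y, μ y = 1 := by
        intro y
        rw [← h1, Fintype.sum_unique]
        exact congrArg μ (Subsingleton.elim _ _)
      simp [cnt, Dkl, h2]
  | succ j ih =>
    intro μ h0 h1
    obtain ⟨ν, κ, hν0, hν1, hκ0, hκ1, hfac, hD⟩ := disint μ h0 h1
    obtain ⟨w, w1, w2, w3, w4, w5, w6⟩ := oneb ν hν0 hν1 hC
    choose v' v1 v2 v3 v4 v5 using fun a => ih (κ a) (hκ0 a) (hκ1 a)
    refine ⟨fun O y S => w (O 0) (y 0) (S 0) * v' (y 0) (Fin.tail O) (Fin.tail y) (Fin.tail S),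
      ?_, ?_, ?_, ?_, ?_⟩
    · intro y S
      rw [sum_cons]
      simp only [Fin.cons_zero, Fin.tail_cons]
      rw [Finset.sum_congr rfl fun o _ => (Finset.mul_sum _ _ _).symm]
      simp only [v1]
      rw [← Finset.sum_mul, Fintype.sum_bool, w1, Fin.prod_univ_succ]
      rfl
    · intro O a
      rw [sum_cons]
      simp only [hfac, Fin.cons_zero, Fin.tail_cons]
      set o := O 0 with ho
      set O' := Fin.tail O with hO'
      set W : ℝ := ∏ l, if O' l then (b : ℝ) else C with hW
      have hW0 : 0 ≤ W := Finset.prod_nonneg fun l _ => by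
        split_ifs
        · positivity
        · exact hC.le
      have e1 : ∀ (α : Fin b → Bool) (y' : Fin j → Fin b → Bool),
          ∑ S : Fin (j + 1) → Fin b, a S * (w o α (S 0) * v' α O' y' (Fin.tail S)) =
            ∑ S', (∑ s, a (Fin.cons s S') * w o α s) * v' α O' y' S' := by
        intro α y'
        rw [sum_cons, Finset.sum_comm]
        refine Finset.sum_congr rfl fun S' _ => ?_
        rw [Finset.sum_mul]
        refine Finset.sum_congr rfl fun s _ => ?_
        simp only [Fin.cons_zero, Fin.tail_cons]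
        ring
      have e2 : ∀ α, ∑ y', ν α * κ α y' *
          (∑ S : Fin (j + 1) → Fin b, a S * (w o α (S 0) * v' α O' y' (Fin.tail S))) ^ 2 ≤
            ν α * (W * ∑ S', (∑ s, a (Fin.cons s S') * w o α s) ^ 2) := by
        intro α
        have h := v2 α O' (fun S' => ∑ s, a (Fin.cons s S') * w o α s)
        have h' := mul_le_mul_of_nonneg_left h (hν0 α)
        rw [Finset.mul_sum] at h'
        refine le_trans (le_of_eq ?_) h'
        refine Finset.sum_congr rfl fun y' _ => ?_
        rw [e1, mul_assoc]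
      have e3 : ∀ S' : Fin j → Fin b, ∑ α, ν α * (∑ s, a (Fin.cons s S') * w o α s) ^ 2 ≤
          (if o then (b : ℝ) else C) * ∑ s, a (Fin.cons s S') ^ 2 := by
        intro S'
        cases ho2 : o with
        | true => simpa using w4 (fun s => a (Fin.cons s S'))
        | false => simpa using w5 (fun s => a (Fin.cons s S'))
      calc ∑ α, ∑ y', ν α * κ α y' *
          (∑ S : Fin (j + 1) → Fin b, a S * (w o α (S 0) * v' α O' y' (Fin.tail S))) ^ 2
          ≤ ∑ α, ν α * (W * ∑ S', (∑ s, a (Fin.cons s S') * w o α s) ^ 2) :=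
            Finset.sum_le_sum fun α _ => e2 α
        _ = W * ∑ S', ∑ α, ν α * (∑ s, a (Fin.cons s S') * w o α s) ^ 2 := by
            rw [Finset.sum_comm, Finset.mul_sum]
            refine Finset.sum_congr rfl fun α _ => ?_
            rw [← Finset.mul_sum]
            ring
        _ ≤ W * ∑ S' : Fin j → Fin b, (if o then (b : ℝ) else C) *
              ∑ s, a (Fin.cons s S') ^ 2 :=
            mul_le_mul_of_nonneg_left (Finset.sum_le_sum fun S' _ => e3 S') hW0
        _ = (∏ l, if O l then (b : ℝ) else C) * ∑ S, a S ^ 2 := by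
            rw [← Finset.mul_sum, sum_cons, Finset.sum_comm, Fin.prod_univ_succ, hW]
            simp only [hO', Fin.tail]
            ring
    · intro O O' hO y
      rw [sum_cons]
      simp only [Fin.cons_zero, Fin.tail_cons]
      have e1 : ∀ s : Fin b, ∑ S' : Fin j → Fin b,
          w (O 0) (y 0) s * v' (y 0) (Fin.tail O) (Fin.tail y) S' *
            (w (O' 0) (y 0) s * v' (y 0) (Fin.tail O') (Fin.tail y) S') =
          (w (O 0) (y 0) s * w (O' 0) (y 0) s) *
            ∑ S', v' (y 0) (Fin.tail O) (Fin.tail y) S' *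
              v' (y 0) (Fin.tail O') (Fin.tail y) S' := by
        intro s
        rw [Finset.mul_sum]
        exact Finset.sum_congr rfl fun S' _ => by ring
      rw [Finset.sum_congr rfl fun s _ => e1 s, ← Finset.sum_mul]
      by_cases h : O 0 = O' 0
      · have h2 : Fin.tail O ≠ Fin.tail O' := by
          intro h3
          apply hO
          rw [← Fin.cons_self_tail O, ← Fin.cons_self_tail O', h, h3]
        rw [v3 (y 0) _ _ h2, mul_zero]
      · have h2 : ∑ s, w (O 0) (y 0) s * w (O' 0) (y 0) s = 0 := by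
          have h3 := w2 (y 0)
          cases h4 : O 0 with
          | true =>
            cases h5 : O' 0 with
            | true => exact absurd (h4.trans h5.symm) h
            | false => exact h3
          | false =>
            cases h5 : O' 0 with
            | true =>
              rw [← h3]
              exact Finset.sum_congr rfl fun s _ => mul_comm _ _
            | false => exact absurd (h4.trans h5.symm) h
        rw [h2, zero_mul]
    · intro y
      have e1 : ∀ O : Fin (j + 1) → Bool,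
          ∑ S : Fin (j + 1) → Fin b,
            (w (O 0) (y 0) (S 0) * v' (y 0) (Fin.tail O) (Fin.tail y) (Fin.tail S)) ^ 2 =
          (∑ s, w (O 0) (y 0) s ^ 2) * ∑ S', v' (y 0) (Fin.tail O) (Fin.tail y) S' ^ 2 := by
        intro O
        rw [sum_cons, Finset.sum_mul_sum]
        simp only [Fin.cons_zero, Fin.tail_cons, mul_pow]
      rw [Finset.sum_congr rfl fun O _ => e1 O, sum_cons]
      simp only [Fin.cons_zero, Fin.tail_cons]
      rw [Finset.sum_congr rfl fun o _ => (Finset.mul_sum _ _ _).symm]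
      simp only [v4]
      rw [← Finset.sum_mul, Fintype.sum_bool, w3, pow_succ]
      ring
    · have e1 : ∀ (α : Fin b → Bool) (y' : Fin j → Fin b → Bool),
          ∑ O : Fin (j + 1) → Bool, cnt O * ∑ S : Fin (j + 1) → Fin b,
            (w (O 0) α (S 0) * v' α (Fin.tail O) y' (Fin.tail S)) ^ 2 =
          (∑ i, w true α i ^ 2) * (b : ℝ) ^ j +
            b * ∑ O', cnt O' * ∑ S', v' α O' y' S' ^ 2 := by
        intro α y'
        have e2 : ∀ O : Fin (j + 1) → Bool,
            ∑ S : Fin (j + 1) → Fin b,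
              (w (O 0) α (S 0) * v' α (Fin.tail O) y' (Fin.tail S)) ^ 2 =
            (∑ s, w (O 0) α s ^ 2) * ∑ S', v' α (Fin.tail O) y' S' ^ 2 := by
          intro O
          rw [sum_cons, Finset.sum_mul_sum]
          simp only [Fin.cons_zero, Fin.tail_cons, mul_pow]
        rw [Finset.sum_congr rfl fun O _ => by rw [e2 O], sum_cons]
        simp only [Fin.cons_zero, Fin.tail_cons, cnt_cons]
        rw [Fintype.sum_bool]
        simp only [if_true, Bool.false_eq_true, if_false, zero_add]
        have e3 : ∑ O' : Fin j → Bool, (1 + cnt O') *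
            ((∑ s, w true α s ^ 2) * ∑ S', v' α O' y' S' ^ 2) =
            (∑ s, w true α s ^ 2) * (b : ℝ) ^ j +
              (∑ s, w true α s ^ 2) * ∑ O', cnt O' * ∑ S', v' α O' y' S' ^ 2 := by
          rw [← v4 α y', Finset.mul_sum, Finset.mul_sum, ← Finset.sum_add_distrib]
          exact Finset.sum_congr rfl fun O' _ => by ring
        have e4 : ∑ O' : Fin j → Bool, cnt O' *
            ((∑ s, w false α s ^ 2) * ∑ S', v' α O' y' S' ^ 2) =
              (∑ s, w false α s ^ 2) * ∑ O', cnt O' * ∑ S', v' α O' y' S' ^ 2 := by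
          rw [Finset.mul_sum]
          exact Finset.sum_congr rfl fun O' _ => by ring
        rw [e3, e4, ← w3 α]
        ring
      rw [sum_cons]
      simp only [hfac, Fin.cons_zero, Fin.tail_cons, e1]
      have e5 : ∑ α, ∑ y', ν α * κ α y' * ((∑ i, w true α i ^ 2) * (b : ℝ) ^ j +
            b * ∑ O', cnt O' * ∑ S', v' α O' y' S' ^ 2) =
          (b : ℝ) ^ j * (∑ α, ν α * ∑ i, w true α i ^ 2) +
            ∑ α, ν α * (b * ∑ y', κ α y' * ∑ O', cnt O' * ∑ S', v' α O' y' S' ^ 2) := by
        rw [Finset.mul_sum, ← Finset.sum_add_distrib]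
        refine Finset.sum_congr rfl fun α _ => ?_
        have e6 : ∀ y', ν α * κ α y' * ((∑ i, w true α i ^ 2) * (b : ℝ) ^ j +
            b * ∑ O', cnt O' * ∑ S', v' α O' y' S' ^ 2) =
            κ α y' * (ν α * ((∑ i, w true α i ^ 2) * (b : ℝ) ^ j)) +
              ν α * b * (κ α y' * ∑ O', cnt O' * ∑ S', v' α O' y' S' ^ 2) := by
          intro y'; ring
        rw [Finset.sum_congr rfl fun y' _ => e6 y', Finset.sum_add_distrib, ← Finset.sum_mul,
          hκ1 α, ← Finset.mul_sum]
        ring
      rw [e5]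
      have hb0 : (0 : ℝ) ≤ b := Nat.cast_nonneg b
      have e7 : ∑ α, ν α * (b * ∑ y', κ α y' * ∑ O', cnt O' * ∑ S', v' α O' y' S' ^ 2) ≤
          (b : ℝ) ^ j * (4 * ∑ α, ν α * Dkl (κ α) + 2 * log 2 * (b * j / C)) := by
        calc _ ≤ ∑ α, ν α * ((b : ℝ) ^ j * (4 * Dkl (κ α) + 2 * log 2 * (b * j / C))) :=
              Finset.sum_le_sum fun α _ => mul_le_mul_of_nonneg_left (v5 α) (hν0 α)
          _ = ∑ α, ((b : ℝ) ^ j * 4 * (ν α * Dkl (κ α)) +
                ν α * ((b : ℝ) ^ j * (2 * log 2 * (b * j / C)))) :=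
              Finset.sum_congr rfl fun α _ => by ring
          _ = _ := by
              rw [Finset.sum_add_distrib, ← Finset.mul_sum, ← Finset.sum_mul, hν1]
              ring
      calc (b : ℝ) * ((b : ℝ) ^ j * (∑ α, ν α * ∑ i, w true α i ^ 2) +
            ∑ α, ν α * (b * ∑ y', κ α y' * ∑ O', cnt O' * ∑ S', v' α O' y' S' ^ 2))
          ≤ (b : ℝ) * ((b : ℝ) ^ j * (4 * Dkl ν + 2 * log 2 * (b / C)) +
            (b : ℝ) ^ j * (4 * ∑ α, ν α * Dkl (κ α) + 2 * log 2 * (b * j / C))) := by
            refine mul_le_mul_of_nonneg_left (add_le_add ?_ e7) hb0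
            exact mul_le_mul_of_nonneg_left w6 (by positivity)
        _ = (b : ℝ) ^ (j + 1) * (4 * Dkl μ + 2 * log 2 * (b * (j + 1 : ℕ) / C)) := by
            rw [hD, pow_succ]
            push_cast
            ring

end P325qz
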