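import Mathlib
import Pool.Agent.Lib.P325qz.Capt

/-!
P325qz.Marg (MP_325f1f_lc, helper24): the relative entropy of a marginal law, and the capture
theorem for laws on the hypercube with explicit constants.
-/

namespace P325qz

open Finset Real

/-- Gibbs variational inequality with a nonnegative function that may vanish off the law. -/
theorem gibbs_log {A : Type*} [Fintype A] [Nonempty A] (ν : A → ℝ) (h0 : ∀ a, 0 ≤ ν a)
    (h1 : ∑ a, ν a = 1) (g : A → ℝ) (hg0 : ∀ a, 0 ≤ g a) (hg : ∀ a, 0 < ν a → 0 < g a)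
    (hf : ∑ a, g a ≤ Fintype.card A) :
    ∑ a, ν a * log (g a) ≤ Dkl ν := by
  have hN : (0 : ℝ) < Fintype.card A := by exact_mod_cast Fintype.card_pos
  have key : ∀ a, ν a * log (g a) ≤ ν a * log (Fintype.card A * ν a) +
      (g a / Fintype.card A - ν a) := by
    intro a
    rcases (h0 a).eq_or_lt with h | h
    · rw [← h]
      have : 0 ≤ g a / Fintype.card A := div_nonneg (hg0 a) hN.le
      simpa using this
    · have hga := hg a h
      have h2 : log (g a / (Fintype.card A * ν a)) ≤ g a / (Fintype.card A * ν a) - 1 :=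
        log_le_sub_one_of_pos (by positivity)
      rw [log_div (by positivity) (by positivity)] at h2
      have h3 := mul_le_mul_of_nonneg_left h2 h.le
      have h4 : ν a * (g a / (Fintype.card A * ν a) - 1) = g a / Fintype.card A - ν a := by
        field_simp
      rw [h4] at h3
      linarith
  have h5 : ∑ a, (ν a * log (Fintype.card A * ν a) + (g a / Fintype.card A - ν a)) =
      Dkl ν + ((∑ a, g a) / Fintype.card A - 1) := by
    rw [Finset.sum_add_distrib, Finset.sum_sub_distrib, ← Finset.sum_div, h1]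
    rfl
  have h6 : (∑ a, g a) / Fintype.card A ≤ 1 := by
    rw [div_le_one hN]
    exact hf
  calc ∑ a, ν a * log (g a) ≤ _ := Finset.sum_le_sum fun a _ => key a
    _ = _ := h5
    _ ≤ _ := by linarith

/-- the image law -/
def marg {X Y : Type*} [Fintype X] [DecidableEq Y] (p : X → Y) (μ : X → ℝ) (y : Y) : ℝ :=
  ∑ x, if p x = y then μ x else 0

theorem marg_sum {X Y : Type*} [Fintype X] [Fintype Y] [DecidableEq Y] (p : X → Y) (μ : X → ℝ)
    (g : Y → ℝ) : ∑ y, marg p μ y * g y = ∑ x, μ x * g (p x) := by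
  unfold marg
  rw [Finset.sum_congr rfl fun y _ => Finset.sum_mul _ _ _, Finset.sum_comm]
  refine Finset.sum_congr rfl fun x _ => ?_
  simp

theorem marg_nonneg {X Y : Type*} [Fintype X] [DecidableEq Y] (p : X → Y) (μ : X → ℝ)
    (h0 : ∀ x, 0 ≤ μ x) (y : Y) : 0 ≤ marg p μ y :=
  Finset.sum_nonneg fun x _ => by split_ifs <;> simp [h0 x]

theorem marg_one {X Y : Type*} [Fintype X] [Fintype Y] [DecidableEq Y] (p : X → Y) (μ : X → ℝ)
    (h1 : ∑ x, μ x = 1) : ∑ y, marg p μ y = 1 := by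
  have := marg_sum p μ (fun _ => 1)
  simpa [h1] using this

/-- **Data processing**: the entropy of an image law under a map with equal fibres. -/
theorem Dkl_marg {X Y : Type*} [Fintype X] [Nonempty X] [Fintype Y] [DecidableEq Y] (p : X → Y)
    (hp : ∀ y, Fintype.card Y * (univ.filter fun x => p x = y).card = Fintype.card X)
    (μ : X → ℝ) (h0 : ∀ x, 0 ≤ μ x) (h1 : ∑ x, μ x = 1) : Dkl (marg p μ) ≤ Dkl μ := by
  have e1 : Dkl (marg p μ) = ∑ x, μ x * log (Fintype.card Y * marg p μ (p x)) := by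
    unfold Dkl
    exact marg_sum p μ fun y => log (Fintype.card Y * marg p μ y)
  rw [e1]
  have hY : (0 : ℝ) < Fintype.card Y := by
    have : Nonempty Y := ⟨p (Classical.arbitrary X)⟩
    exact_mod_cast Fintype.card_pos
  refine gibbs_log μ h0 h1 _ (fun x => mul_nonneg hY.le (marg_nonneg p μ h0 _)) ?_ ?_
  · intro x hx
    refine mul_pos hY ?_
    unfold marg
    refine Finset.sum_pos' (fun x' _ => by split_ifs <;> simp [h0 x']) ⟨x, mem_univ _, ?_⟩
    simpa using hx
  · have e2 : ∀ F : Y → ℝ, ∑ x, F (p x) = ∑ y, ((univ.filter fun x => p x = y).card : ℝ) * F y := by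
      intro F
      rw [← Finset.sum_fiberwise univ p]
      refine Finset.sum_congr rfl fun y _ => ?_
      rw [Finset.sum_congr rfl fun x hx => by rw [(mem_filter.1 hx).2], Finset.sum_const,
        nsmul_eq_mul]
    rw [e2 fun y => Fintype.card Y * marg p μ y]
    have e3 : ∀ y, ((univ.filter fun x => p x = y).card : ℝ) * (Fintype.card Y * marg p μ y) =
        Fintype.card X * marg p μ y := by
      intro y
      have : (Fintype.card Y : ℝ) * (univ.filter fun x => p x = y).card = Fintype.card X := by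
        exact_mod_cast hp y
      rw [← this]
      ring
    rw [Finset.sum_congr rfl fun y _ => e3 y, ← Finset.mul_sum, marg_one p μ h1, mul_one]

/-- the blocks of a vertex of the hypercube -/
def blk {m j b : ℕ} (e : Fin j × Fin b → Fin m) (x : Fin m → Bool) : Fin j → Fin b → Bool :=
  fun l i => x (e (l, i))

theorem blk_fibre {m j b : ℕ} (e : Fin j × Fin b → Fin m) (he : Function.Injective e)
    (y : Fin j → Fin b → Bool) :
    Fintype.card (Fin j → Fin b → Bool) * (univ.filter fun x => blk e x = y).card =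
      Fintype.card (Fin m → Bool) := by
  classical
  have key : ∀ y' : Fin j → Fin b → Bool,
      (univ.filter fun x => blk e x = y').card = (univ.filter fun x => blk e x = y).card := by
    intro y'
    set z : Fin m → Bool := fun k =>
      if h : ∃ q, e q = k then xor (y h.choose.1 h.choose.2) (y' h.choose.1 h.choose.2) else false
      with hz
    have hz2 : ∀ l i, z (e (l, i)) = xor (y l i) (y' l i) := by
      intro l i
      have h : ∃ q, e q = e (l, i) := ⟨_, rfl⟩
      have h2 : h.choose = (l, i) := he h.choose_spec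
      simp only [hz, dif_pos h, h2]
    refine Finset.card_bij' (fun x _ k => xor (x k) (z k)) (fun x _ k => xor (x k) (z k)) ?_ ?_ ?_ ?_
    · intro x hx
      rw [mem_filter] at hx ⊢
      refine ⟨mem_univ _, ?_⟩
      funext l i
      have h3 : x (e (l, i)) = y' l i := congrFun (congrFun hx.2 l) i
      change xor (x (e (l, i))) (z (e (l, i))) = y l i
      rw [h3, hz2]
      cases y l i <;> cases y' l i <;> rfl
    · intro x hx
      rw [mem_filter] at hx ⊢
      refine ⟨mem_univ _, ?_⟩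
      funext l i
      have h3 : x (e (l, i)) = y l i := congrFun (congrFun hx.2 l) i
      change xor (x (e (l, i))) (z (e (l, i))) = y' l i
      rw [h3, hz2]
      cases y l i <;> cases y' l i <;> rfl
    · intro x _
      funext k
      change xor (xor (x k) (z k)) (z k) = x k
      cases x k <;> cases z k <;> rfl
    · intro x _
      funext k
      change xor (xor (x k) (z k)) (z k) = x k
      cases x k <;> cases z k <;> rfl
  have h2 : ∑ y' : Fin j → Fin b → Bool, (univ.filter fun x => blk e x = y').card =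
      (univ : Finset (Fin m → Bool)).card :=
    (Finset.card_eq_sum_card_fiberwise fun x _ => mem_univ (blk e x)).symm
  rw [Finset.sum_congr rfl fun y' _ => key y', Finset.sum_const, smul_eq_mul, card_univ,
    card_univ] at h2
  exact h2

/-- **Capture on the hypercube.** -/
theorem capture_cube {m b j R : ℕ} (hb : 0 < b) (hj : 0 < j) (e : Fin j × Fin b → Fin m)
    (he : Function.Injective e) {C : ℝ} (hC : 0 < C) (hCb : C ≤ b)
    {D : ℝ} (μ : (Fin m → Bool) → ℝ) (h0 : ∀ x, 0 ≤ μ x) (h1 : ∑ x, μ x = 1)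
    (hD : Dkl μ ≤ D) (Λ : Fin R → ((Fin m → Bool) → ℝ) →ₗ[ℝ] ℝ)
    (hΛ : ∀ g : (Fin m → Bool) → ℝ, ∑ r, (Λ r g) ^ 2 ≤ ∑ x, μ x * g x ^ 2) :
    √(∑ S : Fin j → Fin b, ∑ r, (Λ r fun x => ∏ l, sg (x (e (l, S l)))) ^ 2) ≤
      √((b : ℝ) ^ j) * (2 ^ j * √R * √√((C / b) ^ j) + √(8 * D / (j * b) + 4 * log 2 / C)) := by
  have hD' : Dkl (marg (blk e) μ) ≤ D :=
    (Dkl_marg (blk e) (blk_fibre e he) μ h0 h1).trans hD
  set pull : ((Fin j → Fin b → Bool) → ℝ) →ₗ[ℝ] ((Fin m → Bool) → ℝ) :=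
    LinearMap.funLeft ℝ ℝ (blk e) with hpull
  have h := capture hb hj hC hCb (marg (blk e) μ) (marg_nonneg _ μ h0) (marg_one _ μ h1) hD'
    (fun r => (Λ r).comp pull) (by
      intro g
      have := hΛ (pull g)
      rw [marg_sum (blk e) μ fun y => g y ^ 2]
      exact this)
  exact h

/-- **A lower bound for the number of functionals** that see `7 / 8` of every transversal
character. -/
theorem capture_num {m b j R : ℕ} (hb : 12 ≤ b) (hj : 0 < j) (hm : m ≤ 2 * (j * b))
    (e : Fin j × Fin b → Fin m) (he : Function.Injective e)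
    (μ : (Fin m → Bool) → ℝ) (h0 : ∀ x, 0 ≤ μ x) (h1 : ∑ x, μ x = 1)
    (hD : Dkl μ ≤ m / 64) (Λ : Fin R → ((Fin m → Bool) → ℝ) →ₗ[ℝ] ℝ)
    (hΛ : ∀ g : (Fin m → Bool) → ℝ, ∑ r, (Λ r g) ^ 2 ≤ ∑ x, μ x * g x ^ 2)
    (hS : ∀ S : Fin j → Fin b, 7 / 8 ≤ ∑ r, (Λ r fun x => ∏ l, sg (x (e (l, S l)))) ^ 2) :
    ((b : ℝ) / 192) ^ j ≤ (20 * (R : ℝ)) ^ 2 := by
  have hb0 : 0 < b := by omega
  have hb' : (0 : ℝ) < b := by exact_mod_cast hb0
  have hb12 : (12 : ℝ) ≤ b := by exact_mod_cast hb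
  have hj' : (0 : ℝ) < j := by exact_mod_cast hj
  have h := capture_cube hb0 hj e he (C := 12) (by norm_num) hb12 μ h0 h1 hD Λ hΛ
  have hlow : √((b : ℝ) ^ j) * √(7 / 8) ≤
      √(∑ S : Fin j → Fin b, ∑ r, (Λ r fun x => ∏ l, sg (x (e (l, S l)))) ^ 2) := by
    rw [← Real.sqrt_mul (by positivity)]
    apply Real.sqrt_le_sqrt
    calc (b : ℝ) ^ j * (7 / 8) = ∑ S : Fin j → Fin b, (7 / 8 : ℝ) := by simp
      _ ≤ _ := Finset.sum_le_sum fun S _ => hS S
  have hbj : 0 < √((b : ℝ) ^ j) := Real.sqrt_pos.2 (by positivity)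
  have h2 : √(7 / 8) ≤ 2 ^ j * √R * √√((12 / (b : ℝ)) ^ j) +
      √(8 * ((m : ℝ) / 64) / (j * b) + 4 * log 2 / 12) :=
    le_of_mul_le_mul_left (hlow.trans h) hbj
  have h3 : √(8 * ((m : ℝ) / 64) / (j * b) + 4 * log 2 / 12) ≤ 0.694 := by
    apply Real.sqrt_le_iff.2
    constructor
    · norm_num
    · have e1 : 8 * ((m : ℝ) / 64) / (j * b) ≤ 1 / 4 := by
        rw [div_le_iff₀ (by positivity)]
        have : (m : ℝ) ≤ 2 * (j * b) := by exact_mod_cast hm
        linarith
      have e2 := Real.log_two_lt_d9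
      nlinarith
  have h4 : (0.935 : ℝ) ≤ √(7 / 8) := by
    apply Real.le_sqrt_of_sq_le
    norm_num
  have h5 : (0.241 : ℝ) ≤ 2 ^ j * √R * √√((12 / (b : ℝ)) ^ j) := by linarith
  have hq0 : (0 : ℝ) < 12 / b := by positivity
  have h6 : (0.241 : ℝ) ^ 4 ≤ (2 ^ j * √R * √√((12 / (b : ℝ)) ^ j)) ^ 4 :=
    pow_le_pow_left₀ (by norm_num) h5 4
  have h7 : (2 ^ j * √R * √√((12 / (b : ℝ)) ^ j)) ^ 4 = (R : ℝ) ^ 2 * (192 / b) ^ j := by
    have e1 : √(R : ℝ) ^ 4 = (R : ℝ) ^ 2 := by
      rw [show (4 : ℕ) = 2 * 2 from rfl, pow_mul, Real.sq_sqrt (Nat.cast_nonneg R)]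
    have e2 : √√((12 / (b : ℝ)) ^ j) ^ 4 = (12 / (b : ℝ)) ^ j := by
      rw [show (4 : ℕ) = 2 * 2 from rfl, pow_mul, Real.sq_sqrt (Real.sqrt_nonneg _),
        Real.sq_sqrt (by positivity)]
    have e3 : ((2 : ℝ) ^ j) ^ 4 = 16 ^ j := by
      rw [← pow_mul, mul_comm, pow_mul]
      norm_num
    rw [mul_pow, mul_pow, e1, e2, e3]
    have e4 : (192 / (b : ℝ)) ^ j = 16 ^ j * (12 / (b : ℝ)) ^ j := by
      rw [← mul_pow]
      congr 1
      ring
    rw [e4]
    ring
  rw [h7] at h6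
  have h8 : ((b : ℝ) / 192) ^ j * (192 / b) ^ j = 1 := by
    rw [← mul_pow]
    have : (b : ℝ) / 192 * (192 / b) = 1 := by field_simp
    rw [this, one_pow]
  have hp : 0 < ((b : ℝ) / 192) ^ j := by positivity
  calc ((b : ℝ) / 192) ^ j = ((b : ℝ) / 192) ^ j * 1 := (mul_one _).symm
    _ ≤ ((b : ℝ) / 192) ^ j * (400 * 0.241 ^ 4) :=
        mul_le_mul_of_nonneg_left (by norm_num) hp.le
    _ ≤ ((b : ℝ) / 192) ^ j * (400 * ((R : ℝ) ^ 2 * (192 / b) ^ j)) := by
        refine mul_le_mul_of_nonneg_left ?_ hp.le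
        linarith
    _ = (20 * (R : ℝ)) ^ 2 * (((b : ℝ) / 192) ^ j * (192 / b) ^ j) := by ring
    _ = _ := by rw [h8, mul_one]

end P325qz
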