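import Mathlib
import Pool.Agent.Lib.P325qz.Marg
import Pool.Agent.Lib.P325qz.LogSob
import Pool.Agent.Lib.P325qz.Slow

/-!
P325qz.Cube (MP_325f1f_lc, helper24): the lower bound for decompositions of the hypercube.
-/

namespace P325qz

open Finset Real
open Pool.Agent.Lib.P325q (density mass energy IsSlow IsFracPartition cutEnergy)

theorem flip_flip {m : ℕ} (x : Fin m → Bool) (k : Fin m) : flip (flip x k) k = x := by
  unfold flip
  simp

/-- changing one coordinate as a permutation -/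
def flipEquiv {m : ℕ} (k : Fin m) : (Fin m → Bool) ≃ (Fin m → Bool) where
  toFun x := flip x k
  invFun x := flip x k
  left_inv x := flip_flip x k
  right_inv x := flip_flip x k

theorem sum_flip {m : ℕ} (k : Fin m) (f : (Fin m → Bool) → ℝ) :
    ∑ x, f (flip x k) = ∑ x, f x := Equiv.sum_comp (flipEquiv k) f

/-- edges of the hypercube with loops -/
abbrev CE (m : ℕ) : Type := ((Fin m → Bool) × Fin m) ⊕ (Fin m → Bool)

def cs {m : ℕ} : CE m → (Fin m → Bool) := Sum.elim (fun p => p.1) id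
def ct {m : ℕ} : CE m → (Fin m → Bool) := Sum.elim (fun p => flip p.1 p.2) id
noncomputable def cw {m : ℕ} (z : ℝ) : CE m → ℝ :=
  Sum.elim (fun _ => z / (m * 2 ^ m)) (fun _ => (1 - z) / 2 ^ m)

theorem cw_nonneg {m : ℕ} {z : ℝ} (hz0 : 0 ≤ z) (hz1 : z ≤ 1) (e : CE m) : 0 ≤ cw z e := by
  unfold cw
  rcases e with e | e
  · exact div_nonneg hz0 (by positivity)
  · exact div_nonneg (by linarith) (by positivity)

theorem cw_sum {m : ℕ} (hm : 0 < m) (z : ℝ) : ∑ e : CE m, cw z e = 1 := by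
  have hm' : (m : ℝ) ≠ 0 := by positivity
  unfold cw
  rw [Fintype.sum_sum_type]
  simp
  field_simp
  ring

theorem cube_density {m : ℕ} (hm : 0 < m) (z : ℝ) (x : Fin m → Bool) :
    density cs ct (cw z) x = 1 / 2 ^ m := by
  have hm' : (m : ℝ) ≠ 0 := by positivity
  unfold density
  rw [Fintype.sum_sum_type, Fintype.sum_prod_type, Finset.sum_comm]
  have h1 : ∀ k : Fin m, ∑ y : Fin m → Bool, cw z (Sum.inl (y, k) : CE m) *
      ((if cs (Sum.inl (y, k) : CE m) = x then (1 : ℝ) else 0) +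
        (if ct (Sum.inl (y, k) : CE m) = x then (1 : ℝ) else 0)) = 2 * (z / (m * 2 ^ m)) := by
    intro k
    have e1 : ∑ y : Fin m → Bool, (if flip y k = x then (1 : ℝ) else 0) = 1 := by
      rw [sum_flip k fun y => if y = x then (1 : ℝ) else 0]
      simp
    have e2 : ∑ y : Fin m → Bool, (if y = x then (1 : ℝ) else 0) = 1 := by simp
    have e3 : ∀ y : Fin m → Bool, cw z (Sum.inl (y, k) : CE m) *
        ((if cs (Sum.inl (y, k) : CE m) = x then (1 : ℝ) else 0) +
          (if ct (Sum.inl (y, k) : CE m) = x then (1 : ℝ) else 0)) = z / (m * 2 ^ m) *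
        ((if y = x then (1 : ℝ) else 0) + (if flip y k = x then (1 : ℝ) else 0)) := fun y => rfl
    rw [Finset.sum_congr rfl fun y _ => e3 y, ← Finset.mul_sum, Finset.sum_add_distrib, e1, e2]
    ring
  have h2 : ∑ y : Fin m → Bool, cw z (Sum.inr y : CE m) *
      ((if cs (Sum.inr y : CE m) = x then (1 : ℝ) else 0) +
        (if ct (Sum.inr y : CE m) = x then (1 : ℝ) else 0)) = 2 * ((1 - z) / 2 ^ m) := by
    have e2 : ∑ y : Fin m → Bool, (if y = x then (1 : ℝ) else 0) = 1 := by simp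
    have e3 : ∀ y : Fin m → Bool, cw z (Sum.inr y : CE m) *
        ((if cs (Sum.inr y : CE m) = x then (1 : ℝ) else 0) +
          (if ct (Sum.inr y : CE m) = x then (1 : ℝ) else 0)) = (1 - z) / 2 ^ m *
        ((if y = x then (1 : ℝ) else 0) + (if y = x then (1 : ℝ) else 0)) := fun y => rfl
    rw [Finset.sum_congr rfl fun y _ => e3 y, ← Finset.mul_sum, Finset.sum_add_distrib, e2]
    ring
  rw [Finset.sum_congr rfl fun k _ => h1 k, h2]
  simp
  field_simp
  ring

theorem cube_mass {m : ℕ} (hm : 0 < m) (z : ℝ) (σ g : (Fin m → Bool) → ℝ) :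
    mass cs ct (cw z) σ g = (∑ x, σ x * g x ^ 2) / 2 ^ m := by
  unfold mass
  rw [Finset.sum_div]
  refine Finset.sum_congr rfl fun x _ => ?_
  rw [cube_density hm]
  ring

theorem cube_energy {m : ℕ} (z : ℝ) (σ g : (Fin m → Bool) → ℝ) :
    energy cs ct (cw z) σ g =
      z / (m * 2 ^ m) * ∑ x, ∑ k, √(σ x * σ (flip x k)) * (g x - g (flip x k)) ^ 2 := by
  unfold energy
  rw [Fintype.sum_sum_type]
  have h2 : ∑ y : Fin m → Bool, cw z (Sum.inr y : CE m) *
      (√(σ (cs (Sum.inr y : CE m)) * σ (ct (Sum.inr y : CE m))) *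
        (g (cs (Sum.inr y : CE m)) - g (ct (Sum.inr y : CE m))) ^ 2) = 0 := by
    refine Finset.sum_eq_zero fun y _ => ?_
    simp [cs, ct]
  rw [h2, add_zero, Fintype.sum_prod_type]
  simp only [cw, cs, ct, Sum.elim_inl, Finset.mul_sum]

theorem cube_cut {m : ℕ} (z : ℝ) {I : Type} [Fintype I] (ρ : I → (Fin m → Bool) → ℝ) :
    cutEnergy cs ct (cw z) ρ =
      z / (m * 2 ^ m) * ∑ i, ∑ x, ∑ k, (√(ρ i x) - √(ρ i (flip x k))) ^ 2 := by
  unfold cutEnergy
  rw [Finset.mul_sum]
  refine Finset.sum_congr rfl fun i _ => ?_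
  rw [Fintype.sum_sum_type]
  have h2 : ∑ y : Fin m → Bool, cw z (Sum.inr y : CE m) *
      (√(ρ i (cs (Sum.inr y : CE m))) - √(ρ i (ct (Sum.inr y : CE m)))) ^ 2 = 0 := by
    refine Finset.sum_eq_zero fun y _ => ?_
    simp [cs, ct]
  rw [h2, add_zero, Fintype.sum_prod_type]
  simp only [cw, cs, ct, Sum.elim_inl, Finset.mul_sum]

/-- the product of the signs of the chosen coordinates -/
def chi {m j b : ℕ} (e : Fin j × Fin b → Fin m) (S : Fin j → Fin b) (x : Fin m → Bool) : ℝ :=
  ∏ l, sg (x (e (l, S l)))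

theorem chi_sq {m j b : ℕ} (e : Fin j × Fin b → Fin m) (S : Fin j → Fin b) (x : Fin m → Bool) :
    chi e S x ^ 2 = 1 := by
  unfold chi
  rw [← Finset.prod_pow]
  exact Finset.prod_eq_one fun l _ => sg_sq _

theorem chi_diff {m j b : ℕ} (e : Fin j × Fin b → Fin m) (S : Fin j → Fin b)
    (x : Fin m → Bool) (k : Fin m) :
    (chi e S x - chi e S (flip x k)) ^ 2 ≤ 4 * ∑ l, if e (l, S l) = k then (1 : ℝ) else 0 := by
  by_cases h : ∃ l, e (l, S l) = k
  · obtain ⟨l, hl⟩ := h
    have h1 : (1 : ℝ) ≤ ∑ l, if e (l, S l) = k then (1 : ℝ) else 0 := by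
      have := Finset.single_le_sum (f := fun l => if e (l, S l) = k then (1 : ℝ) else 0)
        (fun l _ => by split_ifs <;> norm_num) (mem_univ l)
      simpa [hl] using this
    have h2 := chi_sq e S x
    have h3 := chi_sq e S (flip x k)
    nlinarith [sq_nonneg (chi e S x + chi e S (flip x k))]
  · push Not at h
    have h1 : chi e S (flip x k) = chi e S x := by
      unfold chi
      refine Finset.prod_congr rfl fun l _ => ?_
      unfold flip
      rw [Function.update_of_ne (h l)]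
    rw [h1, sub_self]
    have h2 : (0 : ℝ) ≤ ∑ l, if e (l, S l) = k then (1 : ℝ) else 0 :=
      Finset.sum_nonneg fun l _ => by split_ifs <;> norm_num
    nlinarith

theorem chi_energy {m j b : ℕ} {z : ℝ} (hz : 0 ≤ z) (e : Fin j × Fin b → Fin m)
    (S : Fin j → Fin b) (σ : (Fin m → Bool) → ℝ) (hσ : ∀ x, 0 ≤ σ x) :
    energy cs ct (cw z) σ (chi e S) ≤ 4 * z * (j / m) * ((∑ x, σ x) / 2 ^ m) := by
  rw [cube_energy]
  have h1 : ∀ x k, √(σ x * σ (flip x k)) ≤ (σ x + σ (flip x k)) / 2 := by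
    intro x k
    rw [Real.sqrt_le_iff]
    constructor
    · have := hσ x
      have := hσ (flip x k)
      linarith
    · nlinarith [sq_nonneg (σ x - σ (flip x k))]
  have h2 : ∑ x, ∑ k, √(σ x * σ (flip x k)) * (chi e S x - chi e S (flip x k)) ^ 2 ≤
      4 * j * ∑ x, σ x := by
    calc ∑ x, ∑ k, √(σ x * σ (flip x k)) * (chi e S x - chi e S (flip x k)) ^ 2
        ≤ ∑ x, ∑ k, (σ x + σ (flip x k)) / 2 *
            (4 * ∑ l, if e (l, S l) = k then (1 : ℝ) else 0) := by
          refine Finset.sum_le_sum fun x _ => Finset.sum_le_sum fun k _ => ?_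
          refine mul_le_mul (h1 x k) (chi_diff e S x k) (sq_nonneg _) ?_
          have := hσ x
          have := hσ (flip x k)
          linarith
      _ = ∑ l, ∑ x, (σ x + σ (flip x (e (l, S l)))) / 2 * 4 := by
          have e1 : ∀ x, ∑ k, (σ x + σ (flip x k)) / 2 *
              (4 * ∑ l, if e (l, S l) = k then (1 : ℝ) else 0) =
              ∑ l, (σ x + σ (flip x (e (l, S l)))) / 2 * 4 := by
            intro x
            simp only [Finset.mul_sum]
            rw [Finset.sum_comm]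
            refine Finset.sum_congr rfl fun l _ => ?_
            simp
          rw [Finset.sum_congr rfl fun x _ => e1 x, Finset.sum_comm]
      _ = ∑ l : Fin j, 4 * ∑ x, σ x := by
          refine Finset.sum_congr rfl fun l _ => ?_
          rw [← Finset.sum_mul, ← Finset.sum_div, Finset.sum_add_distrib,
            sum_flip (e (l, S l)) σ]
          ring
      _ = 4 * j * ∑ x, σ x := by
          rw [Finset.sum_const, card_univ, Fintype.card_fin, nsmul_eq_mul]
          ring
  calc z / (m * 2 ^ m) * ∑ x, ∑ k, √(σ x * σ (flip x k)) *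
        (chi e S x - chi e S (flip x k)) ^ 2
      ≤ z / (m * 2 ^ m) * (4 * j * ∑ x, σ x) :=
        mul_le_mul_of_nonneg_left h2 (div_nonneg hz (by positivity))
    _ = _ := by
        rcases Nat.eq_zero_or_pos m with h | h
        · subst h; simp
        · field_simp

/-- **The parts of a cheap decomposition of the hypercube have many small eigenvalues.** -/
theorem cube_lower {m : ℕ} {K : ℝ} (hK : 0 < K) (hK2 : K ^ 2 ≤ 1 / 32) {I : Type} [Fintype I]
    (ρ : I → (Fin m → Bool) → ℝ) (hρ : IsFracPartition ρ)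
    (hcut : cutEnergy cs ct (cw (32 * K ^ 2)) ρ ≤ K ^ 2) {x : ℝ} (hx : 1024 ≤ x * m)
    (hx1 : x ≤ 1) :
    ∃ (i : I) (F : Submodule ℝ ((Fin m → Bool) → ℝ)),
      IsSlow cs ct (cw (32 * K ^ 2)) (ρ i) (x * K ^ 2) F ∧
      1 / 20 * ((2 : ℝ) ^ m) ^ (x * log (2 / x) / 3000) ≤ Module.finrank ℝ F := by
  obtain ⟨hρ0, hρ1⟩ := hρ
  have hm : 0 < m := by
    rcases Nat.eq_zero_or_pos m with h | h
    · subst h; norm_num at hx
    · exact h
  have hm' : (0 : ℝ) < m := by exact_mod_cast hm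
  have hx0 : 0 < x := by
    by_contra hcon
    have : x * m ≤ 0 := mul_nonpos_of_nonpos_of_nonneg (not_lt.1 hcon) hm'.le
    linarith
  have hP : (0 : ℝ) < 2 ^ m := by positivity
  have hz0 : 0 < 32 * K ^ 2 := by positivity
  have hz1 : 32 * K ^ 2 ≤ 1 := by linarith
  -- a part of small entropy
  have hpart : ∃ i, 0 < ∑ y, ρ i y ∧ Dkl (fun y => ρ i y / ∑ y, ρ i y) ≤ m / 64 := by
    by_contra hcon
    push Not at hcon
    rw [cube_cut] at hcut
    set E : I → ℝ := fun i => ∑ y, ∑ k, (√(ρ i y) - √(ρ i (flip y k))) ^ 2 with hE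
    have hE0 : ∀ i, 0 ≤ E i := fun i => Finset.sum_nonneg fun y _ =>
      Finset.sum_nonneg fun k _ => sq_nonneg _
    have h1 : ∑ i, E i ≤ m * 2 ^ m / 32 := by
      have : 32 * K ^ 2 / (m * 2 ^ m) * ∑ i, E i ≤ K ^ 2 := hcut
      rw [div_mul_eq_mul_div, div_le_iff₀ (by positivity)] at this
      rw [le_div_iff₀ (by norm_num)]
      have hK' : 0 < K ^ 2 := by positivity
      nlinarith
    have hT : ∑ i, ∑ y, ρ i y = 2 ^ m := by
      rw [Finset.sum_comm, Finset.sum_congr rfl fun y _ => hρ1 y]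
      simp
    have h2 : ∀ i, (m : ℝ) / 64 * (∑ y, ρ i y) ≤ 1 / 2 * E i := by
      intro i
      rcases (Finset.sum_nonneg fun y (_ : y ∈ univ) => hρ0 i y).eq_or_lt with h | h
      · rw [← h, mul_zero]
        have := hE0 i
        linarith
      · have h3 := Dkl_part (ρ i) (hρ0 i) h
        have h4 := hcon i h
        calc (m : ℝ) / 64 * (∑ y, ρ i y) ≤ Dkl (fun y => ρ i y / ∑ y, ρ i y) * (∑ y, ρ i y) :=
              mul_le_mul_of_nonneg_right h4.le h.le
          _ = (∑ y, ρ i y) * Dkl (fun y => ρ i y / ∑ y, ρ i y) := mul_comm _ _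
          _ ≤ _ := h3
    have h2' : ∃ i, (m : ℝ) / 64 * (∑ y, ρ i y) < 1 / 2 * E i := by
      have h5 : ∃ i, 0 < ∑ y, ρ i y := by
        by_contra hc
        push Not at hc
        have : ∑ i, ∑ y, ρ i y ≤ 0 := Finset.sum_nonpos fun i _ => hc i
        rw [hT] at this
        linarith
      obtain ⟨i, h⟩ := h5
      refine ⟨i, ?_⟩
      have h3 := Dkl_part (ρ i) (hρ0 i) h
      have h4 := hcon i h
      calc (m : ℝ) / 64 * (∑ y, ρ i y) < Dkl (fun y => ρ i y / ∑ y, ρ i y) * (∑ y, ρ i y) :=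
            mul_lt_mul_of_pos_right h4 h
        _ = (∑ y, ρ i y) * Dkl (fun y => ρ i y / ∑ y, ρ i y) := mul_comm _ _
        _ ≤ _ := h3
    obtain ⟨i0, hi0⟩ := h2'
    have h3 : ∑ i, (m : ℝ) / 64 * (∑ y, ρ i y) < ∑ i, 1 / 2 * E i :=
      Finset.sum_lt_sum (fun i _ => h2 i) ⟨i0, mem_univ _, hi0⟩
    rw [← Finset.mul_sum, ← Finset.mul_sum, hT] at h3
    linarith
  obtain ⟨i, hTi, hDi⟩ := hpart
  set T : ℝ := ∑ y, ρ i y with hT
  -- the parameters
  set j : ℕ := ⌊x * m / 1024⌋₊ with hj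
  have hy1 : 1 ≤ x * m / 1024 := by
    rw [le_div_iff₀ (by norm_num)]
    linarith
  have hj1 : 1 ≤ j := Nat.le_floor (by simpa using hy1)
  have hj0 : (0 : ℝ) < j := by exact_mod_cast hj1
  have hjle : (j : ℝ) ≤ x * m / 1024 := Nat.floor_le (by positivity)
  have hjge : x * m / 2048 ≤ j := by
    have h1 := Nat.lt_floor_add_one (x * m / 1024)
    have h2 : (1 : ℝ) ≤ j := by exact_mod_cast hj1
    rw [← hj] at h1
    linarith
  set b : ℕ := m / j with hb
  have hjb : j * b ≤ m := Nat.mul_div_le m j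
  have hjb2 : m < j * (b + 1) := by
    have := Nat.lt_mul_div_succ m (by omega : 0 < j)
    simpa [hb] using this
  have hb512 : 512 / x ≤ b := by
    have h1 : (m : ℝ) < j * (b + 1) := by exact_mod_cast hjb2
    have h2 : (m : ℝ) < x * m / 1024 * (b + 1) :=
      h1.trans_le (mul_le_mul_of_nonneg_right hjle (by positivity))
    have h3 : 1024 < x * (b + 1) := by
      have h4 : (m : ℝ) * 1024 < m * (x * (b + 1)) := by linarith
      exact lt_of_mul_lt_mul_left h4 hm'.le
    rw [div_le_iff₀ hx0]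
    nlinarith
  have hb12 : 12 ≤ b := by
    have h1 : (512 : ℝ) ≤ 512 / x := by
      rw [le_div_iff₀ hx0]
      linarith
    have h2 : (12 : ℝ) ≤ b := by linarith
    exact_mod_cast h2
  have hm2 : m ≤ 2 * (j * b) := by
    have : j * (b + 1) ≤ 2 * (j * b) := by nlinarith
    omega
  set e : Fin j × Fin b → Fin m := fun p => Fin.castLE hjb (finProdFinEquiv p) with he
  have heinj : Function.Injective e := fun p q h =>
    finProdFinEquiv.injective (Fin.castLE_injective hjb h)
  -- the slow space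
  have hη : 0 < x * K ^ 2 := by positivity
  obtain ⟨R, F, h, hF, hslow, hbes, hlow⟩ := exists_slow (cs (m := m)) ct
    (w := cw (32 * K ^ 2)) (cw_nonneg hz0.le hz1) (hρ0 i) hη
  refine ⟨i, F, hslow, ?_⟩
  rw [hF]
  set M : ℝ := T / 2 ^ m with hM
  have hM0 : 0 < M := by positivity
  set L : Fin R → ((Fin m → Bool) → ℝ) →ₗ[ℝ] ℝ := fun r =>
    { toFun := fun g => (√M)⁻¹ * ∑ y, density cs ct (cw (32 * K ^ 2)) y * ρ i y * h r y * g y
      map_add' := by
        intro g g'
        rw [← mul_add, ← Finset.sum_add_distrib]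
        congr 1
        exact Finset.sum_congr rfl fun y _ => by rw [Pi.add_apply]; ring
      map_smul' := by
        intro a g
        have e1 : ∑ y, density cs ct (cw (32 * K ^ 2)) y * ρ i y * h r y * (a • g) y =
            a * ∑ y, density cs ct (cw (32 * K ^ 2)) y * ρ i y * h r y * g y := by
          rw [Finset.mul_sum]
          exact Finset.sum_congr rfl fun y _ => by rw [Pi.smul_apply, smul_eq_mul]; ring
        rw [e1, RingHom.id_apply, smul_eq_mul]
        ring } with hL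
  have hLs : ∀ g : (Fin m → Bool) → ℝ, ∑ r, (L r g) ^ 2 =
      M⁻¹ * ∑ r, (∑ y, density cs ct (cw (32 * K ^ 2)) y * ρ i y * h r y * g y) ^ 2 := by
    intro g
    rw [Finset.mul_sum]
    refine Finset.sum_congr rfl fun r _ => ?_
    change ((√M)⁻¹ * ∑ y, density cs ct (cw (32 * K ^ 2)) y * ρ i y * h r y * g y) ^ 2 = _
    rw [mul_pow, inv_pow, Real.sq_sqrt hM0.le]
  set μ : (Fin m → Bool) → ℝ := fun y => ρ i y / T with hμ
  have hmassμ : ∀ g : (Fin m → Bool) → ℝ,
      M⁻¹ * mass cs ct (cw (32 * K ^ 2)) (ρ i) g = ∑ y, μ y * g y ^ 2 := by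
    intro g
    rw [cube_mass hm, hM, inv_div, div_mul_div_comm, mul_comm (2 ^ m : ℝ),
      mul_div_mul_right _ _ hP.ne', Finset.sum_div]
    refine Finset.sum_congr rfl fun y _ => ?_
    simp only [hμ]
    ring
  have hLbes : ∀ g : (Fin m → Bool) → ℝ, ∑ r, (L r g) ^ 2 ≤ ∑ y, μ y * g y ^ 2 := by
    intro g
    rw [hLs, ← hmassμ]
    exact mul_le_mul_of_nonneg_left (hbes g) (by positivity)
  have hL78 : ∀ S : Fin j → Fin b, 7 / 8 ≤ ∑ r, (L r fun y => ∏ l, sg (y (e (l, S l)))) ^ 2 := by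
    intro S
    change 7 / 8 ≤ ∑ r, (L r (chi e S)) ^ 2
    rw [hLs]
    have h1 := hlow (chi e S)
    have h2 : mass cs ct (cw (32 * K ^ 2)) (ρ i) (chi e S) = M := by
      rw [cube_mass hm, hM, hT]
      congr 1
      exact Finset.sum_congr rfl fun y _ => by rw [chi_sq, mul_one]
    have h3 : energy cs ct (cw (32 * K ^ 2)) (ρ i) (chi e S) / (x * K ^ 2) ≤ M / 8 := by
      rw [div_le_iff₀ hη]
      refine (chi_energy hz0.le e S (ρ i) (hρ0 i)).trans ?_
      rw [← hT, ← hM]
      have h4 : (j : ℝ) / m ≤ x / 1024 := by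
        rw [div_le_div_iff₀ hm' (by norm_num)]
        linarith
      calc 4 * (32 * K ^ 2) * ((j : ℝ) / m) * M ≤ 4 * (32 * K ^ 2) * (x / 1024) * M := by gcongr
        _ = M / 8 * (x * K ^ 2) := by ring
    have h5 : 7 / 8 * M ≤ ∑ r, (∑ y, density cs ct (cw (32 * K ^ 2)) y * ρ i y * h r y *
        chi e S y) ^ 2 := by
      rw [h2] at h1
      linarith
    calc (7 / 8 : ℝ) = M⁻¹ * (7 / 8 * M) := by field_simp
      _ ≤ _ := mul_le_mul_of_nonneg_left h5 (by positivity)
  have hfinal := capture_num hb12 hj1 hm2 e heinj μ (fun y => div_nonneg (hρ0 i y) hTi.le)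
    (by simp only [hμ]; rw [← Finset.sum_div]; exact div_self hTi.ne') hDi L hLbes hL78
  -- the numbers
  have hq : (2 / x : ℝ) ≤ b / 192 := by
    rw [le_div_iff₀ (by norm_num)]
    calc 2 / x * 192 = 384 / x := by ring
      _ ≤ 512 / x := by gcongr; norm_num
      _ ≤ b := hb512
  have h2x : 1 < 2 / x := by
    rw [lt_div_iff₀ hx0]
    linarith
  have hlog : 0 < log (2 / x) := log_pos h2x
  have h10 : (2 / x) ^ j ≤ (20 * (R : ℝ)) ^ 2 :=
    (pow_le_pow_left₀ (by positivity) hq j).trans hfinal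
  have hR0 : 0 < 20 * (R : ℝ) := by
    have h11 : 0 < (2 / x) ^ j := by positivity
    have h12 : 0 < (20 * (R : ℝ)) ^ 2 := h11.trans_le h10
    have h13 : (0 : ℝ) ≤ 20 * R := by positivity
    rcases h13.eq_or_lt with h14 | h14
    · rw [← h14] at h12; norm_num at h12
    · exact h14
  have h11 : (j : ℝ) * log (2 / x) ≤ 2 * log (20 * R) := by
    have := log_le_log (by positivity) h10
    rw [log_pow, log_pow] at this
    exact_mod_cast this
  have h12 : x * m / 4096 * log (2 / x) ≤ log (20 * R) := by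
    have : x * m / 2048 * log (2 / x) ≤ j * log (2 / x) :=
      mul_le_mul_of_nonneg_right hjge hlog.le
    linarith
  have h13 : ((2 : ℝ) ^ m) ^ (x * log (2 / x) / 3000) ≤ 20 * R := by
    rw [Real.rpow_def_of_pos hP, ← Real.le_log_iff_exp_le hR0, log_pow]
    refine le_trans ?_ h12
    have h14 := Real.log_two_lt_d9
    have h15 : 0 < x * m * log (2 / x) := by positivity
    have h16 : log 2 / 3000 ≤ 1 / 4096 := by
      rw [div_le_div_iff₀ (by norm_num) (by norm_num)]
      linarith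
    calc (m : ℝ) * log 2 * (x * log (2 / x) / 3000) = log 2 / 3000 * (x * m * log (2 / x)) := by
          ring
      _ ≤ 1 / 4096 * (x * m * log (2 / x)) := mul_le_mul_of_nonneg_right h16 h15.le
      _ = _ := by ring
  linarith

end P325qz
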