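import Mathlib
import Pool.Agent.Lib.P325qz.Rad

/-!
P325qz.RadG (MP_325f1f_lc, helper24): exponential moments of the squared length of an orthogonal
projection of a subgaussian random vector `y : Ω → T → ℝ`.
-/

namespace P325qz

open Finset Real MeasureTheory

/-- the linear form with coefficients `c` -/
def gf {T : Type*} [Fintype T] (c x : T → ℝ) : ℝ := ∑ i, c i * x i

theorem gf_add {T : Type*} [Fintype T] (c d : T → ℝ) (t : ℝ) (x : T → ℝ) :
    gf (fun i => c i + t * d i) x = gf c x + t * gf d x := by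
  unfold gf
  rw [Finset.mul_sum, ← Finset.sum_add_distrib]
  exact Finset.sum_congr rfl fun i _ => by ring

/-- **Exponential moments of `|Pi y|^2`** for a subgaussian vector `y`, with a linear shift. -/
theorem radG_shift {Ω T : Type*} [Fintype Ω] [Fintype T] (y : Ω → T → ℝ)
    (hs : ∀ c : T → ℝ, ∑ ω, exp (gf c (y ω)) ≤ Fintype.card Ω * exp ((∑ i, c i ^ 2) / 2)) :
    ∀ (r : ℕ) (u : Fin r → T → ℝ)
    (_ : ∀ k l, ∑ i, u k i * u l i = if k = l then 1 else 0) (c : T → ℝ),
    ∑ ω, exp ((∑ k, gf (u k) (y ω) ^ 2) / 4 + gf c (y ω)) ≤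
      Fintype.card Ω * (√2 ^ r * exp ((∑ i, c i ^ 2) / 2 + (∑ k, (∑ i, c i * u k i) ^ 2) / 2)) := by
  intro r
  induction r with
  | zero =>
    intro u _ c
    simpa using hs c
  | succ r ih =>
    intro u hu c
    set u' : Fin r → T → ℝ := fun k => u k.castSucc with hu'
    set v : T → ℝ := u (Fin.last r) with hv
    have hu'o : ∀ k l, ∑ i, u' k i * u' l i = if k = l then 1 else 0 := by
      intro k l
      have := hu k.castSucc l.castSucc
      simpa [hu', Fin.castSucc_inj] using this
    have hvv : ∑ i, v i ^ 2 = 1 := by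
      have := hu (Fin.last r) (Fin.last r)
      simp only [if_true] at this
      rw [← this]
      exact Finset.sum_congr rfl fun i _ => by rw [hv]; ring
    have hvu : ∀ k, ∑ i, v i * u' k i = 0 := by
      intro k
      have := hu (Fin.last r) k.castSucc
      rw [if_neg (Fin.castSucc_lt_last k).ne'] at this
      exact this
    set s : ℝ := ∑ i, c i * v i with hs
    -- Hubbard-Stratonovich for the last vector
    have hHS : ∀ z : ℝ, exp (z ^ 2 / 4) = (√π)⁻¹ * ∫ t : ℝ, exp (-1 * t ^ 2 + z * t) := by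
      intro z
      rw [(gauss_int one_pos z).2, div_one, mul_one]
      rw [← mul_assoc, inv_mul_cancel₀ (by positivity), one_mul]
    have hsum : ∀ ω, (∑ k, gf (u k) (y ω) ^ 2) / 4 + gf c (y ω) =
        ((∑ k, gf (u' k) (y ω) ^ 2) / 4 + gf c (y ω)) + gf v (y ω) ^ 2 / 4 := by
      intro ω
      rw [Fin.sum_univ_castSucc]
      simp only [hu', hv]
      ring
    have h1 : ∑ ω, exp ((∑ k, gf (u k) (y ω) ^ 2) / 4 + gf c (y ω)) =
        (√π)⁻¹ * ∫ t : ℝ, exp (-1 * t ^ 2) *
          ∑ ω, exp ((∑ k, gf (u' k) (y ω) ^ 2) / 4 + gf (fun i => c i + t * v i) (y ω)) := by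
      have h2 : ∀ ω, exp ((∑ k, gf (u k) (y ω) ^ 2) / 4 + gf c (y ω)) =
          (√π)⁻¹ * ∫ t : ℝ, exp (-1 * t ^ 2) *
            exp ((∑ k, gf (u' k) (y ω) ^ 2) / 4 + gf (fun i => c i + t * v i) (y ω)) := by
        intro ω
        rw [hsum ω, exp_add, hHS (gf v (y ω)), mul_left_comm, ← integral_const_mul]
        congr 1
        refine integral_congr_ae (Filter.Eventually.of_forall fun t => ?_)
        simp only
        rw [← exp_add, ← exp_add, gf_add]
        congr 1
        ring
      rw [Finset.sum_congr rfl fun ω _ => h2 ω, ← Finset.mul_sum, ← integral_finsetSum]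
      · congr 1
        refine integral_congr_ae (Filter.Eventually.of_forall fun t => ?_)
        simp only
        rw [Finset.mul_sum]
      · intro ω _
        have h3 := ((gauss_int one_pos (gf v (y ω))).1).const_mul
          (exp ((∑ k, gf (u' k) (y ω) ^ 2) / 4 + gf c (y ω)))
        refine h3.congr (Filter.Eventually.of_forall fun t => ?_)
        simp only
        rw [← exp_add, ← exp_add, gf_add]
        congr 1
        ring
    rw [h1]
    -- the bound inside the integral
    set A : ℝ := (∑ i, c i ^ 2) / 2 + (∑ k, (∑ i, c i * u' k i) ^ 2) / 2 with hA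
    have hb : ∀ t : ℝ, exp (-1 * t ^ 2) *
          ∑ ω, exp ((∑ k, gf (u' k) (y ω) ^ 2) / 4 + gf (fun i => c i + t * v i) (y ω)) ≤
        (Fintype.card Ω * √2 ^ r * exp A) * exp (-(1 / 2) * t ^ 2 + s * t) := by
      intro t
      have h4 := ih u' hu'o (fun i => c i + t * v i)
      have h5 : (∑ i, (c i + t * v i) ^ 2) / 2 +
          (∑ k, (∑ i, (c i + t * v i) * u' k i) ^ 2) / 2 = A + (t ^ 2 / 2 + s * t) := by
        have e1 : ∑ i, (c i + t * v i) ^ 2 = ∑ i, c i ^ 2 + 2 * t * s + t ^ 2 := by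
          have : ∀ i, (c i + t * v i) ^ 2 = c i ^ 2 + 2 * t * (c i * v i) + t ^ 2 * v i ^ 2 := by
            intro i; ring
          rw [Finset.sum_congr rfl fun i _ => this i, Finset.sum_add_distrib,
            Finset.sum_add_distrib, ← Finset.mul_sum, ← Finset.mul_sum, hvv, ← hs]
          ring
        have e2 : ∀ k, ∑ i, (c i + t * v i) * u' k i = ∑ i, c i * u' k i := by
          intro k
          have : ∀ i, (c i + t * v i) * u' k i = c i * u' k i + t * (v i * u' k i) := by
            intro i; ring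
          rw [Finset.sum_congr rfl fun i _ => this i, Finset.sum_add_distrib, ← Finset.mul_sum,
            hvu k]
          ring
        simp only [e2, e1]
        rw [hA]
        ring
      rw [h5] at h4
      calc exp (-1 * t ^ 2) *
            ∑ ω, exp ((∑ k, gf (u' k) (y ω) ^ 2) / 4 + gf (fun i => c i + t * v i) (y ω))
          ≤ exp (-1 * t ^ 2) * (Fintype.card Ω * (√2 ^ r * exp (A + (t ^ 2 / 2 + s * t)))) :=
            mul_le_mul_of_nonneg_left h4 (exp_pos _).le
        _ = (Fintype.card Ω * √2 ^ r * exp A) * exp (-(1 / 2) * t ^ 2 + s * t) := by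
            rw [exp_add A]
            have : exp (-(1 / 2) * t ^ 2 + s * t) =
                exp (-1 * t ^ 2) * exp (t ^ 2 / 2 + s * t) := by
              rw [← exp_add]; congr 1; ring
            rw [this]
            ring
    have hint : Integrable (fun t : ℝ =>
        (Fintype.card Ω * √2 ^ r * exp A) * exp (-(1 / 2) * t ^ 2 + s * t)) :=
      ((gauss_int (by norm_num : (0 : ℝ) < 1 / 2) s).1).const_mul _
    have h6 : ∫ t : ℝ, exp (-1 * t ^ 2) *
          ∑ ω, exp ((∑ k, gf (u' k) (y ω) ^ 2) / 4 + gf (fun i => c i + t * v i) (y ω)) ≤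
        ∫ t : ℝ, (Fintype.card Ω * √2 ^ r * exp A) * exp (-(1 / 2) * t ^ 2 + s * t) := by
      refine integral_mono_of_nonneg (Filter.Eventually.of_forall fun t => ?_) hint
        (Filter.Eventually.of_forall hb)
      exact mul_nonneg (exp_pos _).le (Finset.sum_nonneg fun ω _ => (exp_pos _).le)
    have h7 : ∫ t : ℝ, (Fintype.card Ω * √2 ^ r * exp A) * exp (-(1 / 2) * t ^ 2 + s * t) =
        (Fintype.card Ω * √2 ^ r * exp A) * (√(2 * π) * exp (s ^ 2 / 2)) := by
      rw [integral_const_mul, (gauss_int (by norm_num : (0 : ℝ) < 1 / 2) s).2]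
      congr 2
      · congr 1; ring
      · congr 1; ring
    have h8 : (√π)⁻¹ * √(2 * π) = √2 := by
      rw [Real.sqrt_mul (by norm_num)]
      field_simp
    have h9 : (∑ i, c i ^ 2) / 2 + (∑ k : Fin (r + 1), (∑ i, c i * u k i) ^ 2) / 2 =
        A + s ^ 2 / 2 := by
      rw [Fin.sum_univ_castSucc, hA]
      simp only [hu', hs, hv]
      ring
    calc (√π)⁻¹ * ∫ t : ℝ, exp (-1 * t ^ 2) *
          ∑ ω, exp ((∑ k, gf (u' k) (y ω) ^ 2) / 4 + gf (fun i => c i + t * v i) (y ω))
        ≤ (√π)⁻¹ * ((Fintype.card Ω * √2 ^ r * exp A) * (√(2 * π) * exp (s ^ 2 / 2))) := by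
          rw [← h7]
          exact mul_le_mul_of_nonneg_left h6 (by positivity)
      _ = Fintype.card Ω * (√2 ^ (r + 1) * exp ((∑ i, c i ^ 2) / 2 +
            (∑ k : Fin (r + 1), (∑ i, c i * u k i) ^ 2) / 2)) := by
          rw [h9, exp_add A]
          calc (√π)⁻¹ * ((Fintype.card Ω * √2 ^ r * exp A) * (√(2 * π) * exp (s ^ 2 / 2)))
              = ((√π)⁻¹ * √(2 * π)) * (Fintype.card Ω * √2 ^ r * exp A * exp (s ^ 2 / 2)) := by ring
            _ = _ := by rw [h8]; ring

/-- **Exponential moments of `|Pi y|^2`** for a subgaussian vector `y`. -/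
theorem radG {Ω T : Type*} [Fintype Ω] [Fintype T] (y : Ω → T → ℝ)
    (hs : ∀ c : T → ℝ, ∑ ω, exp (gf c (y ω)) ≤ Fintype.card Ω * exp ((∑ i, c i ^ 2) / 2))
    {r : ℕ} (u : Fin r → T → ℝ)
    (hu : ∀ k l, ∑ i, u k i * u l i = if k = l then 1 else 0) :
    ∑ ω, exp ((∑ k, gf (u k) (y ω) ^ 2) / 4) ≤ Fintype.card Ω * √2 ^ r := by
  have h := radG_shift y hs r u hu (fun _ => 0)
  simpa [gf] using h

end P325qz
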