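import Mathlib
import Pool.Agent.Lib.P325qz.ProdG
import Pool.Agent.Lib.P325qz.Capt

/-!
P325qz.CaptG (MP_325f1f_lc, helper24): capture of transversal products of a subgaussian random
vector by few functionals, for every law of relative entropy at most `D`.
-/

namespace P325qz

open Finset Real

/-- the weight of the small configurations -/
theorem wt_leG {j : ℕ} {B : ℝ} (hb' : 0 < B) {C : ℝ} (hC : 0 < C) (hCb : C ≤ B)
    (O : Fin j → Bool) (hO : 2 * cnt O ≤ j) :
    (∏ l, if O l then B else C) ≤ B ^ j * √((C / B) ^ j) := by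
  set q : ℝ := C / B with hq
  have hq0 : 0 < q := div_pos hC hb'
  have hq1 : q ≤ 1 := (div_le_one hb').2 hCb
  set n : ℕ := (univ.filter fun l => ¬ (O l = true)).card with hn
  have h1 : (∏ l, if O l then B else C) = B ^ j * q ^ n := by
    have h2 : ∀ l, (if O l then B else C) = B * (if O l then 1 else q) := by
      intro l
      split_ifs
      · ring
      · rw [hq]; field_simp
    rw [Finset.prod_congr rfl fun l _ => h2 l, Finset.prod_mul_distrib, Finset.prod_ite]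
    simp [hn]
  have h3 : cnt O + n = j := by
    unfold cnt
    rw [Finset.sum_boole, hn]
    have := Finset.card_filter_add_card_filter_not (s := (univ : Finset (Fin j)))
      (fun l => O l = true)
    rw [card_univ, Fintype.card_fin] at this
    exact_mod_cast this
  have h4 : j ≤ 2 * n := by
    have : (j : ℝ) ≤ 2 * n := by linarith
    exact_mod_cast this
  rw [h1]
  refine mul_le_mul_of_nonneg_left ?_ (by positivity)
  apply Real.le_sqrt_of_sq_le
  rw [← pow_mul, mul_comm n 2]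
  exact pow_le_pow_of_le_one hq0.le hq1 h4

/-- **Capture of transversal characters.** -/
theorem captureG {Ω T : Type*} [Fintype Ω] [Nonempty Ω] [Fintype T] (z : Ω → T → ℝ) {B : ℝ}
    (hb' : 0 < B) (hy : ∀ ω, ∑ i, z ω i ^ 2 = B)
    (hs : ∀ c : T → ℝ, ∑ ω, exp (gf c (z ω)) ≤ Fintype.card Ω * exp ((∑ i, c i ^ 2) / 2))
    {j R : ℕ} (hj : 0 < j) {C : ℝ} (hC : 0 < C) (hCb : C ≤ B)
    {D : ℝ} (μ : (Fin j → Ω) → ℝ) (h0 : ∀ y, 0 ≤ μ y) (h1 : ∑ y, μ y = 1)
    (hD : Dkl μ ≤ D) (Λ : Fin R → ((Fin j → Ω) → ℝ) →ₗ[ℝ] ℝ)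
    (hΛ : ∀ g : (Fin j → Ω) → ℝ, ∑ r, (Λ r g) ^ 2 ≤ ∑ y, μ y * g y ^ 2) :
    √(∑ S : Fin j → T, ∑ r, (Λ r fun y => ∏ l, z (y l) (S l)) ^ 2) ≤
      √(B ^ j) * (2 ^ j * √R * √√((C / B) ^ j) + √(8 * D / (j * B) + 4 * log 2 / C)) := by
  classical
  have hj' : (0 : ℝ) < j := by exact_mod_cast hj
  obtain ⟨v, v1, v2, v3, v4, v5⟩ := prodG z hb'.le hy hs hC j μ h0 h1
  set sm : Finset (Fin j → Bool) := univ.filter fun O => 2 * cnt O ≤ j with hsm
  set la : Finset (Fin j → Bool) := univ.filter fun O => ¬ (2 * cnt O ≤ j) with hla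
  -- the splitting of the functionals
  have hsplit : ∀ S r, Λ r (fun y => ∏ l, z (y l) (S l)) =
      (∑ O ∈ sm, Λ r (fun y => v O y S)) + Λ r (fun y => ∑ O ∈ la, v O y S) := by
    intro S r
    have e1 : (fun y : Fin j → Ω => ∏ l, z (y l) (S l)) =
        (∑ O ∈ sm, fun y => v O y S) + fun y => ∑ O ∈ la, v O y S := by
      funext y
      rw [← v1 y S, Pi.add_apply, Finset.sum_apply, hsm, hla]
      exact (Finset.sum_filter_add_sum_filter_not _ _ _).symm
    rw [e1, map_add, map_sum]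
  -- one small configuration
  have hone : ∀ O r, ∑ S, (Λ r fun y => v O y S) ^ 2 ≤ ∏ l, if O l then B else C := by
    intro O r
    set a : (Fin j → T) → ℝ := fun S => Λ r fun y => v O y S with ha
    set W : ℝ := ∏ l, if O l then B else C with hW
    have hW0 : 0 ≤ W := Finset.prod_nonneg fun l _ => by
      split_ifs
      · exact hb'.le
      · exact hC.le
    have e1 : Λ r (fun y => ∑ S, a S * v O y S) = ∑ S, a S ^ 2 := by
      have e2 : (fun y => ∑ S, a S * v O y S) = ∑ S, a S • fun y => v O y S := by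
        funext y
        simp [Finset.sum_apply]
      rw [e2, map_sum]
      refine Finset.sum_congr rfl fun S _ => ?_
      rw [map_smul, smul_eq_mul, sq]
    have e3 : (∑ S, a S ^ 2) ^ 2 ≤ W * ∑ S, a S ^ 2 := by
      calc (∑ S, a S ^ 2) ^ 2 = (Λ r fun y => ∑ S, a S * v O y S) ^ 2 := by rw [e1]
        _ ≤ ∑ r, (Λ r fun y => ∑ S, a S * v O y S) ^ 2 :=
            Finset.single_le_sum (f := fun r => (Λ r fun y => ∑ S, a S * v O y S) ^ 2)
              (fun r _ => sq_nonneg _) (mem_univ r)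
        _ ≤ ∑ y, μ y * (∑ S, a S * v O y S) ^ 2 := hΛ _
        _ ≤ W * ∑ S, a S ^ 2 := v2 O a
    have e4 : 0 ≤ ∑ S, a S ^ 2 := Finset.sum_nonneg fun S _ => sq_nonneg _
    rcases e4.eq_or_lt with h | h
    · change ∑ S, a S ^ 2 ≤ W
      rw [← h]
      exact hW0
    · rw [sq] at e3
      exact le_of_mul_le_mul_right e3 h
  have hsmall : ∀ O ∈ sm, √(∑ S, ∑ r, (Λ r fun y => v O y S) ^ 2) ≤
      √(B ^ j) * (√R * √√((C / B) ^ j)) := by
    intro O hO
    have hO' : 2 * cnt O ≤ j := by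
      rw [hsm, mem_filter] at hO
      exact hO.2
    have e1 : ∑ S, ∑ r, (Λ r fun y => v O y S) ^ 2 ≤ R * (B ^ j * √((C / B) ^ j)) := by
      rw [Finset.sum_comm]
      calc ∑ r, ∑ S, (Λ r fun y => v O y S) ^ 2
          ≤ ∑ r : Fin R, (B ^ j * √((C / B) ^ j)) :=
            Finset.sum_le_sum fun r _ => (hone O r).trans (wt_leG hb' hC hCb O hO')
        _ = _ := by simp
    calc √(∑ S, ∑ r, (Λ r fun y => v O y S) ^ 2)
        ≤ √(R * (B ^ j * √((C / B) ^ j))) := Real.sqrt_le_sqrt e1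
      _ = _ := by
          rw [Real.sqrt_mul (Nat.cast_nonneg R), Real.sqrt_mul (by positivity)]
          ring
  -- the large part
  have hlarge : ∑ S, ∑ r, (Λ r fun y => ∑ O ∈ la, v O y S) ^ 2 ≤
      B ^ j * (8 * D / (j * B) + 4 * log 2 / C) := by
    have e1 : ∀ y, ∑ S, (∑ O ∈ la, v O y S) ^ 2 ≤
        2 / j * ∑ O, cnt O * ∑ S, v O y S ^ 2 := by
      intro y
      rw [sum_sq_orth la (fun O S => v O y S) fun O O' h => v3 O O' h y, Finset.mul_sum]
      calc ∑ O ∈ la, ∑ S, v O y S ^ 2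
          ≤ ∑ O ∈ la, 2 / j * (cnt O * ∑ S, v O y S ^ 2) := by
            refine Finset.sum_le_sum fun O hO => ?_
            rw [hla, mem_filter, not_le] at hO
            have e2 : 0 ≤ ∑ S, v O y S ^ 2 := Finset.sum_nonneg fun S _ => sq_nonneg _
            have e3 : 1 ≤ 2 / j * cnt O := by
              rw [div_mul_eq_mul_div, le_div_iff₀ hj', one_mul]
              exact hO.2.le
            calc ∑ S, v O y S ^ 2 = 1 * ∑ S, v O y S ^ 2 := (one_mul _).symm
              _ ≤ (2 / j * cnt O) * ∑ S, v O y S ^ 2 := mul_le_mul_of_nonneg_right e3 e2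
              _ = _ := by ring
        _ ≤ ∑ O, 2 / j * (cnt O * ∑ S, v O y S ^ 2) := by
            refine Finset.sum_le_sum_of_subset_of_nonneg (Finset.subset_univ _) ?_
            intro O _ _
            have e2 : 0 ≤ ∑ S, v O y S ^ 2 := Finset.sum_nonneg fun S _ => sq_nonneg _
            have := cnt_nonneg O
            positivity
    calc ∑ S, ∑ r, (Λ r fun y => ∑ O ∈ la, v O y S) ^ 2
        ≤ ∑ S, ∑ y, μ y * (∑ O ∈ la, v O y S) ^ 2 := Finset.sum_le_sum fun S _ => hΛ _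
      _ = ∑ y, μ y * ∑ S, (∑ O ∈ la, v O y S) ^ 2 := by
          rw [Finset.sum_comm]
          exact Finset.sum_congr rfl fun y _ => by rw [Finset.mul_sum]
      _ ≤ ∑ y, μ y * (2 / j * ∑ O, cnt O * ∑ S, v O y S ^ 2) :=
          Finset.sum_le_sum fun y _ => mul_le_mul_of_nonneg_left (e1 y) (h0 y)
      _ = 2 / (j * B) * (B * ∑ y, μ y * ∑ O, cnt O * ∑ S, v O y S ^ 2) := by
          have : ∀ y, μ y * (2 / j * ∑ O, cnt O * ∑ S, v O y S ^ 2) =
              2 / j * (μ y * ∑ O, cnt O * ∑ S, v O y S ^ 2) := fun y => by ring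
          rw [Finset.sum_congr rfl fun y _ => this y, ← Finset.mul_sum]
          field_simp
      _ ≤ 2 / (j * B) * (B ^ j * (4 * Dkl μ + 2 * log 2 * (B * j / C))) :=
          mul_le_mul_of_nonneg_left v5 (by positivity)
      _ ≤ 2 / (j * B) * (B ^ j * (4 * D + 2 * log 2 * (B * j / C))) := by gcongr
      _ = B ^ j * (8 * D / (j * B) + 4 * log 2 / C) := by
          field_simp
          ring
  -- assembly
  have hcard : (sm.card : ℝ) ≤ 2 ^ j := by
    have : sm.card ≤ 2 ^ j := by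
      calc sm.card ≤ (univ : Finset (Fin j → Bool)).card := Finset.card_le_card (filter_subset _ _)
        _ = 2 ^ j := by simp
    exact_mod_cast this
  have htotal : √(∑ S : Fin j → T, ∑ r, (Λ r fun y => ∏ l, z (y l) (S l)) ^ 2) ≤
      (∑ O ∈ sm, √(∑ S, ∑ r, (Λ r fun y => v O y S) ^ 2)) +
        √(∑ S, ∑ r, (Λ r fun y => ∑ O ∈ la, v O y S) ^ 2) := by
    have e1 : ∀ f : (Fin j → T) → Fin R → ℝ, ∑ S, ∑ r, f S r ^ 2 =
        ∑ p : (Fin j → T) × Fin R, f p.1 p.2 ^ 2 := fun f =>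
      (Fintype.sum_prod_type' (f := fun S r => f S r ^ 2)).symm
    rw [e1 fun S r => Λ r fun y => ∏ l, z (y l) (S l),
      e1 fun S r => Λ r fun y => ∑ O ∈ la, v O y S]
    simp only [hsplit]
    refine (l2_add (fun p : (Fin j → T) × Fin R => ∑ O ∈ sm, Λ p.2 fun y => v O y p.1)
      fun p => Λ p.2 fun y => ∑ O ∈ la, v O y p.1).trans (add_le_add ?_ le_rfl)
    refine (l2_sum sm fun O (p : (Fin j → T) × Fin R) => Λ p.2 fun y => v O y p.1).trans ?_
    refine Finset.sum_le_sum fun O _ => ?_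
    rw [e1 fun S r => Λ r fun y => v O y S]
  refine htotal.trans ?_
  have e2 : ∑ O ∈ sm, √(∑ S, ∑ r, (Λ r fun y => v O y S) ^ 2) ≤
      √(B ^ j) * (2 ^ j * √R * √√((C / B) ^ j)) := by
    calc _ ≤ ∑ O ∈ sm, √(B ^ j) * (√R * √√((C / B) ^ j)) := Finset.sum_le_sum hsmall
      _ = sm.card * (√(B ^ j) * (√R * √√((C / B) ^ j))) := by
          rw [Finset.sum_const, nsmul_eq_mul]
      _ ≤ 2 ^ j * (√(B ^ j) * (√R * √√((C / B) ^ j))) :=
          mul_le_mul_of_nonneg_right hcard (by positivity)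
      _ = _ := by ring
  have e3 : √(∑ S, ∑ r, (Λ r fun y => ∑ O ∈ la, v O y S) ^ 2) ≤
      √(B ^ j) * √(8 * D / (j * B) + 4 * log 2 / C) := by
    rw [← Real.sqrt_mul (by positivity)]
    exact Real.sqrt_le_sqrt hlarge
  calc _ ≤ √(B ^ j) * (2 ^ j * √R * √√((C / B) ^ j)) +
        √(B ^ j) * √(8 * D / (j * B) + 4 * log 2 / C) := add_le_add e2 e3
    _ = _ := by ring

end P325qz
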