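import Mathlib

/-!
P325qz.CycH (MP_325f1f_lc, helper24): the uniform law on the `q`-th roots of unity, as a
subgaussian vector in the plane.
-/

namespace P325qz

open Finset Real

/-- the two coordinates of the `q`-th roots of unity, `q = n + 1` -/
noncomputable def zc {n : ℕ} (t : Fin (n + 1)) (g : Bool) : ℝ :=
  if g then sin (2 * π * (t : ℕ) / (n + 1)) else cos (2 * π * (t : ℕ) / (n + 1))

theorem zc_sq {n : ℕ} (t : Fin (n + 1)) : ∑ g, zc t g ^ 2 = 1 := by
  rw [Fintype.sum_bool]
  simp only [zc, if_true, Bool.false_eq_true, if_false]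
  exact sin_sq_add_cos_sq _

theorem ang_mod {n : ℕ} (k : ℕ) :
    ∃ N : ℕ, 2 * π * (k : ℝ) / (n + 1) = 2 * π * ((k % (n + 1) : ℕ) : ℝ) / (n + 1) +
      N * (2 * π) := by
  refine ⟨k / (n + 1), ?_⟩
  have h := Nat.div_add_mod k (n + 1)
  have h' : (k : ℝ) = (n + 1) * ((k / (n + 1) : ℕ) : ℝ) + ((k % (n + 1) : ℕ) : ℝ) := by
    exact_mod_cast h.symm
  have hn : (0 : ℝ) < n + 1 := by positivity
  rw [h']
  field_simp
  have e1 : ((((k / (n + 1) : ℕ) : ℕ) : ℝ)) = ((k / (n + 1) : ℕ) : ℝ) := rfl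
  ring_nf
  try simp

theorem zc_succ {n : ℕ} (t : Fin (n + 1)) :
    zc (t + 1) false = cos (2 * π * ((t : ℕ) + 1) / (n + 1)) ∧
      zc (t + 1) true = sin (2 * π * ((t : ℕ) + 1) / (n + 1)) := by
  have hval : ((t + 1 : Fin (n + 1)) : ℕ) = ((t : ℕ) + 1) % (n + 1) := by
    rw [Fin.val_add]
    rcases Nat.eq_zero_or_pos n with h | h
    · subst h
      simp
    · rw [Fin.val_one', Nat.mod_eq_of_lt (by omega : 1 < n + 1)]
  obtain ⟨N, hN⟩ := ang_mod (n := n) ((t : ℕ) + 1)
  push_cast at hN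
  simp only [zc, if_true, Bool.false_eq_true, if_false]
  rw [hval, hN]
  push_cast
  constructor
  · exact (cos_add_nat_mul_two_pi _ N).symm
  · exact (sin_add_nat_mul_two_pi _ N).symm

/-- the inner product of consecutive roots of unity -/
theorem zc_inner {n : ℕ} (t : Fin (n + 1)) :
    ∑ g, zc t g * zc (t + 1) g = cos (2 * π / (n + 1)) := by
  rw [Fintype.sum_bool, (zc_succ t).1, (zc_succ t).2]
  simp only [zc, if_true, Bool.false_eq_true, if_false]
  have hn : (0 : ℝ) < n + 1 := by positivity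
  have h1 : 2 * π / (n + 1) = 2 * π * ((t : ℕ) + 1) / (n + 1) - 2 * π * (t : ℕ) / (n + 1) := by
    field_simp
    ring
  rw [h1, cos_sub]
  ring

theorem zc_sum {n : ℕ} (hn : 0 < n) (g : Bool) : ∑ t : Fin (n + 1), zc t g = 0 := by
  have hprim := Complex.isPrimitiveRoot_exp (n + 1) (by omega)
  have h1 := hprim.geom_sum_eq_zero (by omega)
  have h2 : ∀ k : ℕ, Complex.exp (2 * π * Complex.I / ((n + 1 : ℕ) : ℂ)) ^ k =
      ((cos (2 * π * k / (n + 1)) : ℝ) : ℂ) + ((sin (2 * π * k / (n + 1)) : ℝ) : ℂ) * Complex.I := by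
    intro k
    rw [← Complex.exp_nat_mul, Complex.ofReal_cos, Complex.ofReal_sin, ← Complex.exp_mul_I]
    congr 1
    push_cast
    have hn' : ((n : ℂ) + 1) ≠ 0 := by exact_mod_cast (by omega : n + 1 ≠ 0)
    field_simp
  rw [Finset.sum_congr rfl fun k _ => h2 k] at h1
  cases g with
  | false =>
    have h3 := congrArg Complex.re h1
    simp only [Complex.re_sum, Complex.add_re, Complex.ofReal_re, Complex.mul_re,
      Complex.I_re, mul_zero, Complex.ofReal_im, Complex.I_im, zero_mul, sub_self, add_zero,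
      Complex.zero_re] at h3
    rw [← h3, Finset.sum_range]
    exact Finset.sum_congr rfl fun t _ => by simp [zc]
  | true =>
    have h3 := congrArg Complex.im h1
    simp only [Complex.im_sum, Complex.add_im, Complex.ofReal_re, Complex.mul_im,
      Complex.I_re, mul_zero, Complex.ofReal_im, Complex.I_im, mul_one, zero_add, add_zero,
      Complex.zero_im] at h3
    rw [← h3, Finset.sum_range]
    exact Finset.sum_congr rfl fun t _ => by simp [zc]

/-- convexity of the exponential on a symmetric interval -/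
theorem exp_chord {X r : ℝ} (hr : 0 < r) (h : |X| ≤ r) :
    exp X ≤ cosh r + X / r * sinh r := by
  rw [abs_le] at h
  have h1 := convexOn_exp.2 (Set.mem_univ r) (Set.mem_univ (-r))
    (div_nonneg (by linarith [h.1] : 0 ≤ r + X) (by linarith : 0 ≤ 2 * r))
    (div_nonneg (by linarith [h.2] : 0 ≤ r - X) (by linarith : 0 ≤ 2 * r))
    (by field_simp; ring)
  simp only [smul_eq_mul] at h1
  have h2 : (r + X) / (2 * r) * r + (r - X) / (2 * r) * -r = X := by
    field_simp
    ring
  rw [h2] at h1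
  refine h1.trans (le_of_eq ?_)
  rw [cosh_eq, sinh_eq]
  field_simp
  ring

/-- **Hoeffding** for the roots of unity. -/
theorem zc_sub {n : ℕ} (hn : 0 < n) (a : Bool → ℝ) :
    ∑ t : Fin (n + 1), exp (∑ g, a g * zc t g) ≤
      Fintype.card (Fin (n + 1)) * exp ((∑ g, a g ^ 2) / 2) := by
  have hA0 : 0 ≤ ∑ g, a g ^ 2 := Finset.sum_nonneg fun g _ => sq_nonneg _
  set r : ℝ := √(∑ g, a g ^ 2) with hr
  have hrr : r ^ 2 = ∑ g, a g ^ 2 := Real.sq_sqrt hA0
  have hX : ∀ t : Fin (n + 1), |∑ g, a g * zc t g| ≤ r := by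
    intro t
    rw [hr]
    apply Real.abs_le_sqrt
    have := Finset.sum_mul_sq_le_sq_mul_sq univ a (zc t)
    rwa [zc_sq, mul_one] at this
  have hr0 : 0 ≤ r := Real.sqrt_nonneg _
  rcases hr0.eq_or_lt with h | h
  · have h1 : ∀ t : Fin (n + 1), ∑ g, a g * zc t g = 0 := by
      intro t
      have := hX t
      rw [← h] at this
      exact abs_nonpos_iff.1 this
    simp only [h1, exp_zero]
    rw [← hrr, ← h]
    simp
  · have h1 : ∑ t : Fin (n + 1), ∑ g, a g * zc t g = 0 := by
      rw [Finset.sum_comm]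
      refine Finset.sum_eq_zero fun g _ => ?_
      rw [← Finset.mul_sum, zc_sum hn, mul_zero]
    calc ∑ t : Fin (n + 1), exp (∑ g, a g * zc t g)
        ≤ ∑ t : Fin (n + 1), (cosh r + (∑ g, a g * zc t g) / r * sinh r) :=
          Finset.sum_le_sum fun t _ => exp_chord h (hX t)
      _ = Fintype.card (Fin (n + 1)) * cosh r := by
          rw [Finset.sum_add_distrib, ← Finset.sum_mul, ← Finset.sum_div, h1]
          simp
      _ ≤ _ := by
          refine mul_le_mul_of_nonneg_left ?_ (Nat.cast_nonneg _)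
          rw [← hrr]
          exact cosh_le_exp_half_sq r

end P325qz
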