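import Mathlib
import Pool.Agent.Lib.P325q.Defs
import Pool.Agent.Lib.P325qz.CycH

/-!
P325qz.CycB (MP_325f1f_lc, helper24): the graph `(Z / q) ^ m`, `q = n + 1`: density, energies of
the products of coordinates of roots of unity.
-/

namespace P325qz

open Finset Real
open Pool.Agent.Lib.P325q (density mass energy IsSlow IsFracPartition cutEnergy)

/-- one step in direction `i` -/
def up {n m : ℕ} (x : Fin m → Fin (n + 1)) (i : Fin m) : Fin m → Fin (n + 1) :=
  Function.update x i (x i + 1)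

/-- one step as a permutation -/
def upEquiv {n m : ℕ} (i : Fin m) : (Fin m → Fin (n + 1)) ≃ (Fin m → Fin (n + 1)) where
  toFun x := up x i
  invFun x := Function.update x i (x i - 1)
  left_inv x := by
    unfold up
    simp
  right_inv x := by
    unfold up
    simp

theorem sum_up {n m : ℕ} (i : Fin m) (f : (Fin m → Fin (n + 1)) → ℝ) :
    ∑ x, f (up x i) = ∑ x, f x := Equiv.sum_comp (upEquiv i) f

/-- edges of `(Z / q) ^ m` -/
abbrev YE (n m : ℕ) : Type := (Fin m → Fin (n + 1)) × Fin m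

def yS {n m : ℕ} (e : YE n m) : Fin m → Fin (n + 1) := e.1
def yT {n m : ℕ} (e : YE n m) : Fin m → Fin (n + 1) := up e.1 e.2
noncomputable def yW {n m : ℕ} (_ : YE n m) : ℝ := 1 / (m * (n + 1) ^ m)

theorem yW_nonneg {n m : ℕ} (e : YE n m) : 0 ≤ yW e := by
  unfold yW
  positivity

theorem yW_sum {n m : ℕ} (hm : 0 < m) : ∑ e : YE n m, yW e = 1 := by
  have hm' : (m : ℝ) ≠ 0 := by positivity
  unfold yW
  rw [Fintype.sum_prod_type]
  simp
  field_simp

theorem y_density {n m : ℕ} (hm : 0 < m) (x : Fin m → Fin (n + 1)) :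
    density yS yT yW x = 1 / (Fintype.card (Fin m → Fin (n + 1)) : ℝ) := by
  have hm' : (m : ℝ) ≠ 0 := by positivity
  unfold Pool.Agent.Lib.P325q.density
  rw [Fintype.sum_prod_type, Finset.sum_comm]
  have h1 : ∀ k : Fin m, ∑ y : Fin m → Fin (n + 1), yW (y, k) *
      ((if yS (y, k) = x then (1 : ℝ) else 0) + (if yT (y, k) = x then (1 : ℝ) else 0)) =
        2 * (1 / (m * (n + 1) ^ m)) := by
    intro k
    have e1 : ∑ y : Fin m → Fin (n + 1), (if up y k = x then (1 : ℝ) else 0) = 1 := by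
      rw [sum_up k fun y => if y = x then (1 : ℝ) else 0]
      simp
    have e2 : ∑ y : Fin m → Fin (n + 1), (if y = x then (1 : ℝ) else 0) = 1 := by simp
    have e3 : ∀ y : Fin m → Fin (n + 1), yW (y, k) *
        ((if yS (y, k) = x then (1 : ℝ) else 0) + (if yT (y, k) = x then (1 : ℝ) else 0)) =
        1 / (m * (n + 1) ^ m) *
        ((if y = x then (1 : ℝ) else 0) + (if up y k = x then (1 : ℝ) else 0)) := fun y => rfl
    rw [Finset.sum_congr rfl fun y _ => e3 y, ← Finset.mul_sum, Finset.sum_add_distrib, e1, e2]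
    ring
  rw [Finset.sum_congr rfl fun k _ => h1 k]
  simp
  field_simp

/-- distance of two tensor products of unit vectors that differ in one factor -/
theorem tensor_dist {j : ℕ} (A B : Fin j → Bool → ℝ) (hA : ∀ l, ∑ g, A l g ^ 2 = 1)
    (hB : ∀ l, ∑ g, B l g ^ 2 = 1) :
    ∑ c : Fin j → Bool, (∏ l, A l (c l) - ∏ l, B l (c l)) ^ 2 =
      2 - 2 * ∏ l, ∑ g, A l g * B l g := by
  have e1 : ∀ c : Fin j → Bool, (∏ l, A l (c l) - ∏ l, B l (c l)) ^ 2 =
      ∏ l, A l (c l) ^ 2 - 2 * ∏ l, A l (c l) * B l (c l) + ∏ l, B l (c l) ^ 2 := by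
    intro c
    rw [Finset.prod_pow, Finset.prod_pow, Finset.prod_mul_distrib]
    ring
  have e2 : ∀ f : Fin j → Bool → ℝ, ∑ c : Fin j → Bool, ∏ l, f l (c l) = ∏ l, ∑ g, f l g := by
    intro f
    rw [Finset.prod_univ_sum]
    simp only [Fintype.piFinset_univ]
  rw [Finset.sum_congr rfl fun c _ => e1 c, Finset.sum_add_distrib, Finset.sum_sub_distrib,
    ← Finset.mul_sum, e2 fun l g => A l g ^ 2, e2 fun l g => A l g * B l g,
    e2 fun l g => B l g ^ 2, Finset.prod_eq_one fun l _ => hA l,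
    Finset.prod_eq_one fun l _ => hB l]
  ring

theorem step_dist {n m j : ℕ} (S : Fin j → Fin m) (hS : Function.Injective S)
    (x : Fin m → Fin (n + 1)) (i : Fin m) :
    ∑ c : Fin j → Bool, (∏ l, zc (x (S l)) (c l) - ∏ l, zc (up x i (S l)) (c l)) ^ 2 ≤
      (2 * π / (n + 1)) ^ 2 * ∑ l, if S l = i then (1 : ℝ) else 0 := by
  rw [tensor_dist (fun l => zc (x (S l))) (fun l => zc (up x i (S l))) (fun l => zc_sq _)
    fun l => zc_sq _]
  by_cases h : ∃ l, S l = i
  · obtain ⟨l, hl⟩ := h
    have h1 : (1 : ℝ) ≤ ∑ l, if S l = i then (1 : ℝ) else 0 := by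
      have := Finset.single_le_sum (f := fun l => if S l = i then (1 : ℝ) else 0)
        (fun l _ => by split_ifs <;> norm_num) (mem_univ l)
      simpa [hl] using this
    have h2 : ∏ l', ∑ g, zc (x (S l')) g * zc (up x i (S l')) g = cos (2 * π / (n + 1)) := by
      rw [Finset.prod_eq_single l]
      · rw [hl]
        unfold up
        rw [Function.update_self]
        exact zc_inner _
      · intro l' _ hl'
        have h3 : S l' ≠ i := fun h => hl' (hS (h.trans hl.symm))
        unfold up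
        rw [Function.update_of_ne h3]
        rw [← zc_sq (x (S l'))]
        exact Finset.sum_congr rfl fun g _ => (sq _).symm
      · intro h; exact absurd (mem_univ l) h
    rw [h2]
    have h3 := Real.one_sub_sq_div_two_le_cos (x := 2 * π / (n + 1))
    have h4 : 0 ≤ (2 * π / ((n : ℝ) + 1)) ^ 2 := sq_nonneg _
    nlinarith
  · push Not at h
    have h2 : ∏ l', ∑ g, zc (x (S l')) g * zc (up x i (S l')) g = 1 := by
      refine Finset.prod_eq_one fun l' _ => ?_
      unfold up
      rw [Function.update_of_ne (h l'), ← zc_sq (x (S l'))]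
      exact Finset.sum_congr rfl fun g _ => (sq _).symm
    rw [h2]
    have h3 : (0 : ℝ) ≤ ∑ l, if S l = i then (1 : ℝ) else 0 :=
      Finset.sum_nonneg fun l _ => by split_ifs <;> norm_num
    have h4 : 0 ≤ (2 * π / ((n : ℝ) + 1)) ^ 2 := sq_nonneg _
    nlinarith [mul_nonneg h4 h3]

/-- **Energies of the transversal products.** -/
theorem y_energy {n m j : ℕ} (hm : 0 < m) (S : Fin j → Fin m) (hS : Function.Injective S)
    (σ : (Fin m → Fin (n + 1)) → ℝ) (hσ : ∀ x, 0 ≤ σ x) :
    ∑ c : Fin j → Bool, energy yS yT yW σ (fun v => ∏ l, zc (v (S l)) (c l)) ≤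
      j / m * (2 * π / (n + 1)) ^ 2 *
        ((∑ x, σ x) / (Fintype.card (Fin m → Fin (n + 1)) : ℝ)) := by
  have hm' : (0 : ℝ) < m := by exact_mod_cast hm
  set a : ℝ := (2 * π / ((n : ℝ) + 1)) ^ 2 with ha
  have ha0 : 0 ≤ a := sq_nonneg _
  set W : ℝ := 1 / (m * ((n : ℝ) + 1) ^ m) with hW
  have hW0 : 0 ≤ W := by positivity
  have e1 : ∑ c : Fin j → Bool, energy yS yT yW σ (fun v => ∏ l, zc (v (S l)) (c l)) =
      W * ∑ x, ∑ i, √(σ x * σ (up x i)) *
        ∑ c : Fin j → Bool, (∏ l, zc (x (S l)) (c l) - ∏ l, zc (up x i (S l)) (c l)) ^ 2 := by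
    have e2 : ∀ c : Fin j → Bool, energy yS yT yW σ (fun v => ∏ l, zc (v (S l)) (c l)) =
        ∑ x, ∑ i, W * (√(σ x * σ (up x i)) *
          (∏ l, zc (x (S l)) (c l) - ∏ l, zc (up x i (S l)) (c l)) ^ 2) := by
      intro c
      unfold Pool.Agent.Lib.P325q.energy
      rw [Fintype.sum_prod_type]
      rfl
    rw [Finset.sum_congr rfl fun c _ => e2 c, Finset.sum_comm, Finset.mul_sum]
    refine Finset.sum_congr rfl fun x _ => ?_
    rw [Finset.sum_comm, Finset.mul_sum]
    refine Finset.sum_congr rfl fun i _ => ?_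
    rw [Finset.mul_sum, Finset.mul_sum]
  rw [e1]
  have h1 : ∀ x i, √(σ x * σ (up x i)) ≤ (σ x + σ (up x i)) / 2 := by
    intro x i
    rw [Real.sqrt_le_iff]
    constructor
    · have := hσ x
      have := hσ (up x i)
      linarith
    · nlinarith [sq_nonneg (σ x - σ (up x i))]
  have h2 : ∑ x, ∑ i, √(σ x * σ (up x i)) *
        ∑ c : Fin j → Bool, (∏ l, zc (x (S l)) (c l) - ∏ l, zc (up x i (S l)) (c l)) ^ 2 ≤
      j * a * ∑ x, σ x := by
    calc _ ≤ ∑ x, ∑ i, (σ x + σ (up x i)) / 2 * (a * ∑ l, if S l = i then (1 : ℝ) else 0) := by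
          refine Finset.sum_le_sum fun x _ => Finset.sum_le_sum fun i _ => ?_
          refine mul_le_mul (h1 x i) (step_dist S hS x i)
            (Finset.sum_nonneg fun c _ => sq_nonneg _) ?_
          have := hσ x
          have := hσ (up x i)
          linarith
      _ = ∑ l, ∑ x, (σ x + σ (up x (S l))) / 2 * a := by
          have e3 : ∀ x, ∑ i, (σ x + σ (up x i)) / 2 *
              (a * ∑ l, if S l = i then (1 : ℝ) else 0) =
              ∑ l, (σ x + σ (up x (S l))) / 2 * a := by
            intro x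
            simp only [Finset.mul_sum]
            rw [Finset.sum_comm]
            refine Finset.sum_congr rfl fun l _ => ?_
            simp
          rw [Finset.sum_congr rfl fun x _ => e3 x, Finset.sum_comm]
      _ = ∑ l : Fin j, a * ∑ x, σ x := by
          refine Finset.sum_congr rfl fun l _ => ?_
          rw [← Finset.sum_mul, ← Finset.sum_div, Finset.sum_add_distrib, sum_up (S l) σ]
          ring
      _ = j * a * ∑ x, σ x := by
          rw [Finset.sum_const, card_univ, Fintype.card_fin, nsmul_eq_mul]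
          ring
  calc W * ∑ x, ∑ i, √(σ x * σ (up x i)) *
        ∑ c : Fin j → Bool, (∏ l, zc (x (S l)) (c l) - ∏ l, zc (up x i (S l)) (c l)) ^ 2
      ≤ W * (j * a * ∑ x, σ x) := mul_le_mul_of_nonneg_left h2 hW0
    _ = _ := by
        rw [hW]
        simp only [Fintype.card_fun, Fintype.card_fin]
        push_cast
        field_simp

end P325qz
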