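import Mathlib
import Pool.Agent.Lib.P325qz.Marg
import Pool.Agent.Lib.P325qz.CycB

/-!
P325qz.CycA (MP_325f1f_lc, helper24): edge isoperimetry in `(Z / q) ^ m` by tensorisation of the
entropy, and a part of small entropy in every cheap partition into sets.
-/

namespace P325qz

open Finset Real
open Pool.Agent.Lib.P325q (density mass energy IsSlow IsFracPartition cutEnergy)

/-- unnormalised entropy -/
noncomputable def En {A : Type*} [Fintype A] (F : A → ℝ) : ℝ :=
  ∑ a, F a * log (F a) - (∑ a, F a) * log ((∑ a, F a) / Fintype.card A)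

theorem En_Dkl {A : Type*} [Fintype A] [Nonempty A] (F : A → ℝ) (hF : ∀ a, 0 ≤ F a)
    (hT : 0 < ∑ a, F a) : (∑ a, F a) * Dkl (fun a => F a / ∑ a, F a) = En F := by
  set T : ℝ := ∑ a, F a with hTd
  have hN : (0 : ℝ) < Fintype.card A := by exact_mod_cast Fintype.card_pos
  unfold Dkl En
  rw [Finset.mul_sum, ← hTd]
  have h1 : ∀ a, T * (F a / T * log (Fintype.card A * (F a / T))) =
      F a * log (F a) - F a * log (T / Fintype.card A) := by
    intro a
    rcases (hF a).eq_or_lt with h | h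
    · rw [← h]; simp
    · have e1 : (Fintype.card A : ℝ) * (F a / T) = F a / (T / Fintype.card A) := by
        field_simp
      rw [e1, log_div h.ne' (by positivity)]
      field_simp
  rw [Finset.sum_congr rfl fun a _ => h1 a, Finset.sum_sub_distrib, ← Finset.sum_mul]

/-- homogeneous Gibbs inequality -/
theorem En_gibbs {A : Type*} [Fintype A] [Nonempty A] (F : A → ℝ) (hF : ∀ a, 0 ≤ F a)
    (g : A → ℝ) (hg0 : ∀ a, 0 ≤ g a) (hg : ∀ a, 0 < F a → 0 < g a)
    (hs : ∑ a, g a ≤ Fintype.card A) : ∑ a, F a * log (g a) ≤ En F := by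
  rcases (Finset.sum_nonneg fun a (_ : a ∈ univ) => hF a).eq_or_lt with h | h
  · have hz : ∀ a, F a = 0 := fun a =>
      (Finset.sum_eq_zero_iff_of_nonneg fun a _ => hF a).1 h.symm a (mem_univ a)
    unfold En
    simp [hz]
  · have h1 := gibbs_log (fun a => F a / ∑ a, F a) (fun a => div_nonneg (hF a) h.le)
      (by rw [← Finset.sum_div]; exact div_self h.ne') g hg0
      (fun a ha => hg a (by
        rcases (hF a).eq_or_lt with h2 | h2
        · rw [← h2, zero_div] at ha; exact absurd ha (lt_irrefl _)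
        · exact h2)) hs
    rw [← En_Dkl F hF h]
    calc ∑ a, F a * log (g a) = (∑ a, F a) * ∑ a, F a / (∑ a, F a) * log (g a) := by
          rw [Finset.mul_sum]
          refine Finset.sum_congr rfl fun a _ => ?_
          field_simp
      _ ≤ _ := mul_le_mul_of_nonneg_left h1 h.le

/-- **Subadditivity** of the unnormalised entropy. -/
theorem En_sum_le {A K : Type*} [Fintype A] [Nonempty A] [Fintype K] (f : K → A → ℝ)
    (hf : ∀ k a, 0 ≤ f k a) : En (fun a => ∑ k, f k a) ≤ ∑ k, En (f k) := by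
  have hN : (0 : ℝ) < Fintype.card A := by exact_mod_cast Fintype.card_pos
  set h : A → ℝ := fun a => ∑ k, f k a with hh
  have hh0 : ∀ a, 0 ≤ h a := fun a => Finset.sum_nonneg fun k _ => hf k a
  set T : ℝ := ∑ a, h a with hT
  rcases (Finset.sum_nonneg fun a (_ : a ∈ univ) => hh0 a).eq_or_lt with h0 | h0
  · have hz : ∀ a, h a = 0 := fun a =>
      (Finset.sum_eq_zero_iff_of_nonneg fun a _ => hh0 a).1 h0.symm a (mem_univ a)
    have hz2 : ∀ k a, f k a = 0 := fun k a =>
      (Finset.sum_eq_zero_iff_of_nonneg fun k _ => hf k a).1 (hz a) k (mem_univ k)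
    have e1 : En h = 0 := by unfold En; simp [hz]
    have e2 : ∀ k, En (f k) = 0 := by intro k; unfold En; simp [hz2]
    rw [e1, Finset.sum_eq_zero fun k _ => e2 k]
  · rw [← hT] at h0
    set g : A → ℝ := fun a => Fintype.card A * h a / T with hg
    have hg0 : ∀ a, 0 ≤ g a := fun a => div_nonneg (mul_nonneg hN.le (hh0 a)) h0.le
    have hgs : ∑ a, g a ≤ Fintype.card A := by
      simp only [hg]
      rw [← Finset.sum_div, ← Finset.mul_sum, ← hT, mul_div_assoc, div_self h0.ne', mul_one]
    have e1 : En h = ∑ a, h a * log (g a) := by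
      unfold En
      rw [← hT, hT, Finset.sum_mul, ← Finset.sum_sub_distrib]
      refine Finset.sum_congr rfl fun a _ => ?_
      rw [← hT]
      rcases (hh0 a).eq_or_lt with h2 | h2
      · rw [← h2]; ring
      · simp only [hg]
        rw [log_div (by positivity) h0.ne', log_mul hN.ne' h2.ne', log_div h0.ne' hN.ne']
        ring
    rw [e1]
    simp only [hh, Finset.sum_mul]
    rw [Finset.sum_comm]
    refine Finset.sum_le_sum fun k _ => En_gibbs (f k) (hf k) g hg0 (fun a ha => ?_) hgs
    have h2 : 0 < h a := lt_of_lt_of_le ha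
      (Finset.single_le_sum (f := fun k => f k a) (fun k _ => hf k a) (mem_univ k))
    simp only [hg]
    positivity

theorem En_smul {A : Type*} [Fintype A] [Nonempty A] (F : A → ℝ) (hF : ∀ a, 0 ≤ F a) {c : ℝ}
    (hc : 0 < c) : En (fun a => c * F a) = c * En F := by
  have hN : (0 : ℝ) < Fintype.card A := by exact_mod_cast Fintype.card_pos
  unfold En
  rw [← Finset.mul_sum]
  have h1 : ∀ a, c * F a * log (c * F a) = c * (F a * log c + F a * log (F a)) := by
    intro a
    rcases (hF a).eq_or_lt with h | h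
    · rw [← h]; simp
    · rw [log_mul hc.ne' h.ne']; ring
  rw [Finset.sum_congr rfl fun a _ => h1 a, ← Finset.mul_sum, Finset.sum_add_distrib,
    ← Finset.sum_mul]
  rcases (Finset.sum_nonneg fun a (_ : a ∈ univ) => hF a).eq_or_lt with h | h
  · rw [← h]; simp
  · rw [mul_div_assoc, log_mul hc.ne' (by positivity)]
    ring

/-- the chain rule for the unnormalised entropy -/
theorem En_cons {A : Type*} [Fintype A] [Nonempty A] {m : ℕ} (F : (Fin (m + 1) → A) → ℝ)
    (hF : ∀ x, 0 ≤ F x) :
    En F ≤ ∑ a, En (fun x => F (Fin.cons a x)) + ∑ x, En (fun a => F (Fin.cons a x)) := by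
  set T : A → ℝ := fun a => ∑ x, F (Fin.cons a x) with hT
  have hT0 : ∀ a, 0 ≤ T a := fun a => Finset.sum_nonneg fun x _ => hF _
  have hN : (0 : ℝ) < Fintype.card A := by exact_mod_cast Fintype.card_pos
  have hNm : (0 : ℝ) < Fintype.card (Fin m → A) := by exact_mod_cast Fintype.card_pos
  have hcard : (Fintype.card (Fin (m + 1) → A) : ℝ) =
      Fintype.card A * Fintype.card (Fin m → A) := by
    simp [pow_succ, mul_comm]
  have h1 : En F = ∑ a, En (fun x => F (Fin.cons a x)) + En T := by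
    unfold En
    rw [sum_cons (f := fun x => F x * log (F x)), sum_cons (f := F), hcard,
      Finset.sum_sub_distrib]
    have e1 : ∀ a, (∑ x, F (Fin.cons a x)) * log ((∑ x, F (Fin.cons a x)) /
        Fintype.card (Fin m → A)) = T a * log (T a) - T a * log (Fintype.card (Fin m → A)) := by
      intro a
      change T a * log (T a / _) = _
      rcases (hT0 a).eq_or_lt with h | h
      · rw [← h]; simp
      · rw [log_div h.ne' hNm.ne']; ring
    rw [Finset.sum_congr rfl fun a _ => e1 a, Finset.sum_sub_distrib, ← Finset.sum_mul]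
    rcases (Finset.sum_nonneg fun a (_ : a ∈ univ) => hT0 a).eq_or_lt with h | h
    · change _ - (∑ a, T a) * _ = _
      rw [← h]; simp
    · change _ - (∑ a, T a) * log ((∑ a, T a) / _) = _
      rw [log_div h.ne' (by positivity), log_div h.ne' hN.ne', log_mul hN.ne' hNm.ne']
      ring
  rw [h1]
  refine add_le_add le_rfl ?_
  have h2 := En_sum_le (fun (x : Fin m → A) a => F (Fin.cons a x)) (fun x a => hF _)
  exact h2

/-- entropy of a `0/1` function on the cycle -/
theorem En_cycle {n : ℕ} (F : Fin (n + 1) → ℝ) (hF : ∀ a, F a = 0 ∨ F a = 1) :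
    En F ≤ (n + 1) / (2 * exp 1) * ∑ a, (F a - F (a + 1)) ^ 2 := by
  have hq : (0 : ℝ) < n + 1 := by positivity
  have he : 0 < exp 1 := exp_pos 1
  have hF0 : ∀ a, 0 ≤ F a := fun a => by
    rcases hF a with h | h
    · exact h.ge
    · exact h ▸ zero_le_one
  have hlog : ∀ a, F a * log (F a) = 0 := fun a => by rcases hF a with h | h <;> rw [h] <;> simp
  have hEn : En F = -((∑ a, F a) * log ((∑ a, F a) / (n + 1))) := by
    unfold En
    rw [Finset.sum_eq_zero fun a _ => hlog a]
    simp
  by_cases hconst : ∀ a, F a = F (a + 1)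
  · -- constant function
    have h1 : ∀ (k : ℕ) (hk : k < n + 1), F ⟨k, hk⟩ = F 0 := by
      intro k
      induction k with
      | zero => intro hk; rfl
      | succ k ih =>
        intro hk
        have h5 : (⟨k, by omega⟩ : Fin (n + 1)) + 1 = ⟨k + 1, hk⟩ := by
          apply Fin.ext
          rw [Fin.val_add_one_of_lt]
          rw [Fin.lt_def]
          change k < n
          omega
        rw [← h5, ← hconst, ih]
    have h2 : ∀ a, F a = F 0 := fun a => h1 a.val a.isLt
    have h3 : ∑ a, F a = (n + 1) * F 0 := by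
      rw [Finset.sum_congr rfl fun a _ => h2 a]
      simp
    have h4 : En F = 0 := by
      rw [hEn, h3]
      rcases hF 0 with h | h
      · rw [h]; simp
      · rw [h, mul_one, div_self hq.ne', log_one]; simp
    rw [h4]
    exact mul_nonneg (by positivity) (Finset.sum_nonneg fun a _ => sq_nonneg _)
  · -- at least two boundary edges
    have hsum : ∑ a, (F a - F (a + 1)) = 0 := by
      have h5 : ∑ a, F (a + 1) = ∑ a, F a := Equiv.sum_comp (Equiv.addRight (1 : Fin (n + 1))) F
      rw [Finset.sum_sub_distrib, h5, sub_self]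
    have hex : ∃ a, F a - F (a + 1) = 1 := by
      by_contra hno
      push Not at hno
      have h1 : ∀ a, F a - F (a + 1) ≤ 0 := by
        intro a
        have h2 := hno a
        rcases hF a with h | h
        · rcases hF (a + 1) with h' | h' <;> linarith
        · rcases hF (a + 1) with h' | h'
          · exact absurd (by rw [h, h']; norm_num) h2
          · linarith
      have h2 : ∀ a, F a - F (a + 1) = 0 := fun a =>
        (Finset.sum_eq_zero_iff_of_nonpos fun a _ => h1 a).1 hsum a (mem_univ a)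
      exact hconst fun a => by linarith [h2 a]
    have hex2 : ∃ a, F a - F (a + 1) = -1 := by
      by_contra hno
      push Not at hno
      have h1 : ∀ a, 0 ≤ F a - F (a + 1) := by
        intro a
        have h2 := hno a
        rcases hF (a + 1) with h' | h'
        · rcases hF a with h | h <;> linarith
        · rcases hF a with h | h
          · exact absurd (by rw [h, h']; norm_num) h2
          · linarith
      have h2 : ∀ a, F a - F (a + 1) = 0 := fun a =>
        (Finset.sum_eq_zero_iff_of_nonneg fun a _ => h1 a).1 hsum a (mem_univ a)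
      exact hconst fun a => by linarith [h2 a]
    obtain ⟨a, ha⟩ := hex
    obtain ⟨a', ha'⟩ := hex2
    have hne : a ≠ a' := fun h => by rw [h, ha'] at ha; norm_num at ha
    have h2 : 2 ≤ ∑ a, (F a - F (a + 1)) ^ 2 := by
      have h3 : ∑ b ∈ {a, a'}, (F b - F (b + 1)) ^ 2 ≤ ∑ a, (F a - F (a + 1)) ^ 2 :=
        Finset.sum_le_sum_of_subset_of_nonneg (Finset.subset_univ _) fun b _ _ => sq_nonneg _
      rw [Finset.sum_pair hne, ha, ha'] at h3
      norm_num at h3
      exact h3
    have h3 : En F ≤ (n + 1) / exp 1 := by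
      rw [hEn]
      set T : ℝ := ∑ a, F a with hT
      rcases (Finset.sum_nonneg fun a (_ : a ∈ univ) => hF0 a).eq_or_lt with h | h
      · rw [← hT] at h
        rw [← h]
        simp
        positivity
      · rw [← hT] at h
        have h4 : log ((n + 1) / T / exp 1) ≤ (n + 1) / T / exp 1 - 1 :=
          log_le_sub_one_of_pos (by positivity)
        rw [log_div (by positivity) he.ne', log_exp, log_div hq.ne' h.ne'] at h4
        have h5 : -(T * log (T / (n + 1))) = T * (log (n + 1) - log T) := by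
          rw [log_div h.ne' hq.ne']; ring
        rw [h5]
        calc T * (log (n + 1) - log T) ≤ T * ((n + 1) / T / exp 1) :=
              mul_le_mul_of_nonneg_left (by linarith) h.le
          _ = _ := by field_simp
    calc En F ≤ (n + 1) / exp 1 := h3
      _ = (n + 1) / (2 * exp 1) * 2 := by field_simp
      _ ≤ _ := mul_le_mul_of_nonneg_left h2 (by positivity)

theorem up_cons_zero {n m : ℕ} (a : Fin (n + 1)) (x : Fin m → Fin (n + 1)) :
    up (Fin.cons a x : Fin (m + 1) → Fin (n + 1)) 0 = Fin.cons (a + 1) x := by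
  unfold up
  rw [Fin.cons_zero, Fin.update_cons_zero]

theorem up_cons_succ {n m : ℕ} (a : Fin (n + 1)) (x : Fin m → Fin (n + 1)) (i : Fin m) :
    up (Fin.cons a x : Fin (m + 1) → Fin (n + 1)) i.succ = Fin.cons a (up x i) := by
  unfold up
  rw [Fin.cons_succ, Fin.cons_update]

/-- **Edge isoperimetry** in `(Z / q) ^ m`. -/
theorem En_power {n : ℕ} : ∀ (m : ℕ) (F : (Fin m → Fin (n + 1)) → ℝ)
    (_ : ∀ x, F x = 0 ∨ F x = 1),
    En F ≤ (n + 1) / (2 * exp 1) * ∑ x, ∑ i, (F x - F (up x i)) ^ 2 := by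
  intro m
  induction m with
  | zero =>
    intro F hF
    have : En F = 0 := by
      unfold En
      simp
    rw [this]
    simp
  | succ m ih =>
    intro F hF
    have hF0 : ∀ x, 0 ≤ F x := fun x => by
      rcases hF x with h | h
      · exact h.ge
      · exact h ▸ zero_le_one
    have h1 := En_cons F hF0
    have h2 : ∀ a, En (fun x => F (Fin.cons a x)) ≤ (n + 1) / (2 * exp 1) *
        ∑ x, ∑ i, (F (Fin.cons a x) - F (Fin.cons a (up x i))) ^ 2 := fun a =>
      ih (fun x => F (Fin.cons a x)) fun x => hF _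
    have h3 : ∀ x : Fin m → Fin (n + 1), En (fun a => F (Fin.cons a x)) ≤
        (n + 1) / (2 * exp 1) * ∑ a, (F (Fin.cons a x) - F (Fin.cons (a + 1) x)) ^ 2 := fun x =>
      En_cycle (fun a => F (Fin.cons a x)) fun a => hF _
    have h4 : ∑ x, ∑ i, (F x - F (up x i)) ^ 2 =
        ∑ a, ∑ x, ∑ i, (F (Fin.cons a x) - F (Fin.cons a (up x i))) ^ 2 +
        ∑ x : Fin m → Fin (n + 1), ∑ a, (F (Fin.cons a x) - F (Fin.cons (a + 1) x)) ^ 2 := by
      have h5 : ∀ (a : Fin (n + 1)) (x : Fin m → Fin (n + 1)),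
          ∑ i, (F (Fin.cons a x) - F (up (Fin.cons a x) i)) ^ 2 =
          (F (Fin.cons a x) - F (Fin.cons (a + 1) x)) ^ 2 +
            ∑ i, (F (Fin.cons a x) - F (Fin.cons a (up x i))) ^ 2 := by
        intro a x
        rw [Fin.sum_univ_succ, up_cons_zero]
        simp only [up_cons_succ]
      rw [sum_cons]
      simp only [h5, Finset.sum_add_distrib]
      rw [Finset.sum_comm (f := fun (x : Fin m → Fin (n + 1)) a =>
        (F (Fin.cons a x) - F (Fin.cons (a + 1) x)) ^ 2)]
      ring
    rw [h4, mul_add, Finset.mul_sum, Finset.mul_sum]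
    exact h1.trans (add_le_add (Finset.sum_le_sum fun a _ => h2 a)
      (Finset.sum_le_sum fun x _ => h3 x))

theorem y_cut {n m : ℕ} {I : Type} [Fintype I] (ρ : I → (Fin m → Fin (n + 1)) → ℝ) :
    cutEnergy yS yT yW ρ =
      1 / (m * (n + 1) ^ m) * ∑ i, ∑ x, ∑ k, (√(ρ i x) - √(ρ i (up x k))) ^ 2 := by
  unfold Pool.Agent.Lib.P325q.cutEnergy
  rw [Finset.mul_sum]
  refine Finset.sum_congr rfl fun i _ => ?_
  rw [Fintype.sum_prod_type, Finset.mul_sum]
  refine Finset.sum_congr rfl fun x _ => ?_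
  rw [Finset.mul_sum]
  rfl

/-- **A part of small entropy** in every cheap partition into sets. -/
theorem y_part {n m : ℕ} (hm : 0 < m) {κ : ℝ} (hκ : (n + 1) * κ / exp 1 ≤ 1 / 64)
    {I : Type} [Fintype I] (ρ : I → (Fin m → Fin (n + 1)) → ℝ) (hρ : IsFracPartition ρ)
    (hset : ∀ i x, ρ i x = 0 ∨ ρ i x = 1) (hcut : cutEnergy yS yT yW ρ ≤ 2 * κ) :
    ∃ i, 0 < ∑ y, ρ i y ∧ Dkl (fun y => ρ i y / ∑ y, ρ i y) ≤ m / 64 := by
  obtain ⟨hρ0, hρ1⟩ := hρ
  have hm' : (0 : ℝ) < m := by exact_mod_cast hm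
  have hq : (0 : ℝ) < n + 1 := by positivity
  have he : 0 < exp 1 := exp_pos 1
  rw [y_cut] at hcut
  by_contra hcon
  push Not at hcon
  set E : I → ℝ := fun i => ∑ y, ∑ k, (ρ i y - ρ i (up y k)) ^ 2 with hE
  have hsq : ∀ i x, √(ρ i x) = ρ i x := fun i x => by
    rcases hset i x with h | h <;> rw [h] <;> simp
  simp only [hsq] at hcut
  have h1 : ∑ i, E i ≤ 2 * κ * (m * (n + 1) ^ m) := by
    have : 1 / (m * ((n : ℝ) + 1) ^ m) * ∑ i, E i ≤ 2 * κ := hcut
    rwa [one_div, inv_mul_le_iff₀ (by positivity), mul_comm] at this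
  have hT : ∑ i, ∑ y, ρ i y = (n + 1) ^ m := by
    rw [Finset.sum_comm, Finset.sum_congr rfl fun y _ => hρ1 y]
    simp
  have hEn : ∀ i, En (ρ i) ≤ (n + 1) / (2 * exp 1) * E i := fun i => En_power m (ρ i) (hset i)
  have h2 : ∀ i, (m : ℝ) / 64 * (∑ y, ρ i y) ≤ (n + 1) / (2 * exp 1) * E i := by
    intro i
    rcases (Finset.sum_nonneg fun y (_ : y ∈ univ) => hρ0 i y).eq_or_lt with h | h
    · rw [← h, mul_zero]
      exact mul_nonneg (by positivity) (Finset.sum_nonneg fun y _ =>
        Finset.sum_nonneg fun k _ => sq_nonneg _)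
    · have h3 := hEn i
      rw [← En_Dkl (ρ i) (hρ0 i) h] at h3
      have h4 := hcon i h
      calc (m : ℝ) / 64 * (∑ y, ρ i y) ≤ Dkl (fun y => ρ i y / ∑ y, ρ i y) * (∑ y, ρ i y) :=
            mul_le_mul_of_nonneg_right h4.le h.le
        _ = (∑ y, ρ i y) * Dkl (fun y => ρ i y / ∑ y, ρ i y) := mul_comm _ _
        _ ≤ _ := h3
  have h2' : ∃ i, (m : ℝ) / 64 * (∑ y, ρ i y) < (n + 1) / (2 * exp 1) * E i := by
    have h5 : ∃ i, 0 < ∑ y, ρ i y := by
      by_contra hc
      push Not at hc
      have : ∑ i, ∑ y, ρ i y ≤ 0 := Finset.sum_nonpos fun i _ => hc i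
      rw [hT] at this
      have : (0 : ℝ) < (n + 1) ^ m := by positivity
      linarith
    obtain ⟨i, h⟩ := h5
    refine ⟨i, ?_⟩
    have h3 := hEn i
    rw [← En_Dkl (ρ i) (hρ0 i) h] at h3
    have h4 := hcon i h
    calc (m : ℝ) / 64 * (∑ y, ρ i y) < Dkl (fun y => ρ i y / ∑ y, ρ i y) * (∑ y, ρ i y) :=
          mul_lt_mul_of_pos_right h4 h
      _ = (∑ y, ρ i y) * Dkl (fun y => ρ i y / ∑ y, ρ i y) := mul_comm _ _
      _ ≤ _ := h3
  obtain ⟨i0, hi0⟩ := h2'
  have h3 : ∑ i, (m : ℝ) / 64 * (∑ y, ρ i y) < ∑ i, (n + 1) / (2 * exp 1) * E i :=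
    Finset.sum_lt_sum (fun i _ => h2 i) ⟨i0, mem_univ _, hi0⟩
  rw [← Finset.mul_sum, ← Finset.mul_sum, hT] at h3
  have h6 : (n + 1) / (2 * exp 1) * ∑ i, E i ≤ (n + 1) / (2 * exp 1) *
      (2 * κ * (m * (n + 1) ^ m)) := mul_le_mul_of_nonneg_left h1 (by positivity)
  have h7 : ((n : ℝ) + 1) / (2 * exp 1) * (2 * κ * (m * (n + 1) ^ m)) =
      ((n + 1) * κ / exp 1) * (m * (n + 1) ^ m) := by
    field_simp
  have h8 : ((n + 1) * κ / exp 1) * (m * (n + 1) ^ m) ≤ 1 / 64 * (m * (n + 1) ^ m) :=
    mul_le_mul_of_nonneg_right hκ (by positivity)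
  linarith

end P325qz
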