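import Mathlib
import Pool.Agent.Lib.P325qz.CaptG
import Pool.Agent.Lib.P325qz.Marg
import Pool.Agent.Lib.P325qz.Slow

/-!
P325qz.LowerG (MP_325f1f_lc, helper24): a part of small entropy of a product graph has many small
eigenvalues.
-/

namespace P325qz

open Finset Real
open Pool.Agent.Lib.P325q (density mass energy IsSlow IsFracPartition cutEnergy)

/-- the blocks of a point of a product -/
def blkG {Θ : Type*} {m j b : ℕ} (e : Fin j × Fin b → Fin m) (x : Fin m → Θ) :
    Fin j → Fin b → Θ := fun l i => x (e (l, i))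

theorem blkG_fibre {Θ : Type*} [Fintype Θ] [DecidableEq Θ] {m j b : ℕ}
    (e : Fin j × Fin b → Fin m) (he : Function.Injective e) (y : Fin j → Fin b → Θ) :
    Fintype.card (Fin j → Fin b → Θ) * (univ.filter fun x => blkG e x = y).card =
      Fintype.card (Fin m → Θ) := by
  classical
  have key : ∀ y' : Fin j → Fin b → Θ,
      (univ.filter fun x => blkG e x = y').card = (univ.filter fun x => blkG e x = y).card := by
    intro y'
    set z : Fin m → Equiv.Perm Θ := fun k =>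
      if h : ∃ q, e q = k then Equiv.swap (y h.choose.1 h.choose.2) (y' h.choose.1 h.choose.2)
      else 1 with hz
    have hz2 : ∀ l i, z (e (l, i)) = Equiv.swap (y l i) (y' l i) := by
      intro l i
      have h : ∃ q, e q = e (l, i) := ⟨_, rfl⟩
      have h2 : h.choose = (l, i) := he h.choose_spec
      simp only [hz, dif_pos h, h2]
    have hz3 : ∀ k t, z k (z k t) = t := by
      intro k t
      simp only [hz]
      split_ifs with h
      · exact congrFun (congrArg DFunLike.coe (Equiv.swap_swap (y h.choose.1 h.choose.2) (y' h.choose.1 h.choose.2))) t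
      · rfl
    refine Finset.card_bij' (fun x _ k => z k (x k)) (fun x _ k => z k (x k)) ?_ ?_ ?_ ?_
    · intro x hx
      rw [mem_filter] at hx ⊢
      refine ⟨mem_univ _, ?_⟩
      funext l i
      have h3 : x (e (l, i)) = y' l i := congrFun (congrFun hx.2 l) i
      change z (e (l, i)) (x (e (l, i))) = y l i
      rw [h3, hz2, Equiv.swap_apply_right]
    · intro x hx
      rw [mem_filter] at hx ⊢
      refine ⟨mem_univ _, ?_⟩
      funext l i
      have h3 : x (e (l, i)) = y l i := congrFun (congrFun hx.2 l) i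
      change z (e (l, i)) (x (e (l, i))) = y' l i
      rw [h3, hz2, Equiv.swap_apply_left]
    · intro x _
      funext k
      exact hz3 k (x k)
    · intro x _
      funext k
      exact hz3 k (x k)
  have h2 : ∑ y' : Fin j → Fin b → Θ, (univ.filter fun x => blkG e x = y').card =
      (univ : Finset (Fin m → Θ)).card :=
    (Finset.card_eq_sum_card_fiberwise fun x _ => mem_univ (blkG e x)).symm
  rw [Finset.sum_congr rfl fun y' _ => key y', Finset.sum_const, smul_eq_mul, card_univ,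
    card_univ] at h2
  exact h2

/-- numerical conclusion -/
theorem numA {m b j R : ℕ} (hb : 12 ≤ b) (hj : 0 < j) (hm : m ≤ 2 * (j * b))
    (h2 : √(7 / 8) ≤ 2 ^ j * √R * √√((12 / (b : ℝ)) ^ j) +
      √(8 * ((m : ℝ) / 64) / (j * b) + 4 * log 2 / 12)) :
    ((b : ℝ) / 192) ^ j ≤ (20 * (R : ℝ)) ^ 2 := by
  have hb0 : 0 < b := by omega
  have hb' : (0 : ℝ) < b := by exact_mod_cast hb0
  have hj' : (0 : ℝ) < j := by exact_mod_cast hj
  have h3 : √(8 * ((m : ℝ) / 64) / (j * b) + 4 * log 2 / 12) ≤ 0.694 := by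
    apply Real.sqrt_le_iff.2
    constructor
    · norm_num
    · have e1 : 8 * ((m : ℝ) / 64) / (j * b) ≤ 1 / 4 := by
        rw [div_le_iff₀ (by positivity)]
        have : (m : ℝ) ≤ 2 * (j * b) := by exact_mod_cast hm
        linarith
      have e2 := Real.log_two_lt_d9
      nlinarith
  have h4 : (0.935 : ℝ) ≤ √(7 / 8) := by
    apply Real.le_sqrt_of_sq_le
    norm_num
  have h5 : (0.241 : ℝ) ≤ 2 ^ j * √R * √√((12 / (b : ℝ)) ^ j) := by linarith
  have hq0 : (0 : ℝ) < 12 / b := by positivity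
  have h6 : (0.241 : ℝ) ^ 4 ≤ (2 ^ j * √R * √√((12 / (b : ℝ)) ^ j)) ^ 4 :=
    pow_le_pow_left₀ (by norm_num) h5 4
  have h7 : (2 ^ j * √R * √√((12 / (b : ℝ)) ^ j)) ^ 4 = (R : ℝ) ^ 2 * (192 / b) ^ j := by
    have e1 : √(R : ℝ) ^ 4 = (R : ℝ) ^ 2 := by
      rw [show (4 : ℕ) = 2 * 2 from rfl, pow_mul, Real.sq_sqrt (Nat.cast_nonneg R)]
    have e2 : √√((12 / (b : ℝ)) ^ j) ^ 4 = (12 / (b : ℝ)) ^ j := by
      rw [show (4 : ℕ) = 2 * 2 from rfl, pow_mul, Real.sq_sqrt (Real.sqrt_nonneg _),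
        Real.sq_sqrt (by positivity)]
    have e3 : ((2 : ℝ) ^ j) ^ 4 = 16 ^ j := by
      rw [← pow_mul, mul_comm, pow_mul]
      norm_num
    rw [mul_pow, mul_pow, e1, e2, e3]
    have e4 : (192 / (b : ℝ)) ^ j = 16 ^ j * (12 / (b : ℝ)) ^ j := by
      rw [← mul_pow]
      congr 1
      ring
    rw [e4]
    ring
  rw [h7] at h6
  have h8 : ((b : ℝ) / 192) ^ j * (192 / b) ^ j = 1 := by
    rw [← mul_pow]
    have : (b : ℝ) / 192 * (192 / b) = 1 := by field_simp
    rw [this, one_pow]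
  have hp : 0 < ((b : ℝ) / 192) ^ j := by positivity
  calc ((b : ℝ) / 192) ^ j = ((b : ℝ) / 192) ^ j * 1 := (mul_one _).symm
    _ ≤ ((b : ℝ) / 192) ^ j * (400 * 0.241 ^ 4) :=
        mul_le_mul_of_nonneg_left (by norm_num) hp.le
    _ ≤ ((b : ℝ) / 192) ^ j * (400 * ((R : ℝ) ^ 2 * (192 / b) ^ j)) := by
        refine mul_le_mul_of_nonneg_left ?_ hp.le
        linarith
    _ = (20 * (R : ℝ)) ^ 2 * (((b : ℝ) / 192) ^ j * (192 / b) ^ j) := by ring
    _ = _ := by rw [h8, mul_one]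

/-- the block parameters -/
theorem blocks {m : ℕ} {x : ℝ} (hx : 1024 ≤ x * m) (hx1 : x ≤ 1) :
    ∃ j b : ℕ, 0 < j ∧ (j : ℝ) ≤ x * m / 1024 ∧ x * m / 2048 ≤ j ∧ 12 ≤ b ∧
      2 / x ≤ (b : ℝ) / 192 ∧ j * b ≤ m ∧ m ≤ 2 * (j * b) := by
  have hm : 0 < m := by
    rcases Nat.eq_zero_or_pos m with h | h
    · subst h; norm_num at hx
    · exact h
  have hm' : (0 : ℝ) < m := by exact_mod_cast hm
  have hx0 : 0 < x := by
    by_contra hcon
    have : x * m ≤ 0 := mul_nonpos_of_nonpos_of_nonneg (not_lt.1 hcon) hm'.le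
    linarith
  set j : ℕ := ⌊x * m / 1024⌋₊ with hj
  have hy1 : 1 ≤ x * m / 1024 := by
    rw [le_div_iff₀ (by norm_num)]
    linarith
  have hj1 : 1 ≤ j := Nat.le_floor (by simpa using hy1)
  have hjle : (j : ℝ) ≤ x * m / 1024 := Nat.floor_le (by positivity)
  have hjge : x * m / 2048 ≤ j := by
    have h1 := Nat.lt_floor_add_one (x * m / 1024)
    have h2 : (1 : ℝ) ≤ j := by exact_mod_cast hj1
    rw [← hj] at h1
    linarith
  set b : ℕ := m / j with hb
  have hjb : j * b ≤ m := Nat.mul_div_le m j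
  have hjb2 : m < j * (b + 1) := by
    have := Nat.lt_mul_div_succ m (by omega : 0 < j)
    simpa [hb] using this
  have hb512 : 512 / x ≤ b := by
    have h1 : (m : ℝ) < j * (b + 1) := by exact_mod_cast hjb2
    have h2 : (m : ℝ) < x * m / 1024 * (b + 1) :=
      h1.trans_le (mul_le_mul_of_nonneg_right hjle (by positivity))
    have h3 : 1024 < x * (b + 1) := by
      have h4 : (m : ℝ) * 1024 < m * (x * (b + 1)) := by linarith
      exact lt_of_mul_lt_mul_left h4 hm'.le
    rw [div_le_iff₀ hx0]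
    nlinarith
  have hb12 : 12 ≤ b := by
    have h1 : (512 : ℝ) ≤ 512 / x := by
      rw [le_div_iff₀ hx0]
      linarith
    have h2 : (12 : ℝ) ≤ b := by linarith
    exact_mod_cast h2
  have hm2 : m ≤ 2 * (j * b) := by
    have : j * (b + 1) ≤ 2 * (j * b) := by nlinarith
    omega
  refine ⟨j, b, hj1, hjle, hjge, hb12, ?_, hjb, hm2⟩
  rw [le_div_iff₀ (by norm_num)]
  calc 2 / x * 192 = 384 / x := by ring
    _ ≤ 512 / x := by gcongr; norm_num
    _ ≤ b := hb512

theorem numB {m b j R : ℕ} {x : ℝ} (hx : 1024 ≤ x * m) (hx1 : x ≤ 1)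
    (hjge : x * m / 2048 ≤ j) (hq : 2 / x ≤ (b : ℝ) / 192)
    (hfinal : ((b : ℝ) / 192) ^ j ≤ (20 * (R : ℝ)) ^ 2) :
    1 / 20 * ((2 : ℝ) ^ m) ^ (x * log (2 / x) / 3000) ≤ R := by
  have hm : 0 < m := by
    rcases Nat.eq_zero_or_pos m with h | h
    · subst h; norm_num at hx
    · exact h
  have hm' : (0 : ℝ) < m := by exact_mod_cast hm
  have hx0 : 0 < x := by
    by_contra hcon
    have : x * m ≤ 0 := mul_nonpos_of_nonpos_of_nonneg (not_lt.1 hcon) hm'.le
    linarith
  have hP : (0 : ℝ) < 2 ^ m := by positivity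
  have h2x : 1 < 2 / x := by
    rw [lt_div_iff₀ hx0]
    linarith
  have hlog : 0 < log (2 / x) := log_pos h2x
  have h10 : (2 / x) ^ j ≤ (20 * (R : ℝ)) ^ 2 :=
    (pow_le_pow_left₀ (by positivity) hq j).trans hfinal
  have hR0 : 0 < 20 * (R : ℝ) := by
    have h11 : 0 < (2 / x) ^ j := by positivity
    have h12 : 0 < (20 * (R : ℝ)) ^ 2 := h11.trans_le h10
    have h13 : (0 : ℝ) ≤ 20 * R := by positivity
    rcases h13.eq_or_lt with h14 | h14
    · rw [← h14] at h12; norm_num at h12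
    · exact h14
  have h11 : (j : ℝ) * log (2 / x) ≤ 2 * log (20 * R) := by
    have := log_le_log (by positivity) h10
    rw [log_pow, log_pow] at this
    exact_mod_cast this
  have h12 : x * m / 4096 * log (2 / x) ≤ log (20 * R) := by
    have : x * m / 2048 * log (2 / x) ≤ j * log (2 / x) :=
      mul_le_mul_of_nonneg_right hjge hlog.le
    linarith
  have h13 : ((2 : ℝ) ^ m) ^ (x * log (2 / x) / 3000) ≤ 20 * R := by
    rw [Real.rpow_def_of_pos hP, ← Real.le_log_iff_exp_le hR0, log_pow]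
    refine le_trans ?_ h12
    have h14 := Real.log_two_lt_d9
    have h15 : 0 < x * m * log (2 / x) := by positivity
    have h16 : log 2 / 3000 ≤ 1 / 4096 := by
      rw [div_le_div_iff₀ (by norm_num) (by norm_num)]
      linarith
    calc (m : ℝ) * log 2 * (x * log (2 / x) / 3000) = log 2 / 3000 * (x * m * log (2 / x)) := by
          ring
      _ ≤ 1 / 4096 * (x * m * log (2 / x)) := mul_le_mul_of_nonneg_right h16 h15.le
      _ = _ := by ring
  linarith

/-- product of subgaussian vectors -/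
theorem sub_block {Θ Γ : Type*} [Fintype Θ] [Fintype Γ] (z : Θ → Γ → ℝ)
    (hsub : ∀ a : Γ → ℝ, ∑ θ, exp (∑ γ, a γ * z θ γ) ≤
      Fintype.card Θ * exp ((∑ γ, a γ ^ 2) / 2)) (b : ℕ) (c : Fin b × Γ → ℝ) :
    ∑ ω : Fin b → Θ, exp (gf c fun p => z (ω p.1) p.2) ≤
      Fintype.card (Fin b → Θ) * exp ((∑ i, c i ^ 2) / 2) := by
  have h1 : ∀ ω : Fin b → Θ, exp (gf c fun p => z (ω p.1) p.2) =
      ∏ i, exp (∑ γ, c (i, γ) * z (ω i) γ) := by
    intro ω
    unfold gf
    rw [← exp_sum, Fintype.sum_prod_type]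
  rw [Finset.sum_congr rfl fun ω _ => h1 ω]
  have h2 : ∑ ω : Fin b → Θ, ∏ i, exp (∑ γ, c (i, γ) * z (ω i) γ) =
      ∏ i : Fin b, ∑ θ, exp (∑ γ, c (i, γ) * z θ γ) := by
    rw [Finset.prod_univ_sum]
    simp only [Fintype.piFinset_univ]
  rw [h2]
  calc ∏ i : Fin b, ∑ θ, exp (∑ γ, c (i, γ) * z θ γ)
      ≤ ∏ i : Fin b, (Fintype.card Θ * exp ((∑ γ, c (i, γ) ^ 2) / 2)) :=
        Finset.prod_le_prod (fun i _ => Finset.sum_nonneg fun θ _ => (exp_pos _).le)
          fun i _ => hsub _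
    _ = Fintype.card (Fin b → Θ) * exp ((∑ i, c i ^ 2) / 2) := by
        rw [Finset.prod_mul_distrib, ← exp_sum, ← Finset.sum_div, Fintype.sum_prod_type]
        simp

/-- **A part of small entropy of a product has many small eigenvalues.** -/
theorem lowerG {m : ℕ} {Θ Γ ι : Type} [Fintype Θ] [DecidableEq Θ] [Nonempty Θ]
    [Fintype Γ] [Fintype ι] (z : Θ → Γ → ℝ) (hz : ∀ θ, ∑ γ, z θ γ ^ 2 = 1)
    (hsub : ∀ a : Γ → ℝ, ∑ θ, exp (∑ γ, a γ * z θ γ) ≤
      Fintype.card Θ * exp ((∑ γ, a γ ^ 2) / 2))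
    (s t : ι → (Fin m → Θ)) (w : ι → ℝ) (hw : ∀ e, 0 ≤ w e)
    (hd : ∀ v, density s t w v = 1 / (Fintype.card (Fin m → Θ) : ℝ))
    (σ : (Fin m → Θ) → ℝ) (hσ : ∀ v, 0 ≤ σ v) (hM : 0 < ∑ v, σ v)
    (hkl : Dkl (fun v => σ v / ∑ v, σ v) ≤ m / 64) {x η : ℝ} (hη : 0 < η)
    (hx : 1024 ≤ x * m) (hx1 : x ≤ 1)
    (hen : ∀ (j : ℕ) (S : Fin j → Fin m), Function.Injective S → (j : ℝ) ≤ x * m / 1024 →
      ∑ c : Fin j → Γ, energy s t w σ (fun v => ∏ l, z (v (S l)) (c l)) ≤
        η / 8 * ((∑ v, σ v) / (Fintype.card (Fin m → Θ) : ℝ))) :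
    ∃ F : Submodule ℝ ((Fin m → Θ) → ℝ), IsSlow s t w σ η F ∧
      1 / 20 * ((2 : ℝ) ^ m) ^ (x * log (2 / x) / 3000) ≤ Module.finrank ℝ F := by
  classical
  obtain ⟨j, b, hj1, hjle, hjge, hb12, hq, hjb, hm2⟩ := blocks hx hx1
  have hb' : (0 : ℝ) < b := by
    have : 0 < b := by omega
    exact_mod_cast this
  have hb12' : (12 : ℝ) ≤ b := by exact_mod_cast hb12
  set N : ℝ := (Fintype.card (Fin m → Θ) : ℝ) with hN
  have hN0 : 0 < N := by
    rw [hN]
    exact_mod_cast Fintype.card_pos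
  set T : ℝ := ∑ y, σ y with hT
  set e : Fin j × Fin b → Fin m := fun p => Fin.castLE hjb (finProdFinEquiv p) with he
  have heinj : Function.Injective e := fun p q h =>
    finProdFinEquiv.injective (Fin.castLE_injective hjb h)
  obtain ⟨R, F, h, hF, hslow, hbes, hlow⟩ := exists_slow s t hw hσ hη
  refine ⟨F, hslow, ?_⟩
  rw [hF]
  refine numB hx hx1 hjge hq (numA hb12 hj1 hm2 ?_)
  set M : ℝ := T / N with hMd
  have hM0 : 0 < M := by positivity
  set L : Fin R → ((Fin m → Θ) → ℝ) →ₗ[ℝ] ℝ := fun r =>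
    { toFun := fun g => (√M)⁻¹ * ∑ y, density s t w y * σ y * h r y * g y
      map_add' := by
        intro g g'
        rw [← mul_add, ← Finset.sum_add_distrib]
        congr 1
        exact Finset.sum_congr rfl fun y _ => by rw [Pi.add_apply]; ring
      map_smul' := by
        intro a g
        have e1 : ∑ y, density s t w y * σ y * h r y * (a • g) y =
            a * ∑ y, density s t w y * σ y * h r y * g y := by
          rw [Finset.mul_sum]
          exact Finset.sum_congr rfl fun y _ => by rw [Pi.smul_apply, smul_eq_mul]; ring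
        rw [e1, RingHom.id_apply, smul_eq_mul]
        ring } with hL
  have hLs : ∀ g : (Fin m → Θ) → ℝ, ∑ r, (L r g) ^ 2 =
      M⁻¹ * ∑ r, (∑ y, density s t w y * σ y * h r y * g y) ^ 2 := by
    intro g
    rw [Finset.mul_sum]
    refine Finset.sum_congr rfl fun r _ => ?_
    change ((√M)⁻¹ * ∑ y, density s t w y * σ y * h r y * g y) ^ 2 = _
    rw [mul_pow, inv_pow, Real.sq_sqrt hM0.le]
  have hmass : ∀ g : (Fin m → Θ) → ℝ, mass s t w σ g = (∑ y, σ y * g y ^ 2) / N := by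
    intro g
    unfold Pool.Agent.Lib.P325q.mass
    rw [Finset.sum_div]
    refine Finset.sum_congr rfl fun y _ => ?_
    rw [hd]
    ring
  set μ : (Fin m → Θ) → ℝ := fun y => σ y / T with hμ
  have hμ1 : ∑ y, μ y = 1 := by
    simp only [hμ]
    rw [← Finset.sum_div]
    exact div_self hM.ne'
  have hμ0 : ∀ y, 0 ≤ μ y := fun y => div_nonneg (hσ y) hM.le
  have hmassμ : ∀ g : (Fin m → Θ) → ℝ,
      M⁻¹ * mass s t w σ g = ∑ y, μ y * g y ^ 2 := by
    intro g
    rw [hmass, hMd, inv_div, div_mul_div_comm, mul_comm N,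
      mul_div_mul_right _ _ hN0.ne', Finset.sum_div]
    refine Finset.sum_congr rfl fun y _ => ?_
    simp only [hμ]
    ring
  have hLbes : ∀ g : (Fin m → Θ) → ℝ, ∑ r, (L r g) ^ 2 ≤ ∑ y, μ y * g y ^ 2 := by
    intro g
    rw [hLs, ← hmassμ]
    exact mul_le_mul_of_nonneg_left (hbes g) (by positivity)
  -- transversal products
  have hL78 : ∀ S : Fin j → Fin b,
      7 / 8 ≤ ∑ c : Fin j → Γ, ∑ r, (L r fun v => ∏ l, z (v (e (l, S l))) (c l)) ^ 2 := by
    intro S
    set f : (Fin j → Γ) → (Fin m → Θ) → ℝ := fun c v => ∏ l, z (v (e (l, S l))) (c l) with hf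
    have hSinj : Function.Injective fun l => e (l, S l) := fun l l' hll => by
      have := heinj hll
      exact congrArg Prod.fst this
    have h1 : ∀ v, ∑ c, f c v ^ 2 = 1 := by
      intro v
      have e1 : ∀ c, f c v ^ 2 = ∏ l, z (v (e (l, S l))) (c l) ^ 2 := by
        intro c
        simp only [hf]
        rw [Finset.prod_pow]
      rw [Finset.sum_congr rfl fun c _ => e1 c]
      have e2 : ∑ c : Fin j → Γ, ∏ l, z (v (e (l, S l))) (c l) ^ 2 =
          ∏ l : Fin j, ∑ γ, z (v (e (l, S l))) γ ^ 2 := by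
        rw [Finset.prod_univ_sum]
        simp only [Fintype.piFinset_univ]
      rw [e2]
      exact Finset.prod_eq_one fun l _ => hz _
    have h2 : ∑ c, mass s t w σ (f c) = M := by
      simp only [hmass]
      rw [← Finset.sum_div, Finset.sum_comm, hMd, hT]
      congr 1
      refine Finset.sum_congr rfl fun y _ => ?_
      rw [← Finset.mul_sum, h1, mul_one]
    have h3 : ∑ c, energy s t w σ (f c) ≤ η / 8 * M :=
      hen j (fun l => e (l, S l)) hSinj hjle
    have h4 : ∑ c, (mass s t w σ (f c) - energy s t w σ (f c) / η) ≤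
        ∑ c, ∑ r, (∑ y, density s t w y * σ y * h r y * f c y) ^ 2 :=
      Finset.sum_le_sum fun c _ => hlow (f c)
    rw [Finset.sum_sub_distrib, h2, ← Finset.sum_div] at h4
    have h5 : (∑ c, energy s t w σ (f c)) / η ≤ M / 8 := by
      rw [div_le_iff₀ hη]
      linarith
    have h6 : ∑ c, ∑ r, (L r (f c)) ^ 2 =
        M⁻¹ * ∑ c, ∑ r, (∑ y, density s t w y * σ y * h r y * f c y) ^ 2 := by
      rw [Finset.mul_sum]
      exact Finset.sum_congr rfl fun c _ => hLs (f c)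
    change 7 / 8 ≤ ∑ c, ∑ r, (L r (f c)) ^ 2
    rw [h6]
    calc (7 / 8 : ℝ) = M⁻¹ * (7 / 8 * M) := by field_simp
      _ ≤ _ := mul_le_mul_of_nonneg_left (by linarith) (by positivity)
  -- the law of the blocks
  have hD' : Dkl (marg (blkG e) μ) ≤ m / 64 :=
    (Dkl_marg (blkG e) (blkG_fibre e heinj) μ hμ0 hμ1).trans hkl
  set pull : ((Fin j → Fin b → Θ) → ℝ) →ₗ[ℝ] ((Fin m → Θ) → ℝ) :=
    LinearMap.funLeft ℝ ℝ (blkG e) with hpull
  have hcap := captureG (Ω := Fin b → Θ) (T := Fin b × Γ) (fun ω p => z (ω p.1) p.2) hb'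
    (by
      intro ω
      rw [Fintype.sum_prod_type]
      simp only [hz]
      simp)
    (sub_block z hsub b) hj1 (C := 12) (by norm_num) hb12'
    (marg (blkG e) μ) (marg_nonneg _ μ hμ0) (marg_one _ μ hμ1) hD'
    (fun r => (L r).comp pull) (by
      intro g
      have := hLbes (pull g)
      rw [marg_sum (blkG e) μ fun y => g y ^ 2]
      exact this)
  have hsum : ∑ S : Fin j → Fin b × Γ, ∑ r, (((L r).comp pull)
      fun y => ∏ l, z (y l (S l).1) (S l).2) ^ 2 =
      ∑ S : Fin j → Fin b, ∑ c : Fin j → Γ,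
        ∑ r, (L r fun v => ∏ l, z (v (e (l, S l))) (c l)) ^ 2 := by
    rw [← Fintype.sum_prod_type' (f := fun (S : Fin j → Fin b) (c : Fin j → Γ) =>
      ∑ r, (L r fun v => ∏ l, z (v (e (l, S l))) (c l)) ^ 2)]
    exact Fintype.sum_equiv
      { toFun := fun S => (fun l => (S l).1, fun l => (S l).2)
        invFun := fun p l => (p.1 l, p.2 l)
        left_inv := fun S => rfl
        right_inv := fun p => rfl } _ _ fun S => rfl
  have hlow2 : √((b : ℝ) ^ j) * √(7 / 8) ≤
      √(∑ S : Fin j → Fin b × Γ, ∑ r, (((L r).comp pull)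
        fun y => ∏ l, z (y l (S l).1) (S l).2) ^ 2) := by
    rw [← Real.sqrt_mul (by positivity), hsum]
    apply Real.sqrt_le_sqrt
    calc (b : ℝ) ^ j * (7 / 8) = ∑ S : Fin j → Fin b, (7 / 8 : ℝ) := by simp
      _ ≤ _ := Finset.sum_le_sum fun S _ => hL78 S
  have hbj : 0 < √((b : ℝ) ^ j) := Real.sqrt_pos.2 (by positivity)
  exact le_of_mul_le_mul_left (hlow2.trans hcap) hbj

end P325qz
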