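import Mathlib
import Pool.Agent.Lib.P325qz.LowerG
import Pool.Agent.Lib.P325qz.CycA

/-!
P325qz.CycF (MP_325f1f_lc, helper24): partitions into sets of the power of a cycle.
-/

namespace P325qz

open Finset Real
open Pool.Agent.Lib.P325q (density mass energy IsSlow IsFracPartition cutEnergy)

/-- The length of the cycle. -/
noncomputable def qq (κ : ℝ) : ℕ := ⌊exp 1 / (64 * κ)⌋₊

theorem qq_facts {κ : ℝ} (hκ : 0 < κ) (hκ1 : κ ≤ 1 / 100) :
    4 ≤ qq κ ∧ (qq κ : ℝ) * κ / exp 1 ≤ 1 / 64 ∧ exp 1 / (80 * κ) ≤ qq κ ∧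
      log (qq κ) ≤ log (1 / κ) := by
  have he : 2.7 < exp 1 := by
    have := Real.exp_one_gt_d9
    linarith
  have he2 : exp 1 < 2.72 := by
    have := Real.exp_one_lt_d9
    linarith
  have he0 : 0 < exp 1 := exp_pos 1
  have h1 : (4 : ℝ) ≤ exp 1 / (64 * κ) := by
    rw [le_div_iff₀ (by positivity)]
    linarith
  have h4 : 4 ≤ qq κ := Nat.le_floor (by exact_mod_cast h1)
  have h4' : (4 : ℝ) ≤ qq κ := by exact_mod_cast h4
  have hle : (qq κ : ℝ) ≤ exp 1 / (64 * κ) := Nat.floor_le (by positivity)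
  have hlt : exp 1 / (64 * κ) < qq κ + 1 := Nat.lt_floor_add_one _
  refine ⟨h4, ?_, ?_, ?_⟩
  · rw [div_le_iff₀ he0]
    rw [le_div_iff₀ (by positivity)] at hle
    linarith
  · have h5 : exp 1 / (80 * κ) = exp 1 / (64 * κ) * (4 / 5) := by
      field_simp
      norm_num
    rw [h5]
    linarith
  · apply log_le_log (by linarith)
    refine hle.trans ?_
    rw [div_le_div_iff₀ (by positivity) hκ]
    nlinarith

/-- **Partitions into sets**: a part with many small eigenvalues. -/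
theorem y_lower {n m : ℕ} {κ : ℝ} (hκ : 0 < κ) (hκ1 : κ ≤ 1 / 100) (hn : n + 1 = qq κ)
    {I : Type} [Fintype I] (ρ : I → (Fin m → Fin (n + 1)) → ℝ) (hρ : IsFracPartition ρ)
    (hset : ∀ i x, ρ i x = 0 ∨ ρ i x = 1) (hcut : cutEnergy yS yT yW ρ ≤ 2 * κ)
    {x : ℝ} (hx : 307200 ≤ x * m) (hx1 : x ≤ 1) :
    ∃ (i : I) (F : Submodule ℝ ((Fin m → Fin (n + 1)) → ℝ)),
      IsSlow yS yT yW (ρ i) (x * κ ^ 2) F ∧
      1 / 20 * (((n + 1 : ℕ) : ℝ) ^ m) ^ (x * log (2 / x) / (1300000 * log (1 / κ))) ≤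
        Module.finrank ℝ F := by
  obtain ⟨hq4, hq1, hq2, hq3⟩ := qq_facts hκ hκ1
  rw [← hn] at hq4 hq1 hq2 hq3
  have hm : 0 < m := by
    rcases Nat.eq_zero_or_pos m with h | h
    · subst h; norm_num at hx
    · exact h
  have hm' : (0 : ℝ) < m := by exact_mod_cast hm
  have hx0 : 0 < x := by
    by_contra hcon
    have : x * m ≤ 0 := mul_nonpos_of_nonpos_of_nonneg (not_lt.1 hcon) hm'.le
    linarith
  push_cast at hq1 hq2 hq3
  have hqpos : (0 : ℝ) < n + 1 := by positivity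
  have he : 2.7 < exp 1 := by
    have := Real.exp_one_gt_d9
    linarith
  obtain ⟨i, hTi, hDi⟩ := y_part hm hq1 ρ hρ hset hcut
  obtain ⟨hρ0, hρ1⟩ := hρ
  -- the energies
  have hx' : 1024 ≤ (x / 300) * m := by
    have : x / 300 * m = x * m / 300 := by ring
    rw [this, le_div_iff₀ (by norm_num)]
    linarith
  have hπ : π < 3.15 := pi_lt_d2
  have hen : ∀ (j : ℕ) (S : Fin j → Fin m), Function.Injective S →
      (j : ℝ) ≤ (x / 300) * m / 1024 →
      ∑ c : Fin j → Bool, energy yS yT yW (ρ i) (fun v => ∏ l, zc (v (S l)) (c l)) ≤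
        (x * κ ^ 2) / 8 * ((∑ v, ρ i v) / (Fintype.card (Fin m → Fin (n + 1)) : ℝ)) := by
    intro j S hS hj
    refine (y_energy hm S hS (ρ i) (hρ0 i)).trans ?_
    refine mul_le_mul_of_nonneg_right ?_ (by positivity)
    have h1 : (j : ℝ) / m ≤ x / 307200 := by
      rw [div_le_div_iff₀ hm' (by norm_num)]
      linarith
    have h2 : 2 * π / (n + 1) ≤ 187 * κ := by
      rw [div_le_iff₀ hqpos]
      have h3 : exp 1 ≤ (n + 1) * (80 * κ) := by
        rwa [div_le_iff₀ (by positivity)] at hq2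
      have h4 : 2 * π ≤ 187 / 80 * exp 1 := by linarith
      calc 2 * π ≤ 187 / 80 * exp 1 := h4
        _ ≤ 187 / 80 * ((n + 1) * (80 * κ)) := by linarith
        _ = 187 * κ * (n + 1) := by ring
    have h3 : (2 * π / (n + 1)) ^ 2 ≤ (187 * κ) ^ 2 :=
      pow_le_pow_left₀ (by positivity) h2 2
    calc (j : ℝ) / m * (2 * π / (n + 1)) ^ 2 ≤ x / 307200 * (187 * κ) ^ 2 := by gcongr
      _ ≤ x * κ ^ 2 / 8 := by
          have : 0 ≤ x * κ ^ 2 := by positivity
          nlinarith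
  obtain ⟨F, hslow, hF⟩ := lowerG (m := m) (zc (n := n)) zc_sq (zc_sub (by omega)) yS yT yW
    yW_nonneg (y_density hm) (ρ i) (hρ0 i) hTi hDi (η := x * κ ^ 2) (by positivity) hx'
    (by linarith) hen
  refine ⟨i, F, hslow, le_trans ?_ hF⟩
  refine mul_le_mul_of_nonneg_left ?_ (by norm_num)
  -- comparison of the exponents
  have hL : 0 < log (2 / x) := by
    apply log_pos
    rw [lt_div_iff₀ hx0]
    linarith
  have hL2 : log (2 / x) ≤ log (2 / (x / 300)) := by
    apply log_le_log (by positivity)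
    rw [div_div_eq_mul_div]
    gcongr
    norm_num
  have hlk : 0 < log (1 / κ) := by
    apply log_pos
    rw [lt_div_iff₀ hκ]
    linarith
  have hcast : (((n + 1 : ℕ) : ℝ) ^ m) = ((n : ℝ) + 1) ^ m := by push_cast; rfl
  rw [hcast, Real.rpow_def_of_pos (by positivity), Real.rpow_def_of_pos (by positivity)]
  apply exp_le_exp.2
  rw [log_pow, log_pow]
  have hlog2 : 0.6931 < log 2 := by
    have := Real.log_two_gt_d9
    linarith
  have h1 : (m : ℝ) * log (n + 1) * (x * log (2 / x) / (1300000 * log (1 / κ))) ≤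
      m * (x * log (2 / x)) / 1300000 := by
    have h2 : (m : ℝ) * log (n + 1) * (x * log (2 / x) / (1300000 * log (1 / κ))) =
        (log (n + 1) / log (1 / κ)) * (m * (x * log (2 / x)) / 1300000) := by
      field_simp
    rw [h2]
    have h3 : log ((n : ℝ) + 1) / log (1 / κ) ≤ 1 := (div_le_one hlk).2 hq3
    have h4 : 0 ≤ m * (x * log (2 / x)) / 1300000 := by positivity
    calc _ ≤ 1 * (m * (x * log (2 / x)) / 1300000) := mul_le_mul_of_nonneg_right h3 h4
      _ = _ := one_mul _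
  refine h1.trans ?_
  have h5 : (m : ℝ) * log 2 * (x / 300 * log (2 / (x / 300)) / 3000) =
      log 2 / 900000 * (m * (x * log (2 / (x / 300)))) := by ring
  rw [h5]
  have h6 : m * (x * log (2 / x)) ≤ m * (x * log (2 / (x / 300))) := by gcongr
  have h7 : 0 ≤ m * (x * log (2 / x)) := by positivity
  calc m * (x * log (2 / x)) / 1300000 ≤ log 2 / 900000 * (m * (x * log (2 / x))) := by
        nlinarith
    _ ≤ _ := mul_le_mul_of_nonneg_left h6 (by positivity)

end P325qz
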