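import Mathlib
import Pool.Agent.Lib.P325qz.CycA
import Pool.Agent.Lib.P325qz.LogSob

/-!
P325qz.SetA (MP_325f1f_lc, helper24): a class of a partition of the hypercube that is large and has
few bad half paths, by averaging.
-/

namespace P325qz

open Finset Real

/-- the entropy of a class by the logarithmic Sobolev inequality -/
theorem class_logsob {m : ℕ} {I : Type} [DecidableEq I] (P : (Fin m → Bool) → I) (i : I) :
    let A := univ.filter fun v => P v = i
    0 < A.card →
    (A.card : ℝ) * log (2 ^ m / A.card) ≤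
      1 / 2 * ∑ v, ∑ k, ((if P v = i then (1 : ℝ) else 0) -
        (if P (flip v k) = i then (1 : ℝ) else 0)) ^ 2 := by
  intro A hA
  have hA' : (0 : ℝ) < A.card := by exact_mod_cast hA
  have h := logsob_cube m (fun v => if P v = i then (1 : ℝ) else 0)
    (fun v => by split_ifs <;> norm_num)
  have h1 : ∀ v : Fin m → Bool, (if P v = i then (1 : ℝ) else 0) *
      log (if P v = i then (1 : ℝ) else 0) = 0 := by
    intro v
    split_ifs <;> simp
  have h2 : ∑ v : Fin m → Bool, (if P v = i then (1 : ℝ) else 0) = A.card := by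
    rw [Finset.sum_boole]
  have h3 : ∀ v : Fin m → Bool, √(if P v = i then (1 : ℝ) else 0) =
      if P v = i then (1 : ℝ) else 0 := by
    intro v
    split_ifs <;> simp
  rw [Finset.sum_eq_zero fun v _ => h1 v, h2] at h
  simp only [h3] at h
  refine le_trans (le_of_eq ?_) h
  rw [log_div (by positivity) hA'.ne', log_div hA'.ne' (by positivity)]
  ring

/-- **A large class with few bad half paths.** -/
theorem setA {m : ℕ} (hm : 0 < m) {I : Type} [Fintype I] [DecidableEq I]
    (P : (Fin m → Bool) → I)
    (bad : (Fin m → Bool) → Fin m → ℝ) (hbad : ∀ v k, 0 ≤ bad v k)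
    (hcut : ∑ v, ∑ k, (if P v ≠ P (flip v k) then (1 : ℝ) else 0) ≤ m * 2 ^ m / 70)
    (hb : ∑ v, ∑ k, bad v k ≤ m * 2 ^ m / 140) :
    ∃ i, 0 < (univ.filter fun v => P v = i).card ∧
      log (2 ^ m / (univ.filter fun v => P v = i).card) ≤ 3 * m / 200 ∧
      ∑ v ∈ univ.filter (fun v => P v = i), ∑ k, bad v k ≤
        3 / 20 * (m * (univ.filter fun v => P v = i).card) := by
  have hm' : (0 : ℝ) < m := by exact_mod_cast hm
  have hP : (0 : ℝ) < 2 ^ m := by positivity
  by_contra hcon
  push Not at hcon
  set c : I → ℝ := fun i => ((univ.filter fun v => P v = i).card : ℝ) with hc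
  set E : I → ℝ := fun i => ∑ v, ∑ k, ((if P v = i then (1 : ℝ) else 0) -
        (if P (flip v k) = i then (1 : ℝ) else 0)) ^ 2 with hE
  set B : I → ℝ := fun i => ∑ v ∈ univ.filter (fun v => P v = i), ∑ k, bad v k with hB
  have hE0 : ∀ i, 0 ≤ E i := fun i => Finset.sum_nonneg fun v _ =>
    Finset.sum_nonneg fun k _ => sq_nonneg _
  have hB0 : ∀ i, 0 ≤ B i := fun i => Finset.sum_nonneg fun v _ =>
    Finset.sum_nonneg fun k _ => hbad v k
  have hc0 : ∀ i, 0 ≤ c i := fun i => Nat.cast_nonneg _
  have hcs : ∑ i, c i = 2 ^ m := by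
    have h1 : ∑ i, (univ.filter fun v => P v = i).card =
        (univ : Finset (Fin m → Bool)).card :=
      (Finset.card_eq_sum_card_fiberwise fun x _ => mem_univ (P x)).symm
    have h2 : ((∑ i, (univ.filter fun v => P v = i).card : ℕ) : ℝ) = 2 ^ m := by
      rw [h1]; simp
    push_cast at h2
    exact h2
  have hBs : ∑ i, B i ≤ m * 2 ^ m / 140 := by
    have h1 : ∑ i, B i = ∑ v, ∑ k, bad v k := Finset.sum_fiberwise univ P _
    rw [h1]
    exact hb
  have hEs : ∑ i, E i ≤ 2 * (m * 2 ^ m / 70) := by
    have h1 : ∑ i, E i = ∑ v, ∑ k, ∑ i, ((if P v = i then (1 : ℝ) else 0) -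
        (if P (flip v k) = i then (1 : ℝ) else 0)) ^ 2 := by
      simp only [hE]
      rw [Finset.sum_comm]
      refine Finset.sum_congr rfl fun v _ => ?_
      rw [Finset.sum_comm]
    have h2 : ∀ v k, ∑ i, ((if P v = i then (1 : ℝ) else 0) -
        (if P (flip v k) = i then (1 : ℝ) else 0)) ^ 2 =
        2 * (if P v ≠ P (flip v k) then (1 : ℝ) else 0) := by
      intro v k
      by_cases h : P v = P (flip v k)
      · rw [h]; simp
      · have h3 : ∀ i, ((if P v = i then (1 : ℝ) else 0) -
            (if P (flip v k) = i then (1 : ℝ) else 0)) ^ 2 =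
            (if P v = i then (1 : ℝ) else 0) + (if P (flip v k) = i then (1 : ℝ) else 0) := by
          intro i
          by_cases h4 : P v = i
          · by_cases h5 : P (flip v k) = i
            · exact absurd (h4.trans h5.symm) h
            · rw [if_pos h4, if_neg h5]; norm_num
          · by_cases h5 : P (flip v k) = i
            · rw [if_neg h4, if_pos h5]; norm_num
            · rw [if_neg h4, if_neg h5]; norm_num
        rw [Finset.sum_congr rfl fun i _ => h3 i, Finset.sum_add_distrib]
        simp [h]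
        norm_num
    rw [h1]
    simp only [h2]
    rw [Finset.sum_congr rfl fun v _ => (Finset.mul_sum _ _ _).symm, ← Finset.mul_sum]
    linarith
  -- every class pays
  have key : ∀ i, c i ≤ 100 / (3 * m) * E i + 20 / (3 * m) * B i := by
    intro i
    rcases (hc0 i).eq_or_lt with h | h
    · rw [← h]
      have := hE0 i
      have := hB0 i
      positivity
    · have hcard : 0 < (univ.filter fun v => P v = i).card := Nat.cast_pos.1 h
      by_cases h1 : log (2 ^ m / (univ.filter fun v => P v = i).card) ≤ 3 * m / 200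
      · have h2 := hcon i hcard h1
        have h3 : c i ≤ 20 / (3 * m) * B i := by
          have h4 : 3 / 20 * (m * c i) < B i := h2
          rw [div_mul_eq_mul_div, le_div_iff₀ (by positivity)]
          linarith
        have : 0 ≤ 100 / (3 * m) * E i := mul_nonneg (by positivity) (hE0 i)
        linarith
      · have h2 := class_logsob P i hcard
        have h3 : c i ≤ 100 / (3 * m) * E i := by
          have h4 : c i * (3 * m / 200) ≤ 1 / 2 * E i :=
            (mul_le_mul_of_nonneg_left (not_le.1 h1).le h.le).trans h2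
          rw [div_mul_eq_mul_div, le_div_iff₀ (by positivity)]
          linarith
        have : 0 ≤ 20 / (3 * m) * B i := mul_nonneg (by positivity) (hB0 i)
        linarith
  have hex : ∃ i, 0 < c i := by
    by_contra hno
    push Not at hno
    have : ∑ i, c i ≤ 0 := Finset.sum_nonpos fun i _ => hno i
    rw [hcs] at this
    linarith
  obtain ⟨i0, h0⟩ := hex
  have keylt : c i0 < 100 / (3 * m) * E i0 + 20 / (3 * m) * B i0 := by
    have hcard : 0 < (univ.filter fun v => P v = i0).card := Nat.cast_pos.1 h0
    by_cases h1 : log (2 ^ m / (univ.filter fun v => P v = i0).card) ≤ 3 * m / 200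
    · have h2 := hcon i0 hcard h1
      have h3 : c i0 < 20 / (3 * m) * B i0 := by
        have h4 : 3 / 20 * (m * c i0) < B i0 := h2
        rw [div_mul_eq_mul_div, lt_div_iff₀ (by positivity)]
        linarith
      have : 0 ≤ 100 / (3 * m) * E i0 := mul_nonneg (by positivity) (hE0 i0)
      linarith
    · have h2 := class_logsob P i0 hcard
      have h3 : c i0 < 100 / (3 * m) * E i0 := by
        have h4 : c i0 * (3 * m / 200) < 1 / 2 * E i0 :=
          (mul_lt_mul_of_pos_left (not_le.1 h1) h0).trans_le h2
        rw [div_mul_eq_mul_div, lt_div_iff₀ (by positivity)]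
        linarith
      have : 0 ≤ 20 / (3 * m) * B i0 := mul_nonneg (by positivity) (hB0 i0)
      linarith
  have hsum : ∑ i, c i < ∑ i, (100 / (3 * m) * E i + 20 / (3 * m) * B i) :=
    Finset.sum_lt_sum (fun i _ => key i) ⟨i0, mem_univ _, keylt⟩
  rw [hcs, Finset.sum_add_distrib, ← Finset.mul_sum, ← Finset.mul_sum] at hsum
  have h1 : 100 / (3 * (m : ℝ)) * ∑ i, E i ≤ 100 / (3 * m) * (2 * (m * 2 ^ m / 70)) :=
    mul_le_mul_of_nonneg_left hEs (by positivity)
  have h2 : 20 / (3 * (m : ℝ)) * ∑ i, B i ≤ 20 / (3 * m) * (m * 2 ^ m / 140) :=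
    mul_le_mul_of_nonneg_left hBs (by positivity)
  have h3 : 100 / (3 * (m : ℝ)) * (2 * (m * 2 ^ m / 70)) = 20 / 21 * 2 ^ m := by
    field_simp
    norm_num
  have h4 : 20 / (3 * (m : ℝ)) * (m * 2 ^ m / 140) = 1 / 21 * 2 ^ m := by
    field_simp
    norm_num
  linarith

end P325qz
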