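import Mathlib
import Pool.Agent.Lib.P325qz.Cube

/-!
P325qz.SetC (MP_325f1f_lc, helper24): (SetB) entropy of a law with bounded density, (SetC) capture
for functions on a space over the hypercube that are close to the transversal characters.
-/

namespace P325qz

open Finset Real

/-- **A law of bounded density has small entropy.** -/
theorem setB {m : ℕ} (hm : 1024 ≤ m) (ν : (Fin m → Bool) → ℝ) (h0 : ∀ v, 0 ≤ ν v)
    (h1 : ∑ v, ν v = 1) {a : ℝ} (ha : 0 < a) (hlog : log (2 ^ m / a) ≤ 3 * m / 200)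
    (hν : ∀ v, ν v ≤ 20 / (17 * a)) : Dkl ν ≤ m / 64 := by
  have hP : (0 : ℝ) < 2 ^ m := by positivity
  have h2 : Dkl ν ≤ log (2 ^ m * (20 / (17 * a))) := by
    unfold Dkl
    calc ∑ v, ν v * log (Fintype.card (Fin m → Bool) * ν v)
        ≤ ∑ v, ν v * log (2 ^ m * (20 / (17 * a))) := by
          refine Finset.sum_le_sum fun v _ => ?_
          rcases (h0 v).eq_or_lt with h | h
          · rw [← h]; simp
          · refine mul_le_mul_of_nonneg_left (log_le_log (by positivity) ?_) h.le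
            have : (Fintype.card (Fin m → Bool) : ℝ) = 2 ^ m := by simp
            rw [this]
            exact mul_le_mul_of_nonneg_left (hν v) hP.le
      _ = log (2 ^ m * (20 / (17 * a))) := by rw [← Finset.sum_mul, h1, one_mul]
  refine h2.trans ?_
  have h3 : (2 : ℝ) ^ m * (20 / (17 * a)) = 2 ^ m / a * (20 / 17) := by
    field_simp
  rw [h3, log_mul (by positivity) (by norm_num)]
  have h4 : log (20 / 17 : ℝ) ≤ 20 / 17 - 1 := log_le_sub_one_of_pos (by norm_num)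
  have h5 : (1024 : ℝ) ≤ m := by exact_mod_cast hm
  norm_num at h4
  linarith

/-- numerical conclusion from a lower bound -/
theorem numC {b j R : ℕ} (hb : 12 ≤ b)
    (h5 : (0.241 : ℝ) ≤ 2 ^ j * √R * √√((12 / (b : ℝ)) ^ j)) :
    ((b : ℝ) / 192) ^ j ≤ (20 * (R : ℝ)) ^ 2 := by
  have hb0 : 0 < b := by omega
  have hb' : (0 : ℝ) < b := by exact_mod_cast hb0
  have hq0 : (0 : ℝ) < 12 / b := by positivity
  have h6 : (0.241 : ℝ) ^ 4 ≤ (2 ^ j * √R * √√((12 / (b : ℝ)) ^ j)) ^ 4 :=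
    pow_le_pow_left₀ (by norm_num) h5 4
  have h7 : (2 ^ j * √R * √√((12 / (b : ℝ)) ^ j)) ^ 4 = (R : ℝ) ^ 2 * (192 / b) ^ j := by
    have e1 : √(R : ℝ) ^ 4 = (R : ℝ) ^ 2 := by
      rw [show (4 : ℕ) = 2 * 2 from rfl, pow_mul, Real.sq_sqrt (Nat.cast_nonneg R)]
    have e2 : √√((12 / (b : ℝ)) ^ j) ^ 4 = (12 / (b : ℝ)) ^ j := by
      rw [show (4 : ℕ) = 2 * 2 from rfl, pow_mul, Real.sq_sqrt (Real.sqrt_nonneg _),
        Real.sq_sqrt (by positivity)]
    have e3 : ((2 : ℝ) ^ j) ^ 4 = 16 ^ j := by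
      rw [← pow_mul, mul_comm, pow_mul]
      norm_num
    rw [mul_pow, mul_pow, e1, e2, e3]
    have e4 : (192 / (b : ℝ)) ^ j = 16 ^ j * (12 / (b : ℝ)) ^ j := by
      rw [← mul_pow]
      congr 1
      ring
    rw [e4]
    ring
  rw [h7] at h6
  have h8 : ((b : ℝ) / 192) ^ j * (192 / b) ^ j = 1 := by
    rw [← mul_pow]
    have : (b : ℝ) / 192 * (192 / b) = 1 := by field_simp
    rw [this, one_pow]
  have hp : 0 < ((b : ℝ) / 192) ^ j := by positivity
  calc ((b : ℝ) / 192) ^ j = ((b : ℝ) / 192) ^ j * 1 := (mul_one _).symm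
    _ ≤ ((b : ℝ) / 192) ^ j * (400 * 0.241 ^ 4) :=
        mul_le_mul_of_nonneg_left (by norm_num) hp.le
    _ ≤ ((b : ℝ) / 192) ^ j * (400 * ((R : ℝ) ^ 2 * (192 / b) ^ j)) := by
        refine mul_le_mul_of_nonneg_left ?_ hp.le
        linarith
    _ = (20 * (R : ℝ)) ^ 2 * (((b : ℝ) / 192) ^ j * (192 / b) ^ j) := by ring
    _ = _ := by rw [h8, mul_one]

/-- **Capture with an error.** -/
theorem setC {m b j R : ℕ} (hb : 12 ≤ b) (hj : 0 < j) (hm : m ≤ 2 * (j * b))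
    (e : Fin j × Fin b → Fin m) (he : Function.Injective e)
    {V : Type} [Fintype V] (p : V → (Fin m → Bool))
    (μ : V → ℝ) (h0 : ∀ x, 0 ≤ μ x) (h1 : ∑ x, μ x = 1)
    (hD : Dkl (marg p μ) ≤ m / 64) (L : Fin R → (V → ℝ) →ₗ[ℝ] ℝ)
    (hL : ∀ g : V → ℝ, ∑ r, (L r g) ^ 2 ≤ ∑ x, μ x * g x ^ 2)
    (f : (Fin j → Fin b) → V → ℝ)
    (hf : ∑ S, ∑ x, μ x * (f S x - chi e S (p x)) ^ 2 ≤ (b : ℝ) ^ j / 512)
    (hfL : (982 / 1000 : ℝ) * (b : ℝ) ^ j ≤ ∑ S, ∑ r, (L r (f S)) ^ 2) :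
    ((b : ℝ) / 192) ^ j ≤ (20 * (R : ℝ)) ^ 2 := by
  have hb0 : 0 < b := by omega
  have hb' : (0 : ℝ) < b := by exact_mod_cast hb0
  have hb12 : (12 : ℝ) ≤ b := by exact_mod_cast hb
  have hj' : (0 : ℝ) < j := by exact_mod_cast hj
  set pull : ((Fin m → Bool) → ℝ) →ₗ[ℝ] (V → ℝ) := LinearMap.funLeft ℝ ℝ p with hpull
  have hcap := capture_cube hb0 hj e he (C := 12) (by norm_num) hb12 (marg p μ)
    (marg_nonneg p μ h0) (marg_one p μ h1) hD (fun r => (L r).comp pull) (by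
      intro g
      rw [marg_sum p μ fun y => g y ^ 2]
      exact hL (pull g))
  have hbj : 0 < √((b : ℝ) ^ j) := Real.sqrt_pos.2 (by positivity)
  -- Minkowski
  have hsplit : ∀ S r, L r (f S) = ((L r).comp pull) (fun x => ∏ l, sg (x (e (l, S l)))) +
      L r (fun x => f S x - chi e S (p x)) := by
    intro S r
    have e1 : f S = pull (fun x => ∏ l, sg (x (e (l, S l)))) +
        fun x => f S x - chi e S (p x) := by
      funext x
      change f S x = chi e S (p x) + (f S x - chi e S (p x))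
      ring
    calc L r (f S) = L r (pull (fun x => ∏ l, sg (x (e (l, S l)))) +
        fun x => f S x - chi e S (p x)) := by rw [← e1]
      _ = _ := by rw [map_add]; rfl
  have e2 : ∀ F : (Fin j → Fin b) → Fin R → ℝ, ∑ S, ∑ r, F S r ^ 2 =
      ∑ q : (Fin j → Fin b) × Fin R, F q.1 q.2 ^ 2 := fun F =>
    (Fintype.sum_prod_type' (f := fun S r => F S r ^ 2)).symm
  have hmink : √(∑ S, ∑ r, (L r (f S)) ^ 2) ≤
      √(∑ S : Fin j → Fin b, ∑ r, (((L r).comp pull) fun x => ∏ l, sg (x (e (l, S l)))) ^ 2) +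
      √(∑ S, ∑ r, (L r (fun x => f S x - chi e S (p x))) ^ 2) := by
    rw [e2 fun S r => L r (f S), e2 fun S r => ((L r).comp pull) fun x => ∏ l, sg (x (e (l, S l))),
      e2 fun S r => L r (fun x => f S x - chi e S (p x))]
    simp only [hsplit]
    exact l2_add (fun q : (Fin j → Fin b) × Fin R =>
      ((L q.2).comp pull) fun x => ∏ l, sg (x (e (l, q.1 l))))
      fun q => L q.2 (fun x => f q.1 x - chi e q.1 (p x))
  have herr : √(∑ S, ∑ r, (L r (fun x => f S x - chi e S (p x))) ^ 2) ≤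
      √((b : ℝ) ^ j) * 0.0443 := by
    have h2 : ∑ S, ∑ r, (L r (fun x => f S x - chi e S (p x))) ^ 2 ≤ (b : ℝ) ^ j * 0.0443 ^ 2 := by
      calc _ ≤ ∑ S, ∑ x, μ x * (f S x - chi e S (p x)) ^ 2 :=
            Finset.sum_le_sum fun S _ => hL _
        _ ≤ (b : ℝ) ^ j / 512 := hf
        _ ≤ (b : ℝ) ^ j * 0.0443 ^ 2 := by
            rw [div_le_iff₀ (by norm_num)]
            have : 0 < (b : ℝ) ^ j := by positivity
            nlinarith
    refine (Real.sqrt_le_sqrt h2).trans (le_of_eq ?_)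
    rw [Real.sqrt_mul (by positivity), Real.sqrt_sq (by norm_num)]
  have hlow : √((b : ℝ) ^ j) * 0.99 ≤ √(∑ S, ∑ r, (L r (f S)) ^ 2) := by
    have h2 : √((b : ℝ) ^ j) * 0.99 = √((b : ℝ) ^ j * 0.99 ^ 2) := by
      rw [Real.sqrt_mul (by positivity), Real.sqrt_sq (by norm_num)]
    rw [h2]
    apply Real.sqrt_le_sqrt
    refine le_trans ?_ hfL
    have : 0 < (b : ℝ) ^ j := by positivity
    nlinarith
  have h3 : √(8 * ((m : ℝ) / 64) / (j * b) + 4 * log 2 / 12) ≤ 0.694 := by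
    apply Real.sqrt_le_iff.2
    constructor
    · norm_num
    · have e1 : 8 * ((m : ℝ) / 64) / (j * b) ≤ 1 / 4 := by
        rw [div_le_iff₀ (by positivity)]
        have : (m : ℝ) ≤ 2 * (j * b) := by exact_mod_cast hm
        linarith
      have e2 := Real.log_two_lt_d9
      nlinarith
  have h4 : √((b : ℝ) ^ j) * 0.99 ≤ √((b : ℝ) ^ j) *
      (2 ^ j * √R * √√((12 / (b : ℝ)) ^ j) +
        √(8 * ((m : ℝ) / 64) / (j * b) + 4 * log 2 / 12) + 0.0443) := by
    calc _ ≤ _ := hlow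
      _ ≤ _ := hmink
      _ ≤ _ := add_le_add hcap herr
      _ = _ := by ring
  have h5 := le_of_mul_le_mul_left h4 hbj
  exact numC hb (by linarith)

end P325qz
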